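import Mathlib

/-!
# Reduced L^p crossed products by a homeomorphism (helper382, for MP_1d722c_an)

`CC p X h` is the algebra of finite sums `∑ a_n u^n`, `a_n ∈ C(X)`, with `(a u^m)(b u^n) = a α^m(b) u^(m+n)`,
`α(f) = f ∘ h⁻¹`.  `regRep` is the regular representation on `ℓ^p(ℤ, L^p(Y, μ))` attached to a unital
contractive homomorphism `π₀ : C(X) → L(L^p(Y, μ))`, and `FpR p X h` is the completion of `CC p X h`
in the supremum of the operator norms over all such `π₀` (with `μ` σ-finite).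
-/

set_option autoImplicit false

open scoped ENNReal
open MeasureTheory

namespace H382FP

noncomputable section

set_option linter.unusedSectionVars false

section ops

variable {p : ℝ≥0∞} [Fact (1 ≤ p)] [hpt : Fact (p ≠ ∞)]

lemma pr_pos : 0 < p.toReal :=
  ENNReal.toReal_pos (zero_lt_one.trans_le (Fact.out : 1 ≤ p)).ne' hpt.out

variable {E : Type*} [NormedAddCommGroup E] [NormedSpace ℂ E]

/-- the space `ℓ^p(ℤ, E)` -/
abbrev LpZ (p : ℝ≥0∞) (E : Type*) [NormedAddCommGroup E] : Type _ := lp (fun _ : ℤ => E) p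

lemma memlp_of_le {C : ℝ} (hC : 0 ≤ C) {f : ℤ → E} (g : LpZ p E)
    (h : ∀ n, ‖f n‖ ≤ C * ‖g n‖) : Memℓp f p := by
  apply memℓp_gen
  have hg : Summable fun i => (C * ‖g i‖) ^ p.toReal := by
    have := ((memℓp_gen_iff pr_pos).1 (lp.memℓp g)).mul_left (C ^ p.toReal)
    refine this.congr fun i => ?_
    rw [Real.mul_rpow hC (norm_nonneg _)]
  refine Summable.of_nonneg_of_le (fun i => ?_) (fun i => ?_) hg
  · positivity
  · exact Real.rpow_le_rpow (norm_nonneg _) (h i) pr_pos.le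

lemma norm_le_of_le {C : ℝ} (hC : 0 ≤ C) (f g : LpZ p E)
    (h : ∀ n, ‖f n‖ ≤ C * ‖g n‖) : ‖f‖ ≤ C * ‖g‖ := by
  apply lp.norm_le_of_tsum_le pr_pos (by positivity)
  rw [Real.mul_rpow hC (norm_nonneg _), lp.norm_rpow_eq_tsum pr_pos, ← tsum_mul_left]
  have hf := (memℓp_gen_iff pr_pos).1 (lp.memℓp f)
  have hg := ((memℓp_gen_iff pr_pos).1 (lp.memℓp g)).mul_left (C ^ p.toReal)
  refine hf.tsum_le_tsum (fun i => ?_) hg
  rw [← Real.mul_rpow hC (norm_nonneg _)]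
  exact Real.rpow_le_rpow (norm_nonneg _) (h i) pr_pos.le

/-- the diagonal operator `(ξ n) ↦ (T n (ξ n))` on `ℓ^p(ℤ, E)` -/
def diagOp (T : ℤ → (E →L[ℂ] E)) (C : ℝ) (hT : ∀ n, ‖T n‖ ≤ C) :
    LpZ p E →L[ℂ] LpZ p E :=
  have hC : 0 ≤ C := (norm_nonneg _).trans (hT 0)
  LinearMap.mkContinuous
    { toFun := fun ξ => ⟨fun n => T n (ξ n), memlp_of_le hC ξ fun n =>
        ((T n).le_opNorm _).trans (mul_le_mul_of_nonneg_right (hT n) (norm_nonneg _))⟩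
      map_add' := fun ξ η => by
        apply lp.ext; funext n; exact map_add (T n) _ _
      map_smul' := fun c ξ => by
        apply lp.ext; funext n; exact map_smul (T n) _ _ }
    C (fun ξ => norm_le_of_le hC _ ξ fun n =>
        ((T n).le_opNorm _).trans (mul_le_mul_of_nonneg_right (hT n) (norm_nonneg _)))

lemma diagOp_apply (T : ℤ → (E →L[ℂ] E)) (C : ℝ) (hT : ∀ n, ‖T n‖ ≤ C) (ξ : LpZ p E) (n : ℤ) :
    diagOp T C hT ξ n = T n (ξ n) := rfl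

lemma norm_diagOp_le (T : ℤ → (E →L[ℂ] E)) (C : ℝ) (hT : ∀ n, ‖T n‖ ≤ C) :
    ‖(diagOp T C hT : LpZ p E →L[ℂ] LpZ p E)‖ ≤ C := by
  have hC : 0 ≤ C := (norm_nonneg _).trans (hT 0)
  apply ContinuousLinearMap.opNorm_le_bound _ hC
  intro ξ
  exact norm_le_of_le hC _ ξ fun n =>
        ((T n).le_opNorm _).trans (mul_le_mul_of_nonneg_right (hT n) (norm_nonneg _))

lemma memlp_shift (ξ : LpZ p E) (m : ℤ) : Memℓp (fun n => ξ (n - m)) p := by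
  apply memℓp_gen
  have := (memℓp_gen_iff pr_pos).1 (lp.memℓp ξ)
  exact (Equiv.subRight m).summable_iff.2 this

/-- the translation `(ξ n) ↦ (ξ (n - m))` on `ℓ^p(ℤ, E)` -/
def shiftOp (m : ℤ) : LpZ p E →L[ℂ] LpZ p E :=
  LinearMap.mkContinuous
    { toFun := fun ξ => ⟨fun n => ξ (n - m), memlp_shift ξ m⟩
      map_add' := fun ξ η => rfl
      map_smul' := fun c ξ => rfl }
    1 (fun ξ => by
      apply lp.norm_le_of_tsum_le pr_pos (by positivity)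
      rw [one_mul, lp.norm_rpow_eq_tsum pr_pos]
      exact ((Equiv.subRight m).tsum_eq (fun n => ‖ξ n‖ ^ p.toReal)).le)

lemma shiftOp_apply (m : ℤ) (ξ : LpZ p E) (n : ℤ) :
    shiftOp m ξ n = ξ (n - m) := rfl

end ops

section alg

variable (p : ℝ≥0∞) (X : Type) [TopologicalSpace X] (h : X ≃ₜ X)

/-- the action of `ℤ` on `C(X)`: `m • f = α^m (f) = f ∘ h^(-m)` -/
@[reducible] def act : MulSemiringAction (Multiplicative ℤ) C(X, ℂ) where
  smul m f := f.comp ((h ^ (-(Multiplicative.toAdd m)) : X ≃ₜ X) : C(X, X))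
  one_smul f := by
    ext x
    show f ((h ^ (-(0 : ℤ))) x) = f x
    simp
  mul_smul m n f := by
    ext x
    show f ((h ^ (-((Multiplicative.toAdd m) + (Multiplicative.toAdd n)))) x) =
      f ((h ^ (-(Multiplicative.toAdd n))) ((h ^ (-(Multiplicative.toAdd m))) x))
    rw [neg_add_rev, zpow_add]
    rfl
  smul_zero m := rfl
  smul_add m f g := rfl
  smul_one m := rfl
  smul_mul m f g := rfl

/-- the algebra `C_c(ℤ, C(X))` of finite sums `∑ a_n u^n` -/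
def CC (_p : ℝ≥0∞) (X : Type) [TopologicalSpace X] (_h : X ≃ₜ X) : Type :=
  SkewMonoidAlgebra C(X, ℂ) (Multiplicative ℤ)

instance : Ring (CC p X h) :=
  @SkewMonoidAlgebra.instRing C(X, ℂ) (Multiplicative ℤ) _ _ (act X h)

end alg

section rep

variable {p : ℝ≥0∞} [Fact (1 ≤ p)] [hpt : Fact (p ≠ ∞)]
variable {X : Type} [TopologicalSpace X] [CompactSpace X] (h : X ≃ₜ X)
variable {E : Type*} [NormedAddCommGroup E] [NormedSpace ℂ E]

lemma norm_comp_le (f : C(X, ℂ)) (g : C(X, X)) : ‖f.comp g‖ ≤ ‖f‖ := by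
  rw [ContinuousMap.norm_le _ (norm_nonneg _)]
  intro x
  exact f.norm_coe_le_norm (g x)

/-- `f ↦ π(f)`, `(π(f) ξ)(n) = π₀(α^(-n)(f)) ξ(n) = π₀(f ∘ h^n) ξ(n)` -/
def diagRep (π₀ : C(X, ℂ) →ₐ[ℂ] (E →L[ℂ] E)) (hπ : ∀ f, ‖π₀ f‖ ≤ ‖f‖) :
    C(X, ℂ) →+* (LpZ p E →L[ℂ] LpZ p E) where
  toFun f := diagOp (fun n : ℤ => π₀ (f.comp ((h ^ n : X ≃ₜ X) : C(X, X)))) ‖f‖
    (fun _ => (hπ _).trans (norm_comp_le _ _))
  map_one' := by
    ext ξ n : 3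
    show (π₀ 1) (ξ n) = ξ n
    rw [map_one]; rfl
  map_mul' f g := by
    ext ξ n : 3
    show (π₀ ((f * g).comp _)) (ξ n) = (π₀ (f.comp _)) ((π₀ (g.comp _)) (ξ n))
    rw [ContinuousMap.mul_comp, map_mul]; rfl
  map_zero' := by
    ext ξ n : 3
    show (π₀ ((0 : C(X, ℂ)).comp _)) (ξ n) = 0
    rw [ContinuousMap.zero_comp, map_zero]; rfl
  map_add' f g := by
    ext ξ n : 3
    show (π₀ ((f + g).comp _)) (ξ n) = (π₀ (f.comp _)) (ξ n) + (π₀ (g.comp _)) (ξ n)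
    rw [ContinuousMap.add_comp, map_add]; rfl

/-- `m ↦ v^m`, `(v ξ)(n) = ξ(n - 1)` -/
def shiftRep : Multiplicative ℤ →* (LpZ p E →L[ℂ] LpZ p E) where
  toFun m := shiftOp (Multiplicative.toAdd m)
  map_one' := by
    ext ξ n : 3
    show ξ (n - 0) = ξ n
    rw [sub_zero]
  map_mul' m k := by
    ext ξ n : 3
    show ξ (n - (Multiplicative.toAdd m + Multiplicative.toAdd k)) =
      ξ (n - Multiplicative.toAdd m - Multiplicative.toAdd k)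
    rw [sub_sub]

/-- the regular representation `∑ a_n u^n ↦ ∑ π(a_n) v^n` of `C_c(ℤ, C(X))` on `ℓ^p(ℤ, E)` -/
def regRep (π₀ : C(X, ℂ) →ₐ[ℂ] (E →L[ℂ] E)) (hπ : ∀ f, ‖π₀ f‖ ≤ ‖f‖) :
    CC p X h →+* (LpZ p E →L[ℂ] LpZ p E) :=
  letI := act X h
  SkewMonoidAlgebra.liftNCRingHom (diagRep h π₀ hπ) shiftRep (by
    intro f m
    ext ξ n : 3
    show π₀ ((f.comp ((h ^ (-(Multiplicative.toAdd m)) : X ≃ₜ X) : C(X, X))).comp
      ((h ^ n : X ≃ₜ X) : C(X, X))) (ξ (n - Multiplicative.toAdd m)) =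
      π₀ (f.comp ((h ^ (n - Multiplicative.toAdd m) : X ≃ₜ X) : C(X, X)))
        (ξ (n - Multiplicative.toAdd m))
    congr 2
    ext x
    show f ((h ^ (-(Multiplicative.toAdd m))) ((h ^ n) x)) = f ((h ^ (n - Multiplicative.toAdd m)) x)
    rw [sub_eq_neg_add, zpow_add]
    rfl)

/-- the operator `∑ π(a_m) v^m` on `ℓ^p(ℤ, E)`, `a = ∑ a_m u^m`,
`(π(f) ξ)(n) = π₀(α^(-n)(f)) ξ(n) = π₀(f ∘ h^n) ξ(n)`, `(v ξ)(n) = ξ(n - 1)` -/
def regOp (π₀ : C(X, ℂ) →ₐ[ℂ] (E →L[ℂ] E)) (hπ : ∀ f, ‖π₀ f‖ ≤ ‖f‖) (a : CC p X h) :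
    LpZ p E →L[ℂ] LpZ p E :=
  ∑ m ∈ a.coeff.support,
    diagOp (fun n : ℤ => π₀ ((a.coeff m).comp ((h ^ n : X ≃ₜ X) : C(X, X)))) ‖a.coeff m‖
      (fun _ => (hπ _).trans (norm_comp_le _ _)) * shiftOp (Multiplicative.toAdd m)

lemma regOp_eq (π₀ : C(X, ℂ) →ₐ[ℂ] (E →L[ℂ] E)) (hπ : ∀ f, ‖π₀ f‖ ≤ ‖f‖) (a : CC p X h) :
    regOp h π₀ hπ a = regRep h π₀ hπ a := rfl

lemma regOp_zero (π₀ : C(X, ℂ) →ₐ[ℂ] (E →L[ℂ] E)) (hπ : ∀ f, ‖π₀ f‖ ≤ ‖f‖) :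
    regOp h π₀ hπ (0 : CC p X h) = 0 := map_zero (regRep h π₀ hπ)

lemma regOp_add (π₀ : C(X, ℂ) →ₐ[ℂ] (E →L[ℂ] E)) (hπ : ∀ f, ‖π₀ f‖ ≤ ‖f‖) (a b : CC p X h) :
    regOp h π₀ hπ (a + b) = regOp h π₀ hπ a + regOp h π₀ hπ b := map_add (regRep h π₀ hπ) a b

lemma regOp_neg (π₀ : C(X, ℂ) →ₐ[ℂ] (E →L[ℂ] E)) (hπ : ∀ f, ‖π₀ f‖ ≤ ‖f‖) (a : CC p X h) :
    regOp h π₀ hπ (-a) = -regOp h π₀ hπ a := map_neg (regRep h π₀ hπ) a

lemma regOp_mul (π₀ : C(X, ℂ) →ₐ[ℂ] (E →L[ℂ] E)) (hπ : ∀ f, ‖π₀ f‖ ≤ ‖f‖) (a b : CC p X h) :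
    regOp h π₀ hπ (a * b) = regOp h π₀ hπ a * regOp h π₀ hπ b := map_mul (regRep h π₀ hπ) a b

/-- the norms of the operators `∑ π(a_m) v^m` over the contractive unital `π₀ : C(X) → L(E)` -/
def repNorms (E : Type) [NormedAddCommGroup E] [NormedSpace ℂ E] (a : CC p X h) : Set ℝ :=
  {r | ∃ (π₀ : C(X, ℂ) →ₐ[ℂ] (E →L[ℂ] E)) (hπ : ∀ f, ‖π₀ f‖ ≤ ‖f‖), r = ‖regOp h π₀ hπ a‖}

end rep

section norm

variable (p : ℝ≥0∞) [Fact (1 ≤ p)] [hpt : Fact (p ≠ ∞)]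
variable (X : Type) [TopologicalSpace X] [CompactSpace X] (h : X ≃ₜ X)

/-- the set of the norms of the images `∑ π(a_n) v^n` of `a` in the regular representations on
`ℓ^p(ℤ, L^p(Y, μ))`, `μ` σ-finite, attached to unital contractive `π₀ : C(X) → L(L^p(Y, μ))` -/
def normSet (a : CC p X h) : Set ℝ :=
  {r | ∃ (Y : Type) (_ : MeasurableSpace Y) (μ : Measure Y) (_ : SigmaFinite μ),
    r ∈ repNorms h (Lp ℂ p μ) a}

/-- the reduced norm of `a`, the supremum of `‖∑ π(a_n) v^n‖` over all regular representations -/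
def redNorm (a : CC p X h) : ℝ := sSup (normSet p X h a)

variable {p X h}

/-- the crude bound `∑ ‖a_n‖` -/
def crude (a : CC p X h) : ℝ := ∑ m ∈ a.coeff.support, ‖a.coeff m‖

lemma norm_shiftOp_le {E : Type*} [NormedAddCommGroup E] [NormedSpace ℂ E] (m : ℤ) :
    ‖(shiftOp m : LpZ p E →L[ℂ] LpZ p E)‖ ≤ 1 :=
  LinearMap.mkContinuous_norm_le _ zero_le_one _

lemma regRep_norm_le {E : Type*} [NormedAddCommGroup E] [NormedSpace ℂ E]
    (π₀ : C(X, ℂ) →ₐ[ℂ] (E →L[ℂ] E)) (hπ : ∀ f, ‖π₀ f‖ ≤ ‖f‖) (a : CC p X h) :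
    ‖regRep h π₀ hπ a‖ ≤ crude a := by
  let _ := act X h
  have h1 : regRep h π₀ hπ a = ∑ m ∈ a.coeff.support, diagRep h π₀ hπ (a.coeff m) * shiftRep m := rfl
  rw [h1]
  refine (norm_sum_le _ _).trans (Finset.sum_le_sum fun m _ => ?_)
  have h2 : ‖(diagRep h π₀ hπ (a.coeff m) : LpZ p E →L[ℂ] LpZ p E)‖ ≤ ‖a.coeff m‖ :=
    norm_diagOp_le (fun n : ℤ => π₀ ((a.coeff m).comp ((h ^ n : X ≃ₜ X) : C(X, X)))) ‖a.coeff m‖
      (fun _ => (hπ _).trans (norm_comp_le _ _))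
  have h3 : ‖(shiftRep m : LpZ p E →L[ℂ] LpZ p E)‖ ≤ 1 := norm_shiftOp_le _
  refine (norm_mul_le _ _).trans ?_
  calc _ ≤ ‖a.coeff m‖ * 1 := mul_le_mul h2 h3 (norm_nonneg _) (norm_nonneg _)
    _ = _ := mul_one _

lemma normSet_bdd (a : CC p X h) : BddAbove (normSet p X h a) := by
  refine ⟨crude a, ?_⟩
  rintro r ⟨Y, mY, μ, hμ, π₀, hπ, rfl⟩
  rw [regOp_eq]
  exact regRep_norm_le π₀ hπ a

lemma le_redNorm (a : CC p X h) {r : ℝ} (hr : r ∈ normSet p X h a) : r ≤ redNorm p X h a :=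
  le_csSup (normSet_bdd a) hr

lemma redNorm_le (a : CC p X h) {C : ℝ} (hC : 0 ≤ C) (hr : ∀ r ∈ normSet p X h a, r ≤ C) :
    redNorm p X h a ≤ C := Real.sSup_le hr hC

lemma redNorm_nonneg (a : CC p X h) : 0 ≤ redNorm p X h a := by
  apply Real.sSup_nonneg
  rintro r ⟨Y, mY, μ, hμ, π₀, hπ, rfl⟩
  exact norm_nonneg _

variable (p X h)

/-- the reduced norm as a submultiplicative seminorm on the ring `C_c(ℤ, C(X))` -/
def redSeminorm : RingSeminorm (CC p X h) where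
  toFun := redNorm p X h
  map_zero' := by
    apply le_antisymm
    · apply redNorm_le _ le_rfl
      rintro r ⟨Y, mY, μ, hμ, π₀, hπ, rfl⟩
      rw [regOp_zero, norm_zero]
    · exact redNorm_nonneg _
  add_le' a b := by
    apply redNorm_le _ (add_nonneg (redNorm_nonneg _) (redNorm_nonneg _))
    rintro r ⟨Y, mY, μ, hμ, π₀, hπ, rfl⟩
    rw [regOp_add]
    exact (norm_add_le _ _).trans (add_le_add (le_redNorm _ ⟨Y, mY, μ, hμ, π₀, hπ, rfl⟩)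
      (le_redNorm _ ⟨Y, mY, μ, hμ, π₀, hπ, rfl⟩))
  neg' a := by
    have key : ∀ b : CC p X h, redNorm p X h (-b) ≤ redNorm p X h b := by
      intro b
      apply redNorm_le _ (redNorm_nonneg _)
      rintro r ⟨Y, mY, μ, hμ, π₀, hπ, rfl⟩
      rw [regOp_neg, norm_neg]
      exact le_redNorm _ ⟨Y, mY, μ, hμ, π₀, hπ, rfl⟩
    apply le_antisymm (key a)
    have := key (-a)
    rwa [neg_neg] at this
  mul_le' a b := by
    apply redNorm_le _ (mul_nonneg (redNorm_nonneg _) (redNorm_nonneg _))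
    rintro r ⟨Y, mY, μ, hμ, π₀, hπ, rfl⟩
    rw [regOp_mul]
    exact (norm_mul_le _ _).trans (mul_le_mul (le_redNorm _ ⟨Y, mY, μ, hμ, π₀, hπ, rfl⟩)
      (le_redNorm _ ⟨Y, mY, μ, hμ, π₀, hπ, rfl⟩) (norm_nonneg _) (redNorm_nonneg _))

instance : SeminormedRing (CC p X h) := (redSeminorm p X h).toSeminormedRing

/-- the reduced `L^p` crossed product `F^p_r(ℤ, X, h)`: the completion of `C_c(ℤ, C(X))` in the
reduced norm -/
abbrev FpR : Type := UniformSpace.Completion (CC p X h)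

variable {p X h}

lemma norm_def (a : CC p X h) : ‖a‖ = redNorm p X h a := rfl

lemma norm_le_crude (a : CC p X h) : ‖a‖ ≤ crude a := by
  rw [norm_def]
  apply redNorm_le _ (Finset.sum_nonneg fun _ _ => norm_nonneg _)
  rintro r ⟨Y, mY, μ, hμ, π₀, hπ, rfl⟩
  rw [regOp_eq]
  exact regRep_norm_le π₀ hπ a

end norm

end

end H382FP
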