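import Mathlib

/-!
# Lamperti's lemma and hermitian idempotents of L^p, p ≠ 2 (helper382, for MP_1d722c_an)
-/

set_option autoImplicit false

open scoped ENNReal ComplexConjugate
open MeasureTheory

namespace H382FP

section pointwise

lemma rpow_sum_lt {a b r : ℝ} (ha : 0 < a) (hb : 0 < b) (hr : 1 < r) :
    a ^ r + b ^ r < (a + b) ^ r := by
  have h1 : a ^ r = a * a ^ (r - 1) := by
    rw [← Real.rpow_one_add' ha.le (by linarith)]; congr 1; ring
  have h2 : b ^ r = b * b ^ (r - 1) := by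
    rw [← Real.rpow_one_add' hb.le (by linarith)]; congr 1; ring
  have h3 : (a + b) ^ r = (a + b) * (a + b) ^ (r - 1) := by
    rw [← Real.rpow_one_add' (by positivity) (by linarith)]; congr 1; ring
  have h4 : a ^ (r - 1) < (a + b) ^ (r - 1) := Real.rpow_lt_rpow ha.le (by linarith) (by linarith)
  have h5 : b ^ (r - 1) < (a + b) ^ (r - 1) := Real.rpow_lt_rpow hb.le (by linarith) (by linarith)
  rw [h1, h2, h3, add_mul]
  exact add_lt_add (mul_lt_mul_of_pos_left h4 ha) (mul_lt_mul_of_pos_left h5 hb)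

lemma rpow_sum_gt {a b r : ℝ} (ha : 0 < a) (hb : 0 < b) (hr0 : 0 < r) (hr : r < 1) :
    (a + b) ^ r < a ^ r + b ^ r := by
  have h1 : a ^ r = a * a ^ (r - 1) := by
    rw [← Real.rpow_one_add' ha.le (by linarith)]; congr 1; ring
  have h2 : b ^ r = b * b ^ (r - 1) := by
    rw [← Real.rpow_one_add' hb.le (by linarith)]; congr 1; ring
  have h3 : (a + b) ^ r = (a + b) * (a + b) ^ (r - 1) := by
    rw [← Real.rpow_one_add' (by positivity) (by linarith)]; congr 1; ring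
  have h4 : (a + b) ^ (r - 1) < a ^ (r - 1) :=
    Real.rpow_lt_rpow_of_neg ha (by linarith) (by linarith)
  have h5 : (a + b) ^ (r - 1) < b ^ (r - 1) :=
    Real.rpow_lt_rpow_of_neg hb (by linarith) (by linarith)
  rw [h1, h2, h3, add_mul]
  exact add_lt_add (mul_lt_mul_of_pos_left h4 ha) (mul_lt_mul_of_pos_left h5 hb)

lemma mean_le {s t r : ℝ} (hs : 0 ≤ s) (ht : 0 ≤ t) (hr : 1 ≤ r) :
    2 * ((s + t) / 2) ^ r ≤ s ^ r + t ^ r := by
  have := (convexOn_rpow hr).2 (show s ∈ Set.Ici (0:ℝ) from hs) (show t ∈ Set.Ici (0:ℝ) from ht)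
    (show (0:ℝ) ≤ 1 / 2 by norm_num) (show (0:ℝ) ≤ 1 / 2 by norm_num) (by norm_num)
  simp only [smul_eq_mul] at this
  have e : (1 / 2 : ℝ) * s + 1 / 2 * t = (s + t) / 2 := by ring
  rw [e] at this
  linarith

lemma mean_ge {s t r : ℝ} (hs : 0 ≤ s) (ht : 0 ≤ t) (hr0 : 0 < r) (hr : r ≤ 1) :
    s ^ r + t ^ r ≤ 2 * ((s + t) / 2) ^ r := by
  have h1 := mean_le (Real.rpow_nonneg hs r) (Real.rpow_nonneg ht r) (r := 1 / r)
    (by rw [le_div_iff₀ hr0]; linarith)
  have e1 : (s ^ r) ^ (1 / r) = s := by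
    rw [← Real.rpow_mul hs, mul_one_div_cancel hr0.ne', Real.rpow_one]
  have e2 : (t ^ r) ^ (1 / r) = t := by
    rw [← Real.rpow_mul ht, mul_one_div_cancel hr0.ne', Real.rpow_one]
  rw [e1, e2] at h1
  set m := (s ^ r + t ^ r) / 2 with hm
  have hm0 : 0 ≤ m := by positivity
  have h2 : m ^ (1 / r) ≤ (s + t) / 2 := by linarith
  have h3 : (m ^ (1 / r)) ^ r ≤ ((s + t) / 2) ^ r :=
    Real.rpow_le_rpow (Real.rpow_nonneg hm0 _) h2 hr0.le
  rw [← Real.rpow_mul hm0, one_div_mul_cancel hr0.ne', Real.rpow_one] at h3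
  have : s ^ r + t ^ r = 2 * m := by rw [hm]; ring
  rw [this]
  linarith

/-- the Clarkson defect -/
noncomputable def clk (r : ℝ) (z w : ℂ) : ℝ :=
  ‖z + w‖ ^ r + ‖z - w‖ ^ r - 2 * ‖z‖ ^ r - 2 * ‖w‖ ^ r

lemma clk_zero {r : ℝ} (hr : 0 < r) {z w : ℂ} (h : z * w = 0) : clk r z w = 0 := by
  unfold clk
  rcases mul_eq_zero.1 h with h | h
  · simp [h, Real.zero_rpow hr.ne']; ring
  · simp [h, Real.zero_rpow hr.ne']; ring

lemma norm_rpow_half {r : ℝ} (z : ℂ) : ‖z‖ ^ r = (‖z‖ ^ 2) ^ (r / 2) := by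
  rw [← Real.rpow_natCast, ← Real.rpow_mul (norm_nonneg _)]
  congr 1
  push_cast
  ring

lemma par (z w : ℂ) : ‖z + w‖ ^ 2 + ‖z - w‖ ^ 2 = 2 * (‖z‖ ^ 2 + ‖w‖ ^ 2) := by
  exact parallelogram_law_with_norm ℝ z w

lemma clk_gt {r : ℝ} (hr : 2 < r) (z w : ℂ) :
    0 ≤ clk r z w ∧ (clk r z w = 0 → z * w = 0) := by
  have h0 : 1 < r / 2 := by linarith
  have h1 := mean_le (sq_nonneg ‖z + w‖) (sq_nonneg ‖z - w‖) h0.le
  rw [par, mul_div_cancel_left₀ _ (two_ne_zero)] at h1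
  have e : clk r z w = (‖z + w‖ ^ 2) ^ (r / 2) + (‖z - w‖ ^ 2) ^ (r / 2) -
      2 * (‖z‖ ^ 2) ^ (r / 2) - 2 * (‖w‖ ^ 2) ^ (r / 2) := by
    unfold clk
    rw [norm_rpow_half (z + w), norm_rpow_half (z - w), norm_rpow_half z, norm_rpow_half w]
  by_cases hzw : z * w = 0
  · rw [clk_zero (by linarith) hzw]; exact ⟨le_refl _, fun _ => hzw⟩
  · have hz : 0 < ‖z‖ ^ 2 := by
      have : z ≠ 0 := fun h => hzw (by rw [h, zero_mul])
      positivity
    have hw : 0 < ‖w‖ ^ 2 := by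
      have : w ≠ 0 := fun h => hzw (by rw [h, mul_zero])
      positivity
    have h2 := rpow_sum_lt hz hw h0
    have h3 : 0 < clk r z w := by rw [e]; linarith
    exact ⟨h3.le, fun h => absurd h h3.ne'⟩

lemma clk_lt {r : ℝ} (hr0 : 0 < r) (hr : r < 2) (z w : ℂ) :
    0 ≤ - clk r z w ∧ (- clk r z w = 0 → z * w = 0) := by
  have h0 : r / 2 < 1 := by linarith
  have h1 := mean_ge (sq_nonneg ‖z + w‖) (sq_nonneg ‖z - w‖) (r := r / 2) (by linarith) h0.le
  rw [par, mul_div_cancel_left₀ _ (two_ne_zero)] at h1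
  have e : clk r z w = (‖z + w‖ ^ 2) ^ (r / 2) + (‖z - w‖ ^ 2) ^ (r / 2) -
      2 * (‖z‖ ^ 2) ^ (r / 2) - 2 * (‖w‖ ^ 2) ^ (r / 2) := by
    unfold clk
    rw [norm_rpow_half (z + w), norm_rpow_half (z - w), norm_rpow_half z, norm_rpow_half w]
  by_cases hzw : z * w = 0
  · rw [clk_zero (by linarith) hzw]; exact ⟨by simp, fun _ => hzw⟩
  · have hz : 0 < ‖z‖ ^ 2 := by
      have : z ≠ 0 := fun h => hzw (by rw [h, zero_mul])
      positivity
    have hw : 0 < ‖w‖ ^ 2 := by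
      have : w ≠ 0 := fun h => hzw (by rw [h, mul_zero])
      positivity
    have h2 := rpow_sum_gt hz hw (by linarith) h0
    have h3 : 0 < - clk r z w := by rw [e]; linarith
    exact ⟨h3.le, fun h => absurd h h3.ne'⟩

lemma clk_sign {r : ℝ} (hr0 : 0 < r) (hr : r ≠ 2) :
    ∃ σ : ℝ, σ ≠ 0 ∧ ∀ z w : ℂ, 0 ≤ σ * clk r z w ∧ (σ * clk r z w = 0 → z * w = 0) := by
  rcases lt_or_gt_of_ne hr with h | h
  · exact ⟨-1, by norm_num, fun z w => by simpa using clk_lt hr0 h z w⟩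
  · exact ⟨1, by norm_num, fun z w => by simpa using clk_gt h z w⟩

/-- three equal norms force a vanishing product -/
lemma prod_zero_of_norms {a b : ℂ} (h1 : ‖a + b‖ = ‖a - b‖) (h2 : ‖a + Complex.I * b‖ = ‖a + b‖) :
    a * b = 0 := by
  have e1 : ‖a + b‖ ^ 2 = ‖a - b‖ ^ 2 := by rw [h1]
  have e2 : ‖a + Complex.I * b‖ ^ 2 = ‖a + b‖ ^ 2 := by rw [h2]
  rw [Complex.sq_norm, Complex.sq_norm, Complex.normSq_apply, Complex.normSq_apply] at e1 e2
  simp only [Complex.add_re, Complex.add_im, Complex.sub_re, Complex.sub_im, Complex.mul_re,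
    Complex.mul_im, Complex.I_re, Complex.I_im, zero_mul, one_mul, zero_sub, zero_add] at e1 e2
  have e3 : a.re * b.re + a.im * b.im = 0 := by nlinarith
  have e4 : a.im * b.re - a.re * b.im = 0 := by nlinarith
  have e5 : (a.re ^ 2 + a.im ^ 2) * (b.re ^ 2 + b.im ^ 2) = 0 := by
    have : (a.re ^ 2 + a.im ^ 2) * (b.re ^ 2 + b.im ^ 2) =
      (a.re * b.re + a.im * b.im) ^ 2 + (a.im * b.re - a.re * b.im) ^ 2 := by ring
    rw [this, e3, e4]; ring
  rcases mul_eq_zero.1 e5 with h | h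
  · have hr : a.re = 0 := by nlinarith [sq_nonneg a.re, sq_nonneg a.im]
    have hi : a.im = 0 := by nlinarith [sq_nonneg a.re, sq_nonneg a.im]
    have : a = 0 := Complex.ext hr hi
    rw [this, zero_mul]
  · have hr : b.re = 0 := by nlinarith [sq_nonneg b.re, sq_nonneg b.im]
    have hi : b.im = 0 := by nlinarith [sq_nonneg b.re, sq_nonneg b.im]
    have : b = 0 := Complex.ext hr hi
    rw [this, mul_zero]

end pointwise

section Lp

set_option linter.unusedSectionVars false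

variable {p : ℝ≥0∞} [Fact (1 ≤ p)] [hpt : Fact (p ≠ ∞)]
variable {Y : Type*} [MeasurableSpace Y] {μ : Measure Y}

omit [Fact (1 ≤ p)] hpt in
lemma p_ne_zero [h : Fact (1 ≤ p)] : p ≠ 0 := (zero_lt_one.trans_le h.out).ne'

lemma pr_pos' : 0 < p.toReal :=
  ENNReal.toReal_pos p_ne_zero hpt.out

/-- `∫ |f|^p` -/
noncomputable def II (p : ℝ≥0∞) (μ : Measure Y) (f : Y → ℂ) : ℝ := ∫ x, ‖f x‖ ^ p.toReal ∂μ

lemma norm_rpow_eq (f : Lp ℂ p μ) : ‖f‖ ^ p.toReal = II p μ f := by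
  have h := (Lp.memLp f).eLpNorm_eq_integral_rpow_norm p_ne_zero hpt.out
  rw [Lp.norm_def, h, ENNReal.toReal_ofReal (by positivity)]
  rw [← Real.rpow_mul (by positivity), inv_mul_cancel₀ pr_pos'.ne', Real.rpow_one]
  rfl

lemma integ (f : Lp ℂ p μ) : Integrable (fun x => ‖f x‖ ^ p.toReal) μ :=
  (Lp.memLp f).integrable_norm_rpow p_ne_zero hpt.out

/-- almost everywhere disjoint -/
def Disj (f g : Lp ℂ p μ) : Prop := ∀ᵐ x ∂μ, f x * g x = 0

lemma integral_clk (f g : Lp ℂ p μ) :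
    ∫ x, clk p.toReal (f x) (g x) ∂μ =
      ‖f + g‖ ^ p.toReal + ‖f - g‖ ^ p.toReal - 2 * ‖f‖ ^ p.toReal - 2 * ‖g‖ ^ p.toReal := by
  rw [norm_rpow_eq, norm_rpow_eq, norm_rpow_eq, norm_rpow_eq]
  unfold II
  have h : ∫ x, clk p.toReal (f x) (g x) ∂μ = ∫ x, (‖(f + g : Lp ℂ p μ) x‖ ^ p.toReal +
      ‖(f - g : Lp ℂ p μ) x‖ ^ p.toReal - 2 * ‖f x‖ ^ p.toReal - 2 * ‖g x‖ ^ p.toReal) ∂μ := by
    apply integral_congr_ae
    filter_upwards [Lp.coeFn_add f g, Lp.coeFn_sub f g] with x h1 h2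
    rw [h1, h2]
    rfl
  have i1 := integ (f + g)
  have i2 := integ (f - g)
  have i3 := (integ f).const_mul 2
  have i4 := (integ g).const_mul 2
  rw [h, integral_sub _ i4, integral_sub _ i3, integral_add i1 i2, integral_const_mul,
    integral_const_mul]
  · exact i1.add i2
  · exact (i1.add i2).sub i3

lemma integrable_clk (f g : Lp ℂ p μ) : Integrable (fun x => clk p.toReal (f x) (g x)) μ := by
  have h := (((integ (f + g)).add (integ (f - g))).sub ((integ f).const_mul 2)).sub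
    ((integ g).const_mul 2)
  refine h.congr ?_
  filter_upwards [Lp.coeFn_add f g, Lp.coeFn_sub f g] with x h1 h2
  simp only [Pi.add_apply, Pi.sub_apply]
  rw [h1, h2]
  rfl

variable (hp2 : p ≠ 2)

include hp2 in
lemma pr_ne_two : p.toReal ≠ 2 := by
  intro h
  apply hp2
  rw [← ENNReal.ofReal_toReal hpt.out, h]
  simp

include hp2 in
lemma disj_iff (f g : Lp ℂ p μ) : Disj f g ↔
    ‖f + g‖ ^ p.toReal + ‖f - g‖ ^ p.toReal - 2 * ‖f‖ ^ p.toReal - 2 * ‖g‖ ^ p.toReal = 0 := by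
  rw [← integral_clk]
  constructor
  · intro h
    have : (fun x => clk p.toReal (f x) (g x)) =ᵐ[μ] fun _ => 0 := by
      filter_upwards [h] with x hx
      exact clk_zero pr_pos' hx
    rw [integral_congr_ae this, integral_zero]
  · intro h
    obtain ⟨σ, hσ0, hσ⟩ := clk_sign (pr_pos' (p := p)) (pr_ne_two hp2)
    have h1 : ∫ x, σ * clk p.toReal (f x) (g x) ∂μ = 0 := by
      rw [integral_const_mul, h, mul_zero]
    have h2 := (integral_eq_zero_iff_of_nonneg (fun x => (hσ (f x) (g x)).1)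
      ((integrable_clk f g).const_mul σ)).1 h1
    filter_upwards [h2] with x hx
    exact (hσ (f x) (g x)).2 hx

include hp2 in
/-- isometries preserve disjointness -/
lemma disj_of_isometry (U : Lp ℂ p μ →L[ℂ] Lp ℂ p μ) (hU : ∀ f, ‖U f‖ = ‖f‖) {f g : Lp ℂ p μ}
    (h : Disj f g) : Disj (U f) (U g) := by
  rw [disj_iff hp2] at h ⊢
  rw [← map_add, ← map_sub, hU, hU, hU, hU]
  exact h

/-- the data of a hermitian idempotent -/
structure Herm (P : Lp ℂ p μ →L[ℂ] Lp ℂ p μ) : Prop where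
  idem : ∀ f, P (P f) = P f
  neg : ∀ f, ‖P f - (f - P f)‖ = ‖f‖
  imag : ∀ f, ‖P f + Complex.I • (f - P f)‖ = ‖f‖

variable {P : Lp ℂ p μ →L[ℂ] Lp ℂ p μ}

include hp2 in
lemma Herm.local (hP : Herm P) {f g : Lp ℂ p μ} (h : Disj f g) : Disj f (P g) := by
  let U1 : Lp ℂ p μ →L[ℂ] Lp ℂ p μ := P - (ContinuousLinearMap.id ℂ (Lp ℂ p μ) - P)
  let U2 : Lp ℂ p μ →L[ℂ] Lp ℂ p μ := P + Complex.I • (ContinuousLinearMap.id ℂ (Lp ℂ p μ) - P)
  have e1 : ∀ f, U1 f = P f - (f - P f) := fun f => rfl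
  have e2 : ∀ f, U2 f = P f + Complex.I • (f - P f) := fun f => rfl
  have h1 := disj_of_isometry hp2 U1 (fun f => by rw [e1]; exact hP.neg f) h
  have h2 := disj_of_isometry hp2 U2 (fun f => by rw [e2]; exact hP.imag f) h
  rw [e1, e1] at h1
  rw [e2, e2] at h2
  unfold Disj at h1 h2 h ⊢
  filter_upwards [h1, h2, h, Lp.coeFn_sub (P f) (f - P f), Lp.coeFn_sub (P g) (g - P g),
    Lp.coeFn_sub f (P f), Lp.coeFn_sub g (P g), Lp.coeFn_add (P f) (Complex.I • (f - P f)),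
    Lp.coeFn_add (P g) (Complex.I • (g - P g)), Lp.coeFn_smul Complex.I (f - P f),
    Lp.coeFn_smul Complex.I (g - P g)] with x a1 a2 a3 b1 b2 b3 b4 b5 b6 b7 b8
  rw [b1, b2] at a1
  rw [b5, b6] at a2
  simp only [Pi.sub_apply, Pi.add_apply, b7, b8, Pi.smul_apply, smul_eq_mul, b3, b4] at a1 a2
  set a := P f x
  set c := P g x
  set F := f x
  set G := g x
  -- (a - b)(c - d) = 0, (a + i b)(c + i d) = 0, (a + b)(c + d) = 0
  rcases mul_eq_zero.1 a3 with hF | hG
  · rw [hF, zero_mul]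
  · rw [hG] at a1 a2
    have h3 : (a - (F - a)) * (2 * c) = 0 := by rw [← a1]; ring
    have h4 : (a + Complex.I * (F - a)) * ((1 - Complex.I) * c) = 0 := by rw [← a2]; ring
    rcases mul_eq_zero.1 h3 with h5 | h5
    · rcases mul_eq_zero.1 h4 with h6 | h6
      · have h7 : F = 2 * a := by linear_combination -h5
        rw [h7] at h6
        have h8 : a * (1 + Complex.I) = 0 := by rw [← h6]; ring
        have h9 : (1 + Complex.I) ≠ 0 := by
          intro h
          have := congrArg Complex.re h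
          simp at this
        rcases mul_eq_zero.1 h8 with h10 | h10
        · rw [h7, h10]; ring
        · exact absurd h10 h9
      · have h9 : (1 - Complex.I) ≠ 0 := by
          intro h
          have := congrArg Complex.re h
          simp at this
        rcases mul_eq_zero.1 h6 with h10 | h10
        · exact absurd h10 h9
        · rw [h10, mul_zero]
    · have : c = 0 := by simpa using h5
      rw [this, mul_zero]

/-- restriction of an element of `L^p` to a measurable set -/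
noncomputable def ind (S : Set Y) (hS : MeasurableSet S) (f : Lp ℂ p μ) : Lp ℂ p μ :=
  ((Lp.memLp f).indicator hS).toLp

lemma ind_coe (S : Set Y) (hS : MeasurableSet S) (f : Lp ℂ p μ) :
    ind S hS f =ᵐ[μ] S.indicator f := MemLp.coeFn_toLp _

lemma ind_add_compl (S : Set Y) (hS : MeasurableSet S) (f : Lp ℂ p μ) :
    ind S hS f + ind Sᶜ hS.compl f = f := by
  apply Lp.ext
  filter_upwards [Lp.coeFn_add (ind S hS f) (ind Sᶜ hS.compl f), ind_coe S hS f,
    ind_coe Sᶜ hS.compl f] with x h1 h2 h3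
  rw [h1, Pi.add_apply, h2, h3, Set.indicator_self_add_compl_apply]

include hp2 in
lemma Herm.vanish (hP : Herm P) (f : Lp ℂ p μ) : ∀ᵐ x ∂μ, f x = 0 → P f x = 0 := by
  have hm : AEStronglyMeasurable f μ := Lp.aestronglyMeasurable f
  set f' := hm.mk f with hf'
  have hS : MeasurableSet {x | f' x = 0} :=
    (hm.stronglyMeasurable_mk.measurable) (MeasurableSet.singleton 0)
  set S := {x | f' x = 0} with hSdef
  set w := ind S hS (P f) with hw
  have h1 : Disj w f := by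
    unfold Disj
    filter_upwards [ind_coe S hS (P f), hm.ae_eq_mk] with x hx1 hx2
    rw [← hw] at hx1
    rw [hx1]
    by_cases hx : x ∈ S
    · have : f x = 0 := by rw [hx2]; exact hx
      rw [this, mul_zero]
    · rw [Set.indicator_of_notMem hx, zero_mul]
  have h2 := hP.local hp2 h1
  unfold Disj at h2
  filter_upwards [h2, ind_coe S hS (P f), hm.ae_eq_mk] with x hx1 hx2 hx3 hx4
  rw [← hw] at hx2
  have hxS : x ∈ S := by
    show f' x = 0
    rw [hf', ← hx3]; exact hx4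
  rw [hx2, Set.indicator_of_mem hxS] at hx1
  exact mul_self_eq_zero.1 hx1

include hp2 in
lemma Herm.ind_comm (hP : Herm P) (S : Set Y) (hS : MeasurableSet S) (f : Lp ℂ p μ) :
    P (ind S hS f) = ind S hS (P f) := by
  apply Lp.ext
  have h0 : P f = P (ind S hS f) + P (ind Sᶜ hS.compl f) := by
    rw [← map_add, ind_add_compl]
  have h1 := hP.vanish hp2 (ind S hS f)
  have h2 := hP.vanish hp2 (ind Sᶜ hS.compl f)
  filter_upwards [h1, h2, ind_coe S hS f, ind_coe Sᶜ hS.compl f, ind_coe S hS (P f),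
    Lp.coeFn_add (P (ind S hS f)) (P (ind Sᶜ hS.compl f))] with x a1 a2 a3 a4 a5 a6
  rw [a5]
  by_cases hx : x ∈ S
  · rw [Set.indicator_of_mem hx]
    have h3 : P (ind Sᶜ hS.compl f) x = 0 := by
      apply a2
      rw [a4, Set.indicator_of_notMem]
      simpa using hx
    rw [h0, a6, Pi.add_apply, h3, add_zero]
  · rw [Set.indicator_of_notMem hx]
    apply a1
    rw [a3, Set.indicator_of_notMem hx]

/-- a map commuting with restrictions and preserving the norm preserves the modulus -/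
lemma modulus_of_comm (U : Lp ℂ p μ → Lp ℂ p μ) (hU : ∀ f, ‖U f‖ = ‖f‖)
    (hc : ∀ (S : Set Y) (hS : MeasurableSet S) (f : Lp ℂ p μ), U (ind S hS f) = ind S hS (U f))
    (f : Lp ℂ p μ) : ∀ᵐ x ∂μ, ‖U f x‖ = ‖f x‖ := by
  have key : ∀ (g : Lp ℂ p μ) (S : Set Y) (hS : MeasurableSet S),
      ∫ x in S, ‖g x‖ ^ p.toReal ∂μ = ‖ind S hS g‖ ^ p.toReal := by
    intro g S hS
    rw [norm_rpow_eq, ← integral_indicator hS]
    unfold II
    apply integral_congr_ae
    filter_upwards [ind_coe S hS g] with x hx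
    rw [hx]
    by_cases h : x ∈ S
    · simp [h]
    · simp [h, Real.zero_rpow pr_pos'.ne']
  have h1 : (fun x => ‖U f x‖ ^ p.toReal) =ᵐ[μ] fun x => ‖f x‖ ^ p.toReal := by
    apply Integrable.ae_eq_of_forall_setIntegral_eq _ _ (integ _) (integ _)
    intro S hS _
    rw [key _ S hS, key _ S hS, ← hc, hU]
  filter_upwards [h1] with x hx
  exact (Real.rpow_left_inj (norm_nonneg _) (norm_nonneg _) pr_pos'.ne').1 hx

lemma ind_sub (S : Set Y) (hS : MeasurableSet S) (f g : Lp ℂ p μ) :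
    ind S hS (f - g) = ind S hS f - ind S hS g := by
  apply Lp.ext
  filter_upwards [Lp.coeFn_sub (ind S hS f) (ind S hS g), ind_coe S hS f,
    ind_coe S hS g, ind_coe S hS (f - g), Lp.coeFn_sub f g] with x h1 h2 h3 h4 h5
  rw [h1, Pi.sub_apply, h2, h3, h4]
  by_cases hx : x ∈ S
  · rw [Set.indicator_of_mem hx, Set.indicator_of_mem hx, Set.indicator_of_mem hx, h5]; rfl
  · simp [hx]

lemma ind_add (S : Set Y) (hS : MeasurableSet S) (f g : Lp ℂ p μ) :
    ind S hS (f + g) = ind S hS f + ind S hS g := by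
  apply Lp.ext
  filter_upwards [Lp.coeFn_add (ind S hS f) (ind S hS g), ind_coe S hS f,
    ind_coe S hS g, ind_coe S hS (f + g), Lp.coeFn_add f g] with x h1 h2 h3 h4 h5
  rw [h1, Pi.add_apply, h2, h3, h4]
  by_cases hx : x ∈ S
  · rw [Set.indicator_of_mem hx, Set.indicator_of_mem hx, Set.indicator_of_mem hx, h5]; rfl
  · simp [hx]

lemma ind_smul (S : Set Y) (hS : MeasurableSet S) (c : ℂ) (f : Lp ℂ p μ) :
    ind S hS (c • f) = c • ind S hS f := by
  apply Lp.ext
  filter_upwards [Lp.coeFn_smul c (ind S hS f), ind_coe S hS f,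
    ind_coe S hS (c • f), Lp.coeFn_smul c f] with x h1 h2 h4 h5
  rw [h1, Pi.smul_apply, h2, h4]
  by_cases hx : x ∈ S
  · rw [Set.indicator_of_mem hx, Set.indicator_of_mem hx, h5]; rfl
  · simp [hx]

include hp2 in
/-- **the two parts of `f` are disjoint** -/
theorem Herm.disj_parts (hP : Herm P) (f : Lp ℂ p μ) : Disj (P f) (f - P f) := by
  have h1 := modulus_of_comm (fun f => P f - (f - P f)) (fun f => hP.neg f) (by
    intro S hS f
    simp only [hP.ind_comm hp2, ind_sub]) f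
  have h2 := modulus_of_comm (fun f => P f + Complex.I • (f - P f)) (fun f => hP.imag f) (by
    intro S hS f
    simp only [hP.ind_comm hp2, ind_sub, ind_add, ind_smul]) f
  unfold Disj
  filter_upwards [h1, h2, Lp.coeFn_sub (P f) (f - P f), Lp.coeFn_sub f (P f),
    Lp.coeFn_add (P f) (Complex.I • (f - P f)), Lp.coeFn_smul Complex.I (f - P f)]
    with x a1 a2 b1 b2 b3 b4
  rw [b1, Pi.sub_apply] at a1
  rw [b3, Pi.add_apply, b4, Pi.smul_apply, smul_eq_mul] at a2
  have h3 : ‖(P f) x + (f - P f) x‖ = ‖f x‖ := by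
    rw [b2, Pi.sub_apply]; congr 1; ring
  exact prod_zero_of_norms (by rw [h3, a1]) (by rw [h3, a2])

end Lp

end H382FP
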