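import Mathlib
import Pool.Agent.H382R3.FP.Defs
import Pool.Agent.H382R3.FP.Lamp

/-!
# The norm of block diagonal elements (helper382, for MP_1d722c_an)
-/

set_option autoImplicit false
set_option linter.unusedSectionVars false

open scoped ENNReal
open MeasureTheory

namespace H382FP

section additivity

variable {p : ℝ≥0∞} [Fact (1 ≤ p)] [hpt : Fact (p ≠ ∞)]
variable {Y : Type*} [MeasurableSpace Y] {μ : Measure Y}

lemma norm_add_rpow_of_disj {f g : Lp ℂ p μ} (h : Disj f g) :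
    ‖f + g‖ ^ p.toReal = ‖f‖ ^ p.toReal + ‖g‖ ^ p.toReal := by
  rw [norm_rpow_eq, norm_rpow_eq, norm_rpow_eq]
  unfold II
  rw [← integral_add (integ f) (integ g)]
  apply integral_congr_ae
  filter_upwards [h, Lp.coeFn_add f g] with x hx h1
  rw [h1, Pi.add_apply]
  rcases mul_eq_zero.1 hx with h2 | h2
  · rw [h2, zero_add, norm_zero, Real.zero_rpow pr_pos'.ne', zero_add]
  · rw [h2, add_zero, norm_zero, Real.zero_rpow pr_pos'.ne', add_zero]

lemma Disj.symm {f g : Lp ℂ p μ} (h : Disj f g) : Disj g f := by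
  unfold Disj at h ⊢
  filter_upwards [h] with x hx
  rw [mul_comm]; exact hx

lemma Disj.add {f g k : Lp ℂ p μ} (h : Disj k f) (h' : Disj k g) : Disj k (f + g) := by
  unfold Disj at h h' ⊢
  filter_upwards [h, h', Lp.coeFn_add f g] with x h1 h2 h3
  rw [h3, Pi.add_apply, mul_add, h1, h2, add_zero]

lemma disj_zero (k : Lp ℂ p μ) : Disj k 0 := by
  unfold Disj
  filter_upwards [Lp.coeFn_zero ℂ p μ] with x hx
  rw [hx]; simp

lemma disj_sum {ι : Type*} (s : Finset ι) (g : ι → Lp ℂ p μ) (k : Lp ℂ p μ)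
    (h : ∀ i ∈ s, Disj k (g i)) : Disj k (∑ i ∈ s, g i) := by
  classical
  induction s using Finset.induction_on with
  | empty => simpa using disj_zero k
  | insert a s ha ih =>
    rw [Finset.sum_insert ha]
    exact (h a (Finset.mem_insert_self _ _)).add (ih fun i hi => h i (Finset.mem_insert_of_mem hi))

lemma norm_sum_rpow {ι : Type*} (s : Finset ι) (g : ι → Lp ℂ p μ)
    (h : ∀ i ∈ s, ∀ j ∈ s, i ≠ j → Disj (g i) (g j)) :
    ‖∑ i ∈ s, g i‖ ^ p.toReal = ∑ i ∈ s, ‖g i‖ ^ p.toReal := by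
  classical
  induction s using Finset.induction_on with
  | empty => simp [Real.zero_rpow (pr_pos' (p := p)).ne']
  | insert a s ha ih =>
    rw [Finset.sum_insert ha, Finset.sum_insert ha, norm_add_rpow_of_disj, ih]
    · intro i hi j hj hij
      exact h i (Finset.mem_insert_of_mem hi) j (Finset.mem_insert_of_mem hj) hij
    · apply disj_sum
      intro i hi
      apply h a (Finset.mem_insert_self _ _) i (Finset.mem_insert_of_mem hi)
      rintro rfl
      exact ha hi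

/-- `ε`-bounded matrices on `ℓ^r_L` -/
def MB (r : ℝ) (L : ℕ) (T : ℕ → ℕ → ℂ) (ε : ℝ) : Prop :=
  ∀ c : ℕ → ℂ, ∑ i ∈ Finset.range L, ‖∑ j ∈ Finset.range L, T i j * c j‖ ^ r ≤
    ε ^ r * ∑ j ∈ Finset.range L, ‖c j‖ ^ r

lemma MB.lp {L : ℕ} {T : ℕ → ℕ → ℂ} {ε : ℝ} (hT : MB p.toReal L T ε) (f : ℕ → Lp ℂ p μ) :
    ∑ i ∈ Finset.range L, ‖∑ j ∈ Finset.range L, T i j • f j‖ ^ p.toReal ≤
      ε ^ p.toReal * ∑ j ∈ Finset.range L, ‖f j‖ ^ p.toReal := by
  simp only [norm_rpow_eq]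
  unfold II
  rw [← integral_finset_sum _ (fun i _ => integ _), ← integral_finset_sum _ (fun i _ => integ _),
    ← integral_const_mul]
  apply integral_mono_ae
  · exact integrable_finset_sum _ (fun i _ => integ _)
  · exact (integrable_finset_sum _ (fun i _ => integ _)).const_mul _
  have h1 : ∀ i, ∀ᵐ x ∂μ, (∑ j ∈ Finset.range L, T i j • f j : Lp ℂ p μ) x =
      ∑ j ∈ Finset.range L, T i j * f j x := by
    intro i
    have h2 : ∀ᵐ x ∂μ, ∀ j, (T i j • f j : Lp ℂ p μ) x = T i j * f j x := by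
      rw [ae_all_iff]
      intro j
      filter_upwards [Lp.coeFn_smul (T i j) (f j)] with x hx
      rw [hx]; rfl
    filter_upwards [Lp.coeFn_finsetSum (Finset.range L) (fun j => T i j • f j), h2] with x h3 h4
    rw [h3, Finset.sum_apply]
    exact Finset.sum_congr rfl fun j _ => h4 j
  have h2 : ∀ᵐ x ∂μ, ∀ i, (∑ j ∈ Finset.range L, T i j • f j : Lp ℂ p μ) x =
      ∑ j ∈ Finset.range L, T i j * f j x := ae_all_iff.2 h1
  filter_upwards [h2] with x hx
  simp only [hx]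
  exact hT (fun j => f j x)

end additivity

section chi

variable {X : Type} [TopologicalSpace X]

/-- the characteristic function of a clopen set -/
noncomputable def chi (S : Set X) (hS : IsClopen S) : C(X, ℂ) :=
  ⟨S.indicator (fun _ => (1 : ℂ)), continuous_const.indicator (by rw [hS.frontier_eq]; simp)⟩

lemma chi_apply (S : Set X) (hS : IsClopen S) (x : X) :
    chi S hS x = S.indicator (fun _ => (1 : ℂ)) x := rfl

lemma chi_mem {S : Set X} (hS : IsClopen S) {x : X} (hx : x ∈ S) : chi S hS x = 1 := by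
  rw [chi_apply, Set.indicator_of_mem hx]

lemma chi_notMem {S : Set X} (hS : IsClopen S) {x : X} (hx : x ∉ S) : chi S hS x = 0 := by
  rw [chi_apply, Set.indicator_of_notMem hx]

variable [CompactSpace X]
variable {p : ℝ≥0∞} [Fact (1 ≤ p)] [hpt : Fact (p ≠ ∞)]
variable {Y : Type*} [MeasurableSpace Y] {μ : Measure Y}
variable {π₀ : C(X, ℂ) →ₐ[ℂ] (Lp ℂ p μ →L[ℂ] Lp ℂ p μ)}

lemma isom_of_inv (hπ : ∀ f, ‖π₀ f‖ ≤ ‖f‖) {u v : C(X, ℂ)} (huv : v * u = 1) (hu : ‖u‖ ≤ 1)
    (hv : ‖v‖ ≤ 1) (f : Lp ℂ p μ) : ‖π₀ u f‖ = ‖f‖ := by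
  apply le_antisymm
  · refine ((π₀ u).le_opNorm f).trans ?_
    have := (hπ u).trans hu
    calc ‖π₀ u‖ * ‖f‖ ≤ 1 * ‖f‖ := by gcongr
      _ = ‖f‖ := one_mul _
  · have h1 : π₀ v (π₀ u f) = f := by
      have : (π₀ v * π₀ u) f = f := by rw [← map_mul, huv, map_one]; rfl
      exact this
    calc ‖f‖ = ‖π₀ v (π₀ u f)‖ := by rw [h1]
      _ ≤ ‖π₀ v‖ * ‖π₀ u f‖ := (π₀ v).le_opNorm _
      _ ≤ 1 * ‖π₀ u f‖ := by
        have := (hπ v).trans hv
        gcongr
      _ = ‖π₀ u f‖ := one_mul _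

lemma herm_chi (hπ : ∀ f, ‖π₀ f‖ ≤ ‖f‖) (S : Set X) (hS : IsClopen S) : Herm (π₀ (chi S hS)) := by
  have hmul : chi S hS * chi S hS = chi S hS := by
    ext x
    by_cases hx : x ∈ S
    · rw [ContinuousMap.mul_apply, chi_mem hS hx, mul_one]
    · rw [ContinuousMap.mul_apply, chi_notMem hS hx, mul_zero]
  refine ⟨?_, ?_, ?_⟩
  · intro f
    have : (π₀ (chi S hS) * π₀ (chi S hS)) f = π₀ (chi S hS) f := by rw [← map_mul, hmul]
    exact this
  · intro f
    have h1 : π₀ (chi S hS) f - (f - π₀ (chi S hS) f) = π₀ (chi S hS - (1 - chi S hS)) f := by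
      rw [map_sub, map_sub, map_one]; rfl
    rw [h1]
    apply isom_of_inv hπ (v := chi S hS - (1 - chi S hS))
    · ext x
      by_cases hx : x ∈ S
      · simp [chi_mem hS hx]
      · simp [chi_notMem hS hx]
    · rw [ContinuousMap.norm_le _ zero_le_one]
      intro x
      by_cases hx : x ∈ S
      · simp [chi_mem hS hx]
      · simp [chi_notMem hS hx]
    · rw [ContinuousMap.norm_le _ zero_le_one]
      intro x
      by_cases hx : x ∈ S
      · simp [chi_mem hS hx]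
      · simp [chi_notMem hS hx]
  · intro f
    have h1 : π₀ (chi S hS) f + Complex.I • (f - π₀ (chi S hS) f) =
        π₀ (chi S hS + Complex.I • (1 - chi S hS)) f := by
      rw [map_add, map_smul, map_sub, map_one]; rfl
    rw [h1]
    apply isom_of_inv hπ (v := chi S hS - Complex.I • (1 - chi S hS))
    · ext x
      by_cases hx : x ∈ S
      · simp [chi_mem hS hx]
      · simp [chi_notMem hS hx]
    · rw [ContinuousMap.norm_le _ zero_le_one]
      intro x
      by_cases hx : x ∈ S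
      · simp [chi_mem hS hx]
      · simp [chi_notMem hS hx]
    · rw [ContinuousMap.norm_le _ zero_le_one]
      intro x
      by_cases hx : x ∈ S
      · simp [chi_mem hS hx]
      · simp [chi_notMem hS hx]

variable (hp2 : p ≠ 2)

include hp2 in
lemma disj_chi (hπ : ∀ f, ‖π₀ f‖ ≤ ‖f‖) {S S' : Set X} (hS : IsClopen S) (hS' : IsClopen S')
    (hd : Disjoint S S') (f g : Lp ℂ p μ) : Disj (π₀ (chi S hS) f) (π₀ (chi S' hS') g) := by
  have h0 : chi S hS * chi S' hS' = 0 := by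
    ext x
    by_cases hx : x ∈ S
    · rw [ContinuousMap.mul_apply, chi_notMem hS' (Set.disjoint_left.1 hd hx), mul_zero]; rfl
    · rw [ContinuousMap.mul_apply, chi_notMem hS hx, zero_mul]; rfl
  have h1 := (herm_chi hπ S hS).disj_parts hp2 (π₀ (chi S hS) f + π₀ (chi S' hS') g)
  have h2 : π₀ (chi S hS) (π₀ (chi S hS) f + π₀ (chi S' hS') g) = π₀ (chi S hS) f := by
    rw [map_add, (herm_chi hπ S hS).idem]
    have : (π₀ (chi S hS) * π₀ (chi S' hS')) g = 0 := by rw [← map_mul, h0, map_zero]; rfl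
    have h3 : π₀ (chi S hS) (π₀ (chi S' hS') g) = 0 := this
    rw [h3, add_zero]
  rw [h2, add_sub_cancel_left] at h1
  exact h1

include hp2 in
/-- exact additivity -/
lemma norm_sum_chi (hπ : ∀ f, ‖π₀ f‖ ≤ ‖f‖) {ι : Type*} (s : Finset ι) (S : ι → Set X)
    (hS : ∀ i, IsClopen (S i)) (hd : ∀ i ∈ s, ∀ j ∈ s, i ≠ j → Disjoint (S i) (S j))
    (f : ι → Lp ℂ p μ) :
    ‖∑ i ∈ s, π₀ (chi (S i) (hS i)) (f i)‖ ^ p.toReal =
      ∑ i ∈ s, ‖π₀ (chi (S i) (hS i)) (f i)‖ ^ p.toReal :=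
  norm_sum_rpow s _ fun i hi j hj hij => disj_chi hp2 hπ _ _ (hd i hi j hj hij) _ _

include hp2 in
lemma sum_norm_chi_le (hπ : ∀ f, ‖π₀ f‖ ≤ ‖f‖) {ι : Type*} (s : Finset ι) (S : ι → Set X)
    (hS : ∀ i, IsClopen (S i)) (hd : ∀ i ∈ s, ∀ j ∈ s, i ≠ j → Disjoint (S i) (S j))
    (f : Lp ℂ p μ) :
    ∑ i ∈ s, ‖π₀ (chi (S i) (hS i)) f‖ ^ p.toReal ≤ ‖f‖ ^ p.toReal := by
  classical
  rw [← norm_sum_chi hp2 hπ s S hS hd (fun _ => f)]
  apply Real.rpow_le_rpow (norm_nonneg _) _ pr_pos'.le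
  have h1 : ∑ i ∈ s, π₀ (chi (S i) (hS i)) f = π₀ (∑ i ∈ s, chi (S i) (hS i)) f := by
    rw [map_sum]
    exact (ContinuousLinearMap.sum_apply _ _ _).symm
  rw [h1]
  have h2 : ‖∑ i ∈ s, chi (S i) (hS i)‖ ≤ 1 := by
    rw [ContinuousMap.norm_le _ zero_le_one]
    intro x
    rw [ContinuousMap.sum_apply]
    by_cases hx : ∃ i ∈ s, x ∈ S i
    · obtain ⟨i, hi, hxi⟩ := hx
      rw [Finset.sum_eq_single i]
      · rw [chi_mem _ hxi]; simp
      · intro j hj hji
        apply chi_notMem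
        intro hxj
        exact Set.disjoint_left.1 (hd j hj i hi hji) hxj hxi
      · intro h'; exact absurd hi h'
    · push Not at hx
      rw [Finset.sum_eq_zero]
      · simp
      · intro i hi
        exact chi_notMem _ (hx i hi)
  calc ‖π₀ (∑ i ∈ s, chi (S i) (hS i)) f‖ ≤ ‖π₀ (∑ i ∈ s, chi (S i) (hS i))‖ * ‖f‖ :=
        (π₀ _).le_opNorm f
    _ ≤ 1 * ‖f‖ := by
      have := (hπ (∑ i ∈ s, chi (S i) (hS i))).trans h2
      gcongr
    _ = ‖f‖ := one_mul _

end chi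

end H382FP
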