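import Mathlib
import Pool.Agent.H382R3.FP.Norm2

/-!
# The norm of window-diagonal elements (helper382, for MP_1d722c_an)
-/

set_option autoImplicit false
set_option linter.unusedSectionVars false

open scoped ENNReal
open MeasureTheory

namespace H382FP

variable {p : ℝ≥0∞} [Fact (1 ≤ p)] [hpt : Fact (p ≠ ∞)]
variable {X : Type} [TopologicalSpace X] [CompactSpace X] {h : X ≃ₜ X}

/-- `f u^m` -/
noncomputable def sgl (m : ℤ) (f : C(X, ℂ)) : CC p X h :=
  SkewMonoidAlgebra.single (Multiplicative.ofAdd m) f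

lemma regRep_sgl_apply {E : Type*} [NormedAddCommGroup E] [NormedSpace ℂ E]
    (π₀ : C(X, ℂ) →ₐ[ℂ] (E →L[ℂ] E)) (hπ : ∀ f, ‖π₀ f‖ ≤ ‖f‖) (m : ℤ) (f : C(X, ℂ))
    (ξ : LpZ p E) (n : ℤ) :
    regRep h π₀ hπ (sgl m f : CC p X h) ξ n =
      π₀ (f.comp ((h ^ n : X ≃ₜ X) : C(X, X))) (ξ (n - m)) := by
  let _ := act X h
  have h1 : regRep h π₀ hπ (sgl m f : CC p X h) =
      (diagRep h π₀ hπ f : LpZ p E →L[ℂ] LpZ p E) * shiftRep (Multiplicative.ofAdd m) :=
    SkewMonoidAlgebra.liftNC_single _ _ _ _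
  rw [h1]
  rfl

/-- the function `z ↦ [h^(-t) z ∈ Y'] T_{h^(-t) z}(t, j)` -/
noncomputable def wfun (h : X ≃ₜ X) (Y' : Set X) (hY : IsClopen Y') (T : X → ℕ → ℕ → ℂ)
    (hT : IsLocallyConstant T) (t j : ℕ) : C(X, ℂ) :=
  ⟨fun z => Y'.indicator (fun y => T y t j) ((h ^ (-(t : ℤ))) z), by
    have h1 : Continuous (Y'.indicator (fun y => T y t j)) := by
      apply Continuous.indicator
      · rw [hY.frontier_eq]; simp
      · exact (hT.comp (fun F : ℕ → ℕ → ℂ => F t j)).continuous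
    exact h1.comp (h ^ (-(t : ℤ))).continuous⟩

/-- the window-diagonal element -/
noncomputable def wel (Y' : Set X) (hY : IsClopen Y') (T : X → ℕ → ℕ → ℂ)
    (hT : IsLocallyConstant T) (L : ℕ) : CC p X h :=
  ∑ t ∈ Finset.range L, ∑ j ∈ Finset.range L, sgl ((t : ℤ) - j) (wfun h Y' hY T hT t j)

section

variable (h)

/-- the clopen set `{z | h^s z ∈ Y', T (h^s z) = v}` -/
def SS (Y' : Set X) (T : X → ℕ → ℕ → ℂ) (s : ℤ) (v : ℕ → ℕ → ℂ) : Set X :=
  {z | (h ^ s) z ∈ Y' ∧ T ((h ^ s) z) = v}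

lemma SS_clopen {Y' : Set X} (hY : IsClopen Y') {T : X → ℕ → ℕ → ℂ} (hT : IsLocallyConstant T)
    (s : ℤ) (v : ℕ → ℕ → ℂ) : IsClopen (SS h Y' T s v) := by
  have h1 : IsClopen (Y' ∩ T ⁻¹' {v}) := hY.inter (hT.isClopen_fiber v)
  exact h1.preimage (h ^ s).continuous

end

lemma wfun_comp {Y' : Set X} (hY : IsClopen Y') {T : X → ℕ → ℕ → ℂ} (hT : IsLocallyConstant T)
    (t j : ℕ) (n : ℤ) :
    (wfun h Y' hY T hT t j).comp ((h ^ n : X ≃ₜ X) : C(X, X)) =
      ∑ v ∈ hT.range_finite.toFinset, v t j • chi (SS h Y' T (n - t) v) (SS_clopen h hY hT _ _) := by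
  classical
  ext z
  have e : (h ^ (-(t : ℤ))) ((h ^ n) z) = (h ^ (n - t)) z := by
    rw [sub_eq_neg_add, zpow_add]; rfl
  have h1 : (wfun h Y' hY T hT t j).comp ((h ^ n : X ≃ₜ X) : C(X, X)) z =
      Y'.indicator (fun y => T y t j) ((h ^ (n - t)) z) := by
    show Y'.indicator (fun y => T y t j) ((h ^ (-(t : ℤ))) ((h ^ n) z)) = _
    rw [e]
  rw [h1, ContinuousMap.sum_apply]
  by_cases hz : (h ^ (n - t)) z ∈ Y'
  · rw [Set.indicator_of_mem hz, Finset.sum_eq_single (T ((h ^ (n - t)) z))]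
    · rw [ContinuousMap.smul_apply, chi_mem]
      · simp
      · exact ⟨hz, rfl⟩
    · intro v _ hv
      rw [ContinuousMap.smul_apply, chi_notMem]
      · simp
      · rintro ⟨_, h2⟩
        exact hv h2.symm
    · intro h2
      exfalso; apply h2
      rw [Set.Finite.mem_toFinset]
      exact ⟨_, rfl⟩
  · rw [Set.indicator_of_notMem hz, Finset.sum_eq_zero]
    intro v _
    rw [ContinuousMap.smul_apply, chi_notMem]
    · simp
    · rintro ⟨h2, _⟩
      exact hz h2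

section main

variable {Y : Type} [MeasurableSpace Y] {μ : Measure Y}
variable {π₀ : C(X, ℂ) →ₐ[ℂ] (Lp ℂ p μ →L[ℂ] Lp ℂ p μ)}

lemma regRep_wel (hπ : ∀ f, ‖π₀ f‖ ≤ ‖f‖) {Y' : Set X} (hY : IsClopen Y') {T : X → ℕ → ℕ → ℂ}
    (hT : IsLocallyConstant T) (L : ℕ) (ξ : LpZ p (Lp ℂ p μ)) (n : ℤ) :
    regRep h π₀ hπ (wel Y' hY T hT L : CC p X h) ξ n =
      ∑ q ∈ (Finset.range L) ×ˢ hT.range_finite.toFinset,
        π₀ (chi (SS h Y' T (n - q.1) q.2) (SS_clopen h hY hT _ _))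
          (∑ j ∈ Finset.range L, q.2 q.1 j • ξ (n - q.1 + j)) := by
  have h1 : regRep h π₀ hπ (wel Y' hY T hT L : CC p X h) ξ n =
      ∑ t ∈ Finset.range L, ∑ j ∈ Finset.range L,
        π₀ ((wfun h Y' hY T hT t j).comp ((h ^ n : X ≃ₜ X) : C(X, X))) (ξ (n - (t - j))) := by
    unfold wel
    rw [map_sum, _root_.sum_apply, lp.coeFn_sum, Finset.sum_apply]
    apply Finset.sum_congr rfl
    intro t _
    rw [map_sum, _root_.sum_apply, lp.coeFn_sum, Finset.sum_apply]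
    apply Finset.sum_congr rfl
    intro j _
    rw [regRep_sgl_apply]
  rw [h1, Finset.sum_product]
  apply Finset.sum_congr rfl
  intro t _
  simp only [wfun_comp, map_sum, map_smul, _root_.sum_apply, _root_.smul_apply]
  rw [Finset.sum_comm]
  apply Finset.sum_congr rfl
  intro v _
  apply Finset.sum_congr rfl
  intro j _
  have e : n - ((t : ℤ) - j) = n - t + j := by ring
  rw [e]

variable (hp2 : p ≠ 2)

include hp2 in
/-- the norm estimate for window-diagonal elements in one regular representation -/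
lemma regRep_wel_le (hπ : ∀ f, ‖π₀ f‖ ≤ ‖f‖) {Y' : Set X} (hY : IsClopen Y') {T : X → ℕ → ℕ → ℂ}
    (hT : IsLocallyConstant T) (L : ℕ) {ε : ℝ} (hε : 0 ≤ ε)
    (hdis : ∀ x ∈ Y', ∀ k : ℕ, 0 < k → k < L → (h ^ (k : ℤ)) x ∉ Y')
    (hMB : ∀ x ∈ Y', MB p.toReal L (T x) ε) (ξ : LpZ p (Lp ℂ p μ)) :
    ‖regRep h π₀ hπ (wel Y' hY T hT L : CC p X h) ξ‖ ≤ ε * ‖ξ‖ := by
  classical
  set V := hT.range_finite.toFinset with hV
  set r := p.toReal with hr
  have hr0 : 0 < r := pr_pos'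
  set I := (Finset.range L) ×ˢ V with hI
  -- the three families
  let A : ℤ → (ℕ → ℕ → ℂ) → ℕ → ℝ := fun s v t =>
    ‖∑ j ∈ Finset.range L, v t j • π₀ (chi (SS h Y' T s v) (SS_clopen h hY hT _ _)) (ξ (s + j))‖ ^ r
  let B : ℤ → (ℕ → ℕ → ℂ) → ℕ → ℝ := fun s v j =>
    ‖π₀ (chi (SS h Y' T s v) (SS_clopen h hY hT _ _)) (ξ (s + j))‖ ^ r
  have hA0 : ∀ s v t, 0 ≤ A s v t := fun s v t => by positivity
  have hB0 : ∀ s v t, 0 ≤ B s v t := fun s v t => by positivity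
  -- disjointness
  have hdj : ∀ n : ℤ, ∀ q ∈ I, ∀ q' ∈ I, q ≠ q' →
      Disjoint (SS h Y' T (n - q.1) q.2) (SS h Y' T (n - q'.1) q'.2) := by
    intro n q hq q' hq' hne
    rw [Set.disjoint_left]
    rintro z ⟨h1, h2⟩ ⟨h3, h4⟩
    have hq1 := Finset.mem_range.1 (Finset.mem_product.1 hq).1
    have hq1' := Finset.mem_range.1 (Finset.mem_product.1 hq').1
    have key : ∀ a b : ℕ, a < L → b < a → (h ^ (n - (a : ℤ))) z ∈ Y' →
        (h ^ (n - (b : ℤ))) z ∈ Y' → False := by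
      intro a b ha hab h5 h6
      apply hdis _ h5 (a - b) (by omega) (by omega)
      have : (h ^ (((a - b : ℕ) : ℤ))) ((h ^ (n - (a : ℤ))) z) = (h ^ (n - (b : ℤ))) z := by
        have e : n - (b : ℤ) = ((a - b : ℕ) : ℤ) + (n - (a : ℤ)) := by
          rw [Nat.cast_sub hab.le]; ring
        rw [e, zpow_add]; rfl
      rw [this]; exact h6
    rcases lt_trichotomy q.1 q'.1 with hlt | heq | hgt
    · exact key q'.1 q.1 hq1' hlt h3 h1
    · apply hne
      rw [heq] at h2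
      exact Prod.ext heq (h2.symm.trans h4)
    · exact key q.1 q'.1 hq1 hgt h1 h3
  -- first equality
  have e1 : ∀ n : ℤ, ‖regRep h π₀ hπ (wel Y' hY T hT L : CC p X h) ξ n‖ ^ r =
      ∑ q ∈ I, A (n - q.1) q.2 q.1 := by
    intro n
    rw [regRep_wel, norm_sum_chi hp2 hπ I (fun q => SS h Y' T (n - q.1) q.2)
      (fun q => SS_clopen h hY hT _ _) (hdj n)
      (fun q => ∑ j ∈ Finset.range L, q.2 q.1 j • ξ (n - q.1 + j))]
    apply Finset.sum_congr rfl
    intro q _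
    simp only [A, map_sum, map_smul]
    rfl
  -- matrix inequality
  have e2 : ∀ s : ℤ, ∀ v ∈ V, ∑ t ∈ Finset.range L, A s v t ≤
      ε ^ r * ∑ j ∈ Finset.range L, B s v j := by
    intro s v hv
    by_cases hex : ∃ x ∈ Y', T x = v
    · obtain ⟨x, hx, rfl⟩ := hex
      exact (hMB x hx).lp (fun j : ℕ =>
        π₀ (chi (SS h Y' T s (T x)) (SS_clopen h hY hT _ _)) (ξ (s + j)))
    · have hem : SS h Y' T s v = ∅ := by
        ext z
        simp only [Set.mem_empty_iff_false, iff_false]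
        rintro ⟨h1, h2⟩
        exact hex ⟨_, h1, h2⟩
      have hz : ∀ f : Lp ℂ p μ, π₀ (chi (SS h Y' T s v) (SS_clopen h hY hT _ _)) f = 0 := by
        intro f
        have h0 : chi (SS h Y' T s v) (SS_clopen h hY hT s v) = 0 := by
          ext z
          rw [chi_notMem]
          · rfl
          · rw [hem]; exact fun h => h
        rw [h0, map_zero]; rfl
      have hA : ∀ t, A s v t = 0 := by
        intro t
        simp only [A, hz, smul_zero, Finset.sum_const_zero, norm_zero]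
        exact Real.zero_rpow hr0.ne'
      rw [Finset.sum_eq_zero (fun t _ => hA t)]
      have : 0 ≤ ∑ j ∈ Finset.range L, B s v j := Finset.sum_nonneg fun j _ => hB0 _ _ _
      positivity
  -- last inequality
  have e3 : ∀ n : ℤ, ∑ q ∈ I, B (n - q.1) q.2 q.1 ≤ ‖ξ n‖ ^ r := by
    intro n
    have := sum_norm_chi_le hp2 hπ I (fun q => SS h Y' T (n - q.1) q.2)
      (fun q => SS_clopen h hY hT _ _) (hdj n) (ξ n)
    refine le_trans (le_of_eq ?_) this
    apply Finset.sum_congr rfl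
    intro q _
    simp only [B]
    rw [sub_add_cancel]
  -- summation in `[0, ∞]`
  have s1 : ∑' n : ℤ, ENNReal.ofReal (‖regRep h π₀ hπ (wel Y' hY T hT L : CC p X h) ξ n‖ ^ r) =
      ∑' s : ℤ, ∑ v ∈ V, ∑ t ∈ Finset.range L, ENNReal.ofReal (A s v t) := by
    calc _ = ∑' n : ℤ, ∑ q ∈ I, ENNReal.ofReal (A (n - q.1) q.2 q.1) := by
          apply tsum_congr
          intro n
          rw [e1 n, ENNReal.ofReal_sum_of_nonneg (fun q _ => hA0 _ _ _)]
      _ = ∑ q ∈ I, ∑' n : ℤ, ENNReal.ofReal (A (n - q.1) q.2 q.1) :=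
          Summable.tsum_finsetSum fun _ _ => ENNReal.summable
      _ = ∑ q ∈ I, ∑' s : ℤ, ENNReal.ofReal (A s q.2 q.1) := by
          apply Finset.sum_congr rfl
          intro q _
          exact (Equiv.subRight (q.1 : ℤ)).tsum_eq (fun s => ENNReal.ofReal (A s q.2 q.1))
      _ = ∑' s : ℤ, ∑ q ∈ I, ENNReal.ofReal (A s q.2 q.1) :=
          (Summable.tsum_finsetSum fun _ _ => ENNReal.summable).symm
      _ = _ := by
          apply tsum_congr
          intro s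
          rw [Finset.sum_product, Finset.sum_comm]
  have s2 : ∑' s : ℤ, ∑ v ∈ V, ∑ t ∈ Finset.range L, ENNReal.ofReal (A s v t) ≤
      ENNReal.ofReal (ε ^ r) * ∑' s : ℤ, ∑ v ∈ V, ∑ j ∈ Finset.range L, ENNReal.ofReal (B s v j) := by
    rw [← ENNReal.tsum_mul_left]
    apply ENNReal.tsum_le_tsum
    intro s
    rw [Finset.mul_sum]
    apply Finset.sum_le_sum
    intro v hv
    rw [← ENNReal.ofReal_sum_of_nonneg (fun _ _ => hA0 _ _ _),
      ← ENNReal.ofReal_sum_of_nonneg (fun _ _ => hB0 _ _ _), ← ENNReal.ofReal_mul (by positivity)]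
    exact ENNReal.ofReal_le_ofReal (e2 s v hv)
  have s3 : ∑' s : ℤ, ∑ v ∈ V, ∑ j ∈ Finset.range L, ENNReal.ofReal (B s v j) ≤
      ∑' n : ℤ, ENNReal.ofReal (‖ξ n‖ ^ r) := by
    calc _ = ∑' s : ℤ, ∑ q ∈ I, ENNReal.ofReal (B s q.2 q.1) := by
          apply tsum_congr
          intro s
          rw [Finset.sum_product, Finset.sum_comm]
      _ = ∑ q ∈ I, ∑' s : ℤ, ENNReal.ofReal (B s q.2 q.1) :=
          Summable.tsum_finsetSum fun _ _ => ENNReal.summable
      _ = ∑ q ∈ I, ∑' n : ℤ, ENNReal.ofReal (B (n - q.1) q.2 q.1) := by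
          apply Finset.sum_congr rfl
          intro q _
          exact ((Equiv.subRight (q.1 : ℤ)).tsum_eq (fun s => ENNReal.ofReal (B s q.2 q.1))).symm
      _ = ∑' n : ℤ, ∑ q ∈ I, ENNReal.ofReal (B (n - q.1) q.2 q.1) :=
          (Summable.tsum_finsetSum fun _ _ => ENNReal.summable).symm
      _ ≤ _ := by
          apply ENNReal.tsum_le_tsum
          intro n
          rw [← ENNReal.ofReal_sum_of_nonneg (fun _ _ => hB0 _ _ _)]
          exact ENNReal.ofReal_le_ofReal (e3 n)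
  have s4 : ∑' n : ℤ, ENNReal.ofReal (‖regRep h π₀ hπ (wel Y' hY T hT L : CC p X h) ξ n‖ ^ r) ≤
      ENNReal.ofReal (ε ^ r) * ∑' n : ℤ, ENNReal.ofReal (‖ξ n‖ ^ r) := by
    rw [s1]
    exact s2.trans (by gcongr)
  have sumξ : Summable fun n => ‖ξ n‖ ^ r := (memℓp_gen_iff pr_pos).1 (lp.memℓp ξ)
  have sumη : Summable fun n => ‖regRep h π₀ hπ (wel Y' hY T hT L : CC p X h) ξ n‖ ^ r :=
    (memℓp_gen_iff pr_pos).1 (lp.memℓp _)
  apply lp.norm_le_of_tsum_le pr_pos (by positivity)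
  rw [Real.mul_rpow hε (norm_nonneg _), lp.norm_rpow_eq_tsum pr_pos]
  rw [← ENNReal.ofReal_tsum_of_nonneg (fun _ => by positivity) sumη,
    ← ENNReal.ofReal_tsum_of_nonneg (fun _ => by positivity) sumξ,
    ← ENNReal.ofReal_mul (by positivity)] at s4
  refine (ENNReal.ofReal_le_ofReal_iff ?_).1 s4
  have : 0 ≤ ∑' n, ‖ξ n‖ ^ r := tsum_nonneg fun _ => by positivity
  positivity

end main

/-- **(N2)** the reduced norm of a window-diagonal element is at most the supremum of the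
`ℓ^p` operator norms of the blocks. -/
theorem norm_wel_le (hp2 : p ≠ 2) {Y' : Set X} (hY : IsClopen Y') {T : X → ℕ → ℕ → ℂ}
    (hT : IsLocallyConstant T) (L : ℕ) {ε : ℝ} (hε : 0 ≤ ε)
    (hdis : ∀ x ∈ Y', ∀ k : ℕ, 0 < k → k < L → (h ^ (k : ℤ)) x ∉ Y')
    (hMB : ∀ x ∈ Y', MB p.toReal L (T x) ε) : ‖(wel Y' hY T hT L : CC p X h)‖ ≤ ε := by
  rw [norm_def]
  apply redNorm_le _ hε
  rintro r ⟨Y, mY, μ, hμ, π₀, hπ, rfl⟩
  rw [regOp_eq]
  exact ContinuousLinearMap.opNorm_le_bound _ hε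
    (fun ξ => regRep_wel_le hp2 hπ hY hT L hε hdis hMB ξ)

end H382FP
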