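import Mathlib
import Pool.Agent.H382R3.FP.Win

/-!
# Evaluation of elements of `C_c(ℤ, C(X))` along orbits (helper382, for MP_1d722c_an)
-/

set_option autoImplicit false
set_option linter.unusedSectionVars false

open scoped ENNReal
open MeasureTheory

namespace H382FP

variable {p : ℝ≥0∞} [Fact (1 ≤ p)] [hpt : Fact (p ≠ ∞)]
variable {X : Type} [TopologicalSpace X] [CompactSpace X] {h : X ≃ₜ X}

section ev

/-- multiplication by `i ↦ f (h^i x)` -/
noncomputable def evD (h : X ≃ₜ X) (x : X) : C(X, ℂ) →+* Module.End ℂ (ℤ → ℂ) where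
  toFun f :=
    { toFun := fun ξ i => f ((h ^ i) x) * ξ i
      map_add' := fun ξ η => by funext i; simp [mul_add]
      map_smul' := fun c ξ => by funext i; simp [mul_left_comm] }
  map_one' := by
    apply LinearMap.ext; intro ξ; funext i
    show (1 : C(X, ℂ)) _ * ξ i = ξ i
    simp
  map_mul' f g := by
    apply LinearMap.ext; intro ξ; funext i
    show (f * g) _ * ξ i = f _ * (g _ * ξ i)
    simp [mul_assoc]
  map_zero' := by
    apply LinearMap.ext; intro ξ; funext i
    show (0 : C(X, ℂ)) _ * ξ i = 0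
    simp
  map_add' f g := by
    apply LinearMap.ext; intro ξ; funext i
    show (f + g) _ * ξ i = f _ * ξ i + g _ * ξ i
    simp [add_mul]

/-- the translations -/
def evS : Multiplicative ℤ →* Module.End ℂ (ℤ → ℂ) where
  toFun m :=
    { toFun := fun ξ i => ξ (i - Multiplicative.toAdd m)
      map_add' := fun ξ η => rfl
      map_smul' := fun c ξ => rfl }
  map_one' := by
    apply LinearMap.ext; intro ξ; funext i
    show ξ (i - 0) = ξ i
    rw [sub_zero]
  map_mul' m k := by
    apply LinearMap.ext; intro ξ; funext i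
    show ξ (i - (Multiplicative.toAdd m + Multiplicative.toAdd k)) =
      ξ (i - Multiplicative.toAdd m - Multiplicative.toAdd k)
    rw [sub_sub]

/-- the action of `C_c(ℤ, C(X))` on functions on the orbit of `x` -/
noncomputable def ev (x : X) : CC p X h →+* Module.End ℂ (ℤ → ℂ) :=
  letI := act X h
  SkewMonoidAlgebra.liftNCRingHom (evD h x) evS (by
    intro f m
    apply LinearMap.ext; intro ξ; funext i
    show f ((h ^ (-(Multiplicative.toAdd m))) ((h ^ i) x)) * ξ (i - Multiplicative.toAdd m) =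
      f ((h ^ (i - Multiplicative.toAdd m)) x) * ξ (i - Multiplicative.toAdd m)
    rw [sub_eq_neg_add, zpow_add]
    rfl)

lemma ev_sgl (x : X) (m : ℤ) (f : C(X, ℂ)) (ξ : ℤ → ℂ) (i : ℤ) :
    ev x (sgl m f : CC p X h) ξ i = f ((h ^ i) x) * ξ (i - m) := by
  let _ := act X h
  have h1 : ev x (sgl m f : CC p X h) = evD h x f * evS (Multiplicative.ofAdd m) :=
    SkewMonoidAlgebra.liftNC_single _ _ _ _
  rw [h1]
  rfl

/-- the coefficients -/
noncomputable def co (a : CC p X h) (m : ℤ) : C(X, ℂ) := SkewMonoidAlgebra.coeff a (Multiplicative.ofAdd m)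

lemma ev_eq (x : X) (a : CC p X h) (ξ : ℤ → ℂ) (i : ℤ) :
    ev x a ξ i = ∑ m ∈ a.coeff.support, co a (Multiplicative.toAdd m) ((h ^ i) x) *
      ξ (i - Multiplicative.toAdd m) := by
  let _ := act X h
  have h1 : ev x a = ∑ m ∈ a.coeff.support, evD h x (a.coeff m) * evS m := rfl
  rw [h1, LinearMap.sum_apply, Finset.sum_apply]
  rfl

/-- band condition -/
def Band (N : ℕ) (a : CC p X h) : Prop := ∀ m : ℤ, (N : ℤ) < |m| → co a m = 0

lemma ev_band {N : ℕ} {a : CC p X h} (hN : Band N a) (x : X) (ξ : ℤ → ℂ) (i : ℤ) :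
    ev x a ξ i = ∑ m ∈ Finset.Icc (-(N : ℤ)) N, co a m ((h ^ i) x) * ξ (i - m) := by
  classical
  rw [ev_eq]
  rw [← Finset.sum_image (f := fun m : ℤ => co a m ((h ^ i) x) * ξ (i - m))
    (g := fun m : Multiplicative ℤ => Multiplicative.toAdd m) (s := a.coeff.support)
    (fun _ _ _ _ hxy => Multiplicative.toAdd.injective hxy)]
  have h2 : ∀ m : ℤ, m ∉ a.coeff.support.image (fun m : Multiplicative ℤ => Multiplicative.toAdd m) →
      co a m = 0 := by
    intro m hm
    rw [Finset.mem_image] at hm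
    by_contra hne
    exact hm ⟨Multiplicative.ofAdd m, Finsupp.mem_support_iff.2 hne, rfl⟩
  have h3 : ∀ m : ℤ, m ∉ Finset.Icc (-(N : ℤ)) N → co a m = 0 := by
    intro m hm
    apply hN
    by_contra hle
    exact hm (Finset.mem_Icc.2 (abs_le.1 (not_lt.1 hle)))
  set F : ℤ → ℂ := fun m => co a m ((h ^ i) x) * ξ (i - m) with hF
  have e1 : ∑ m ∈ a.coeff.support.image (fun m : Multiplicative ℤ => Multiplicative.toAdd m), F m =
      ∑ m ∈ a.coeff.support.image (fun m : Multiplicative ℤ => Multiplicative.toAdd m) ∪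
        Finset.Icc (-(N : ℤ)) N, F m := by
    apply Finset.sum_subset Finset.subset_union_left
    intro m _ hm
    simp [hF, h2 m hm]
  have e2 : ∑ m ∈ Finset.Icc (-(N : ℤ)) N, F m =
      ∑ m ∈ a.coeff.support.image (fun m : Multiplicative ℤ => Multiplicative.toAdd m) ∪
        Finset.Icc (-(N : ℤ)) N, F m := by
    apply Finset.sum_subset Finset.subset_union_right
    intro m _ hm
    simp [hF, h3 m hm]
  exact e1.trans e2.symm

lemma exists_band (a : CC p X h) : ∃ N : ℕ, Band N a := by
  classical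
  refine ⟨∑ m ∈ a.coeff.support, (Multiplicative.toAdd m).natAbs, ?_⟩
  intro m hm
  by_contra hne
  have h1 : Multiplicative.ofAdd m ∈ a.coeff.support := Finsupp.mem_support_iff.2 hne
  have h2 := Finset.single_le_sum (f := fun m : Multiplicative ℤ => (Multiplicative.toAdd m).natAbs)
    (fun _ _ => Nat.zero_le _) h1
  have h3 : (Multiplicative.toAdd (Multiplicative.ofAdd m)).natAbs = m.natAbs := rfl
  rw [Int.abs_eq_natAbs] at hm
  simp only [h3] at h2
  omega

lemma ev_single (x : X) (a : CC p X h) (m i : ℤ) :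
    ev x a (Pi.single (i - m) 1) i = co a m ((h ^ i) x) := by
  obtain ⟨N, hN⟩ := exists_band a
  rw [ev_band hN]
  by_cases hm : m ∈ Finset.Icc (-(N : ℤ)) N
  · rw [Finset.sum_eq_single m]
    · simp
    · intro k _ hk
      rw [Pi.single_eq_of_ne (by omega)]; simp
    · intro h1; exact absurd hm h1
  · rw [Finset.sum_eq_zero]
    · symm
      rw [hN m]
      · rfl
      · by_contra hle
        exact hm (Finset.mem_Icc.2 (abs_le.1 (not_lt.1 hle)))
    · intro k hk
      rw [Pi.single_eq_of_ne (by intro h2; apply hm; have : k = m := by omega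
                                 exact this ▸ hk)]; simp

lemma CC.ext {a b : CC p X h} (hab : ∀ (x : X) (ξ : ℤ → ℂ), ev x a ξ 0 = ev x b ξ 0) : a = b := by
  let _ := act X h
  apply SkewMonoidAlgebra.ext
  intro m
  ext x
  have h1 := ev_single x a (Multiplicative.toAdd m) 0
  have h2 := ev_single x b (Multiplicative.toAdd m) 0
  rw [hab] at h1
  exact h1.symm.trans h2

lemma ev_shift (x : X) (a : CC p X h) (k : ℤ) (ξ : ℤ → ℂ) (i : ℤ) :
    ev ((h ^ k) x) a ξ i = ev x a (fun j => ξ (j - k)) (i + k) := by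
  rw [ev_eq, ev_eq]
  apply Finset.sum_congr rfl
  intro m _
  have e1 : (h ^ i) ((h ^ k) x) = (h ^ (i + k)) x := by rw [zpow_add]; rfl
  rw [e1]
  congr 2
  ring

lemma co_sgl_same (m : ℤ) (f : C(X, ℂ)) : co (sgl m f : CC p X h) m = f := by
  ext x
  have h1 := ev_single (p := p) x (sgl m f : CC p X h) m 0
  rw [ev_sgl] at h1
  have : (h ^ (0 : ℤ)) x = x := rfl
  rw [this] at h1
  simpa using h1.symm

lemma co_sgl_ne {m k : ℤ} (hmk : k ≠ m) (f : C(X, ℂ)) : co (sgl m f : CC p X h) k = 0 := by
  ext x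
  have h1 := ev_single (p := p) x (sgl m f : CC p X h) k 0
  rw [ev_sgl] at h1
  have : (h ^ (0 : ℤ)) x = x := rfl
  rw [this, Pi.single_eq_of_ne (by omega)] at h1
  simpa using h1.symm

lemma co_add (a b : CC p X h) (m : ℤ) : co (a + b) m = co a m + co b m := by
  ext x
  have h1 := ev_single x (a + b) m 0
  rw [map_add, LinearMap.add_apply, Pi.add_apply, ev_single, ev_single] at h1
  exact h1.symm

lemma co_sub (a b : CC p X h) (m : ℤ) : co (a - b) m = co a m - co b m := by
  ext x
  have h1 := ev_single x (a - b) m 0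
  rw [map_sub, LinearMap.sub_apply, Pi.sub_apply, ev_single, ev_single] at h1
  exact h1.symm

lemma co_zero (m : ℤ) : co (0 : CC p X h) m = 0 := by
  have := co_sub (0 : CC p X h) 0 m
  rw [sub_self, sub_self] at this
  exact this

lemma co_sum {ι : Type*} (s : Finset ι) (a : ι → CC p X h) (m : ℤ) :
    co (∑ i ∈ s, a i) m = ∑ i ∈ s, co (a i) m := by
  classical
  induction s using Finset.induction_on with
  | empty => simp [co_zero]
  | insert i s hi ih => rw [Finset.sum_insert hi, Finset.sum_insert hi, co_add, ih]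

lemma ev_mul_apply (x : X) (a b : CC p X h) (ξ : ℤ → ℂ) :
    ev x (a * b) ξ = ev x a (ev x b ξ) := by
  rw [map_mul]; rfl

lemma ev_one_apply (x : X) (ξ : ℤ → ℂ) :
    ev x (1 : CC p X h) ξ = ξ := by
  rw [map_one]; rfl

/-- an entry-wise bound for the norm of a banded element -/
lemma norm_le_band {M : ℕ} {b : CC p X h} (hM : Band M b) {τ : ℝ} (hτ : ∀ m, ‖co b m‖ ≤ τ) :
    ‖b‖ ≤ (2 * M + 1) * τ := by
  classical
  refine (norm_le_crude b).trans ?_
  have h0 : 0 ≤ τ := (norm_nonneg _).trans (hτ 0)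
  unfold crude
  have h1 : ∑ m ∈ b.coeff.support, ‖b.coeff m‖ ≤ ∑ m ∈ b.coeff.support, τ :=
    Finset.sum_le_sum fun m _ => hτ (Multiplicative.toAdd m)
  refine h1.trans ?_
  rw [Finset.sum_const, nsmul_eq_mul]
  apply mul_le_mul_of_nonneg_right _ h0
  have h2 : b.coeff.support.card ≤ (Finset.Icc (-(M : ℤ)) M).card := by
    apply Finset.card_le_card_of_injOn (fun m => Multiplicative.toAdd m)
    · intro m hm
      have hm' : m ∈ b.coeff.support := hm
      rw [Finsupp.mem_support_iff] at hm'
      rw [Finset.mem_coe, Finset.mem_Icc, ← abs_le]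
      by_contra hlt
      exact hm' (hM (Multiplicative.toAdd m) (not_le.1 hlt))
    · intro m _ k _ hmk
      exact Multiplicative.toAdd.injective hmk
  rw [Int.card_Icc] at h2
  have h3 : ((M : ℤ) + 1 - -(M : ℤ)).toNat = 2 * M + 1 := by omega
  rw [h3] at h2
  exact_mod_cast h2

lemma norm_sgl_le (m : ℤ) (f : C(X, ℂ)) : ‖(sgl m f : CC p X h)‖ ≤ ‖f‖ := by
  classical
  refine (norm_le_crude _).trans ?_
  unfold crude
  have h1 : (sgl m f : CC p X h).coeff.support ⊆ {Multiplicative.ofAdd m} := by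
    intro k hk
    rw [Finset.mem_singleton]
    by_contra hne
    rw [Finsupp.mem_support_iff] at hk
    apply hk
    exact co_sgl_ne (p := p) (h := h) (m := m) (k := Multiplicative.toAdd k)
      (fun h => hne (Multiplicative.toAdd.injective h)) f
  refine (Finset.sum_le_sum_of_subset_of_nonneg h1 (fun _ _ _ => norm_nonneg _)).trans ?_
  rw [Finset.sum_singleton]
  exact (congrArg norm (co_sgl_same (p := p) (h := h) m f)).le

lemma Band.mul {M N : ℕ} {a b : CC p X h} (hM : Band M a) (hN : Band N b) :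
    Band (M + N) (a * b) := by
  intro m hm
  ext x
  have h1 := ev_single x (a * b) m 0
  rw [ev_mul_apply, ev_band hM, Finset.sum_eq_zero] at h1
  · exact h1.symm
  · intro k hk
    rw [Finset.mem_Icc] at hk
    rw [ev_band hN, Finset.sum_eq_zero, mul_zero]
    intro l hl
    rw [Finset.mem_Icc] at hl
    rw [Pi.single_eq_of_ne, mul_zero]
    intro he
    have : m = k + l := by omega
    rw [this] at hm
    have := abs_le.2 (show -((M + N : ℕ) : ℤ) ≤ k + l ∧ k + l ≤ ((M + N : ℕ) : ℤ) by
      push_cast; constructor <;> omega)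
    omega

lemma Band.sub {M : ℕ} {a b : CC p X h} (ha : Band M a) (hb : Band M b) : Band M (a - b) := by
  intro m hm
  rw [co_sub, ha m hm, hb m hm, sub_zero]

lemma Band.mono {M N : ℕ} (hMN : M ≤ N) {a : CC p X h} (ha : Band M a) : Band N a := by
  intro m hm
  exact ha m (by omega)

lemma band_one : Band 0 (1 : CC p X h) := by
  intro m hm
  ext x
  have h1 := ev_single x (1 : CC p X h) m 0
  rw [ev_one_apply, Pi.single_eq_of_ne] at h1
  · exact h1.symm
  · intro he
    have : m = 0 := by omega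
    subst this
    simp at hm

end ev

end H382FP
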