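import Mathlib
import Pool.Agent.H382R3.FP.Ev

/-!
# Return times and block-diagonal elements (helper382, for MP_1d722c_an)
-/

set_option autoImplicit false
set_option linter.unusedSectionVars false

open scoped ENNReal
open MeasureTheory Topology

namespace H382FP

section general

variable {X : Type} [TopologicalSpace X]

lemma ilc_pi {ι α : Type} [Finite ι] {f : X → ι → α}
    (hf : ∀ i, IsLocallyConstant (fun x => f x i)) : IsLocallyConstant f := by
  rw [IsLocallyConstant.iff_eventually_eq]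
  intro x
  have h1 : ∀ i, ∀ᶠ y in 𝓝 x, f y i = f x i := fun i =>
    (IsLocallyConstant.iff_eventually_eq _).1 (hf i) x
  filter_upwards [Filter.eventually_all.2 h1] with y hy
  exact funext hy

lemma ilc_prod {α β : Type} {f : X → α} {g : X → β}
    (hf : IsLocallyConstant f) (hg : IsLocallyConstant g) :
    IsLocallyConstant (fun x => (f x, g x)) := by
  rw [IsLocallyConstant.iff_eventually_eq]
  intro x
  filter_upwards [(IsLocallyConstant.iff_eventually_eq _).1 hf x,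
    (IsLocallyConstant.iff_eventually_eq _).1 hg x] with y h1 h2
  rw [h1, h2]

lemma ilc_ite {α : Type} {S : Set X} (hS : IsClopen S) {f g : X → α}
    (hf : IsLocallyConstant f) (hg : IsLocallyConstant g) [∀ x, Decidable (x ∈ S)] :
    IsLocallyConstant (fun x => if x ∈ S then f x else g x) := by
  rw [IsLocallyConstant.iff_eventually_eq]
  intro x
  by_cases hx : x ∈ S
  · filter_upwards [hS.isOpen.mem_nhds hx, (IsLocallyConstant.iff_eventually_eq _).1 hf x]
      with y hy h1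
    rw [if_pos hy, if_pos hx, h1]
  · filter_upwards [hS.compl.isOpen.mem_nhds hx, (IsLocallyConstant.iff_eventually_eq _).1 hg x]
      with y hy h1
    rw [if_neg hy, if_neg hx, h1]

/-- selection of a locally constant witness -/
lemma select {β γ : Type} {P : X → β} (hP : IsLocallyConstant P) {Good : X → γ → Prop}
    (hG : ∀ x x' g, P x = P x' → Good x g → Good x' g) (hex : ∀ x, ∃ g, Good x g) :
    ∃ G : X → γ, IsLocallyConstant G ∧ ∀ x, Good x (G x) := by
  classical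
  choose g hg using hex
  by_cases hX : Nonempty X
  · let rep : β → X := fun b => if hb : ∃ x, P x = b then hb.choose else hX.some
    have hrep : ∀ x, P (rep (P x)) = P x := by
      intro x
      have hb : ∃ y, P y = P x := ⟨x, rfl⟩
      have : rep (P x) = hb.choose := dif_pos hb
      rw [this]
      exact hb.choose_spec
    refine ⟨fun x => g (rep (P x)), hP.comp (fun b => g (rep b)), fun x => ?_⟩
    exact hG _ _ _ (hrep x) (hg _)
  · refine ⟨g, ?_, hg⟩
    rw [IsLocallyConstant.iff_eventually_eq]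
    intro x
    exact absurd ⟨x⟩ hX

/-- the first return time -/
noncomputable def rt (h : X ≃ₜ X) (Y : Set X) (x : X) : ℕ :=
  sInf {n : ℕ | 0 < n ∧ (h ^ (n : ℤ)) x ∈ Y}

/-- all points enter `Y` within `J` steps -/
def Ret (h : X ≃ₜ X) (Y : Set X) (J : ℕ) : Prop :=
  ∀ x, ∃ n : ℕ, 0 < n ∧ n ≤ J ∧ (h ^ (n : ℤ)) x ∈ Y

variable {h : X ≃ₜ X} {Y : Set X} {J : ℕ}

lemma rt_spec (hr : Ret h Y J) (x : X) : 0 < rt h Y x ∧ (h ^ (rt h Y x : ℤ)) x ∈ Y := by
  obtain ⟨n, h1, h2, h3⟩ := hr x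
  exact Nat.sInf_mem (s := {n : ℕ | 0 < n ∧ (h ^ (n : ℤ)) x ∈ Y}) ⟨n, h1, h3⟩

lemma rt_le (hr : Ret h Y J) (x : X) : rt h Y x ≤ J := by
  obtain ⟨n, h1, h2, h3⟩ := hr x
  exact (Nat.sInf_le (s := {n : ℕ | 0 < n ∧ (h ^ (n : ℤ)) x ∈ Y}) ⟨h1, h3⟩).trans h2

lemma rt_min {x : X} {n : ℕ} (h1 : 0 < n) (h2 : n < rt h Y x) : (h ^ (n : ℤ)) x ∉ Y := by
  intro h3
  have := Nat.sInf_le (s := {n : ℕ | 0 < n ∧ (h ^ (n : ℤ)) x ∈ Y}) ⟨h1, h3⟩
  unfold rt at h2
  omega

lemma rt_le_of {x : X} {n : ℕ} (h1 : 0 < n) (h3 : (h ^ (n : ℤ)) x ∈ Y) : rt h Y x ≤ n :=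
  Nat.sInf_le (s := {n : ℕ | 0 < n ∧ (h ^ (n : ℤ)) x ∈ Y}) ⟨h1, h3⟩

lemma rt_ilc (hY : IsClopen Y) (hr : Ret h Y J) : IsLocallyConstant (rt h Y) := by
  classical
  have h1 : IsLocallyConstant (fun x => fun n : Fin (J + 1) =>
      (if (h ^ ((n : ℕ) : ℤ)) x ∈ Y then true else false)) := by
    apply ilc_pi
    intro n
    have h2 : IsClopen ((h ^ ((n : ℕ) : ℤ) : X ≃ₜ X) ⁻¹' Y) := hY.preimage (h ^ ((n : ℕ) : ℤ)).continuous
    exact ilc_ite h2 (IsLocallyConstant.const true) (IsLocallyConstant.const false)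
  rw [IsLocallyConstant.iff_eventually_eq] at h1 ⊢
  intro x
  filter_upwards [h1 x] with y hy
  have key : ∀ n : ℕ, n ≤ J → ((h ^ (n : ℤ)) y ∈ Y ↔ (h ^ (n : ℤ)) x ∈ Y) := by
    intro n hn
    have := congrFun hy ⟨n, by omega⟩
    simp only at this
    by_cases h3 : (h ^ (n : ℤ)) y ∈ Y <;> by_cases h4 : (h ^ (n : ℤ)) x ∈ Y <;> simp_all
  apply le_antisymm
  · apply rt_le_of (rt_spec hr x).1
    rw [key _ (rt_le hr x)]
    exact (rt_spec hr x).2
  · apply rt_le_of (rt_spec hr y).1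
    rw [← key _ (rt_le hr y)]
    exact (rt_spec hr y).2

lemma zpow_apply_add (x : X) (m n : ℤ) : (h ^ m) ((h ^ n) x) = (h ^ (m + n)) x := by
  rw [zpow_add]; rfl

lemma zpow_apply_zero (x : X) : (h ^ (0 : ℤ)) x = x := rfl

/-- the last visit -/
lemma exists_last (hr : Ret h Y J) (x : X) :
    ∃ k : ℕ, (h ^ (-(k : ℤ))) x ∈ Y ∧ k < rt h Y ((h ^ (-(k : ℤ))) x) := by
  classical
  have hex : ∃ k : ℕ, (h ^ (-(k : ℤ))) x ∈ Y := by
    obtain ⟨n, h1, h2, h3⟩ := hr ((h ^ (-(J : ℤ))) x)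
    rw [zpow_apply_add] at h3
    refine ⟨J - n, ?_⟩
    have e : -(((J - n : ℕ)) : ℤ) = (n : ℤ) + -(J : ℤ) := by rw [Nat.cast_sub h2]; ring
    rw [e]; exact h3
  refine ⟨Nat.find hex, Nat.find_spec hex, ?_⟩
  set k := Nat.find hex with hk
  by_contra hlt
  rw [not_lt] at hlt
  have h1 := rt_spec hr ((h ^ (-(k : ℤ))) x)
  set r := rt h Y ((h ^ (-(k : ℤ))) x) with hrr
  rw [zpow_apply_add] at h1
  have h2 : (h ^ (-((k - r : ℕ) : ℤ))) x ∈ Y := by
    have e : -(((k - r : ℕ)) : ℤ) = (r : ℤ) + -(k : ℤ) := by rw [Nat.cast_sub hlt]; ring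
    rw [e]; exact h1.2
  exact Nat.find_min hex (show k - r < k by omega) h2

end general

variable {p : ℝ≥0∞} [Fact (1 ≤ p)] [hpt : Fact (p ≠ ∞)]
variable {X : Type} [TopologicalSpace X] [CompactSpace X] {h : X ≃ₜ X}
variable {Y : Set X} {J : ℕ}

lemma CC.ext_blk (hr : Ret h Y J) {a b : CC p X h}
    (hab : ∀ y ∈ Y, ∀ i : ℕ, i < rt h Y y → ∀ ξ, ev y a ξ i = ev y b ξ i) : a = b := by
  apply CC.ext
  intro x ξ
  obtain ⟨k, h1, h2⟩ := exists_last hr x
  obtain ⟨y, hy⟩ : ∃ y, y = (h ^ (-(k : ℤ))) x := ⟨_, rfl⟩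
  rw [← hy] at h1 h2
  have e : x = (h ^ (k : ℤ)) y := by
    rw [hy, zpow_apply_add, add_neg_cancel, zpow_apply_zero]
  rw [e, ev_shift, ev_shift, zero_add]
  exact hab y h1 k h2 _

lemma ev_wel (hY : IsClopen Y) {T : X → ℕ → ℕ → ℂ} (hT : IsLocallyConstant T) (L : ℕ)
    (x : X) (ξ : ℤ → ℂ) (i : ℤ) :
    ev x (wel Y hY T hT L : CC p X h) ξ i = ∑ t ∈ Finset.range L, ∑ j ∈ Finset.range L,
      Y.indicator (fun y => T y t j) ((h ^ (i - t)) x) * ξ (i - t + j) := by
  unfold wel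
  rw [map_sum, LinearMap.sum_apply, Finset.sum_apply]
  apply Finset.sum_congr rfl
  intro t _
  rw [map_sum, LinearMap.sum_apply, Finset.sum_apply]
  apply Finset.sum_congr rfl
  intro j _
  rw [ev_sgl]
  have e1 : i - ((t : ℤ) - j) = i - t + j := by ring
  rw [e1]
  congr 1
  show Y.indicator (fun y => T y t j) ((h ^ (-(t : ℤ))) ((h ^ i) x)) = _
  rw [zpow_apply_add, neg_add_eq_sub]

/-- block support -/
def BSupp (h : X ≃ₜ X) (Y : Set X) (T : X → ℕ → ℕ → ℂ) : Prop :=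
  ∀ y, ∀ t j : ℕ, ¬(t < rt h Y y ∧ j < rt h Y y) → T y t j = 0

lemma ev_blk (hY : IsClopen Y) (hr : Ret h Y J) {T : X → ℕ → ℕ → ℂ} (hT : IsLocallyConstant T)
    (hT0 : BSupp h Y T) {y : X} (hy : y ∈ Y) {i : ℕ} (hi : i < rt h Y y) (ξ : ℤ → ℂ) :
    ev y (wel Y hY T hT J : CC p X h) ξ i = ∑ j ∈ Finset.range J, T y i j * ξ j := by
  rw [ev_wel]
  have hiJ : i ∈ Finset.range J := Finset.mem_range.2 (hi.trans_le (rt_le hr y))
  rw [Finset.sum_eq_single i]
  · apply Finset.sum_congr rfl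
    intro j _
    rw [sub_self, zero_add, zpow_apply_zero, Set.indicator_of_mem hy]
  · intro t _ hti
    apply Finset.sum_eq_zero
    intro j _
    by_cases hz : (h ^ ((i : ℤ) - t)) y ∈ Y
    · rw [Set.indicator_of_mem hz]
      rcases Nat.lt_or_gt_of_ne hti with hlt | hgt
      · exfalso
        apply rt_min (h := h) (Y := Y) (x := y) (n := i - t) (by omega) (by omega)
        rw [Nat.cast_sub hlt.le]; exact hz
      · rw [hT0, zero_mul]
        rintro ⟨h1, _⟩
        have h2 : rt h Y ((h ^ ((i : ℤ) - t)) y) ≤ t - i := by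
          apply rt_le_of (by omega)
          rw [Nat.cast_sub hgt.le, zpow_apply_add]
          have : (t : ℤ) - i + (i - t) = 0 := by ring
          rw [this, zpow_apply_zero]; exact hy
        omega
    · rw [Set.indicator_of_notMem hz, zero_mul]
  · intro h1; exact absurd hiJ h1

lemma ev_local {N : ℕ} {a : CC p X h} (hN : Band N a) (x : X) {ξ η : ℤ → ℂ} {i : ℤ}
    (heq : ∀ j, |i - j| ≤ N → ξ j = η j) : ev x a ξ i = ev x a η i := by
  rw [ev_band hN, ev_band hN]
  apply Finset.sum_congr rfl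
  intro m hm
  rw [Finset.mem_Icc] at hm
  rw [heq (i - m)]
  have : i - (i - m) = m := by ring
  rw [this, abs_le]
  exact hm

/-- the diagonal blocks of `a` -/
noncomputable def Ablk (a : CC p X h) (Y : Set X) (y : X) (i j : ℕ) : ℂ :=
  if i < rt h Y y ∧ j < rt h Y y then ev y a (Pi.single (j : ℤ) 1) i else 0

lemma Ablk_supp (a : CC p X h) : BSupp h Y (Ablk a Y) := by
  intro y t j htj
  unfold Ablk
  rw [if_neg htj]

lemma ev_sum_single (x : X) (a : CC p X h) (s : Finset ℕ) (c : ℕ → ℂ) (i : ℤ) :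
    ev x a (∑ j ∈ s, c j • Pi.single (j : ℤ) 1) i = ∑ j ∈ s, ev x a (Pi.single (j : ℤ) 1) i * c j := by
  rw [map_sum, Finset.sum_apply]
  apply Finset.sum_congr rfl
  intro j _
  rw [map_smul, Pi.smul_apply, smul_eq_mul, mul_comm]

/-- restriction to the block -/
noncomputable def resB (r : ℕ) (ξ : ℤ → ℂ) : ℤ → ℂ := fun j => if 0 ≤ j ∧ j < r then ξ j else 0

lemma resB_eq (r : ℕ) (ξ : ℤ → ℂ) : resB r ξ = ∑ j ∈ Finset.range r, ξ j • Pi.single (j : ℤ) 1 := by
  funext k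
  unfold resB
  rw [Finset.sum_apply]
  by_cases hk : 0 ≤ k ∧ k < r
  · rw [if_pos hk, Finset.sum_eq_single k.toNat]
    · have e : ((k.toNat : ℕ) : ℤ) = k := Int.toNat_of_nonneg hk.1
      rw [Pi.smul_apply, e, Pi.single_eq_same, smul_eq_mul, mul_one]
    · intro j _ hj
      rw [Pi.smul_apply, Pi.single_eq_of_ne (by omega), smul_zero]
    · intro h1
      rw [Finset.mem_range] at h1
      omega
  · rw [if_neg hk, Finset.sum_eq_zero]
    intro j hj
    rw [Finset.mem_range] at hj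
    rw [Pi.smul_apply, Pi.single_eq_of_ne (by omega), smul_zero]

lemma sum_Ablk (hr : Ret h Y J) (a : CC p X h) {y : X} {i : ℕ} (hi : i < rt h Y y) (ξ : ℤ → ℂ) :
    ∑ j ∈ Finset.range J, Ablk a Y y i j * ξ j = ev y a (resB (rt h Y y) ξ) i := by
  rw [resB_eq, ev_sum_single]
  have h1 : Finset.range (rt h Y y) ⊆ Finset.range J := Finset.range_subset_range.2 (rt_le hr y)
  rw [← Finset.sum_subset h1]
  · apply Finset.sum_congr rfl
    intro j hj
    rw [Finset.mem_range] at hj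
    unfold Ablk
    rw [if_pos ⟨hi, hj⟩]
  · intro j _ hj
    rw [Finset.mem_range] at hj
    unfold Ablk
    rw [if_neg (fun h2 => hj h2.2), zero_mul]

/-- positions within distance `N` of the block ends -/
def QPos (N r i : ℕ) : Prop := i < N ∨ r ≤ i + N

/-- the clopen set of the points at distance `≤ N` of a visit -/
def QSet (h : X ≃ₜ X) (Y : Set X) (N : ℕ) : Set X :=
  ⋃ k ∈ Finset.Ico (-(N : ℤ)) N, {z | (h ^ (-k)) z ∈ Y}

lemma QSet_clopen (hY : IsClopen Y) (N : ℕ) : IsClopen (QSet h Y N) := by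
  unfold QSet
  apply Set.Finite.isClopen_biUnion (Finset.finite_toSet _)
  intro k _
  exact hY.preimage (h ^ (-k)).continuous

lemma mem_QSet {N : ℕ} {y : X} {j : ℤ} {k : ℤ} (hk : (h ^ k) y ∈ Y) (h1 : -(N : ℤ) ≤ j - k)
    (h2 : j - k < N) : (h ^ j) y ∈ QSet h Y N := by
  unfold QSet
  rw [Set.mem_iUnion₂]
  refine ⟨j - k, Finset.mem_Ico.2 ⟨h1, h2⟩, ?_⟩
  show (h ^ (-(j - k))) ((h ^ j) y) ∈ Y
  rw [zpow_apply_add]
  have : -(j - k) + j = k := by ring
  rw [this]; exact hk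

lemma notMem_QSet {N : ℕ} {y : X} {i : ℕ} (h1 : ¬ QPos N (rt h Y y) i) :
    (h ^ (i : ℤ)) y ∉ QSet h Y N := by
  unfold QPos at h1
  push Not at h1
  unfold QSet
  rw [Set.mem_iUnion₂]
  rintro ⟨k, hk, h2⟩
  rw [Finset.mem_Ico] at hk
  have h3 : (h ^ (-k)) ((h ^ (i : ℤ)) y) ∈ Y := h2
  rw [zpow_apply_add] at h3
  have h4 : ((-k + i).toNat : ℤ) = -k + i := Int.toNat_of_nonneg (by omega)
  rw [← h4] at h3
  exact rt_min (by omega) (by omega) h3

/-- the diagonal idempotent of the block ends -/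
noncomputable def qel (hY : IsClopen Y) (N : ℕ) : CC p X h := sgl 0 (chi (QSet h Y N) (QSet_clopen hY N))

lemma ev_qel (hY : IsClopen Y) (N : ℕ) (x : X) (ξ : ℤ → ℂ) (i : ℤ) :
    ev x (qel hY N : CC p X h) ξ i = chi (QSet h Y N) (QSet_clopen hY N) ((h ^ i) x) * ξ i := by
  unfold qel
  rw [ev_sgl, sub_zero]

lemma wel_mul (hY : IsClopen Y) (hr : Ret h Y J) {S T : X → ℕ → ℕ → ℂ} (hS : IsLocallyConstant S)
    (hT : IsLocallyConstant T) (hS0 : BSupp h Y S) (hT0 : BSupp h Y T)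
    (hST : ∀ y ∈ Y, ∀ i k : ℕ, i < rt h Y y → k < rt h Y y →
      ∑ j ∈ Finset.range J, S y i j * T y j k = if i = k then 1 else 0) :
    (wel Y hY S hS J * wel Y hY T hT J : CC p X h) = 1 := by
  apply CC.ext_blk hr
  intro y hy i hi ξ
  rw [ev_mul_apply, ev_one_apply, ev_blk hY hr hS hS0 hy hi]
  have e1 : ∀ j ∈ Finset.range J, S y i j * ev y (wel Y hY T hT J : CC p X h) ξ j =
      ∑ k ∈ Finset.range J, S y i j * T y j k * ξ k := by
    intro j _
    by_cases hj : j < rt h Y y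
    · rw [ev_blk hY hr hT hT0 hy hj, Finset.mul_sum]
      apply Finset.sum_congr rfl
      intro k _
      ring
    · rw [hS0 y i j (fun h2 => hj h2.2)]
      simp
  rw [Finset.sum_congr rfl e1, Finset.sum_comm]
  have e2 : ∀ k ∈ Finset.range J, ∑ j ∈ Finset.range J, S y i j * T y j k * ξ k =
      if k = i then ξ i else 0 := by
    intro k _
    rw [← Finset.sum_mul]
    by_cases hk : k < rt h Y y
    · rw [hST y hy i k hi hk]
      by_cases hik : k = i
      · subst hik; simp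
      · rw [if_neg (fun h => hik h.symm), if_neg hik, zero_mul]
    · rw [Finset.sum_eq_zero, zero_mul]
      · rw [if_neg]
        omega
      · intro j _
        rw [hT0 y j k (fun h2 => hk h2.2), mul_zero]
  rw [Finset.sum_congr rfl e2, Finset.sum_ite_eq']
  rw [if_pos (Finset.mem_range.2 (hi.trans_le (rt_le hr y)))]

/-- **block units** -/
theorem block_unit {N : ℕ} {a : CC p X h} (hN : Band N a) (hY : IsClopen Y) (hr : Ret h Y J)
    (hA : IsLocallyConstant (Ablk a Y))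
    {M S : X → ℕ → ℕ → ℂ} (hM : IsLocallyConstant M) (hS : IsLocallyConstant S)
    (hM0 : BSupp h Y M) (hS0 : BSupp h Y S)
    (hMS : ∀ y ∈ Y, ∀ i k : ℕ, i < rt h Y y → k < rt h Y y →
      ∑ j ∈ Finset.range J, M y i j * S y j k = if i = k then 1 else 0)
    (hSM : ∀ y ∈ Y, ∀ i k : ℕ, i < rt h Y y → k < rt h Y y →
      ∑ j ∈ Finset.range J, S y i j * M y j k = if i = k then 1 else 0)
    (hSQ : ∀ y ∈ Y, ∀ i j : ℕ, i < rt h Y y → j < rt h Y y →
      QPos N (rt h Y y) i → QPos N (rt h Y y) j → S y i j = 0) :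
    IsUnit (a - wel Y hY (Ablk a Y) hA J + wel Y hY M hM J : CC p X h) := by
  set B : CC p X h := wel Y hY M hM J with hB
  set Sg : CC p X h := wel Y hY S hS J with hSg
  set C : CC p X h := a - wel Y hY (Ablk a Y) hA J with hC
  set q : CC p X h := qel hY N with hq
  have hBS : B * Sg = 1 := wel_mul hY hr hM hS hM0 hS0 hMS
  have hSB : Sg * B = 1 := wel_mul hY hr hS hM hS0 hM0 hSM
  have evC : ∀ y ∈ Y, ∀ i : ℕ, i < rt h Y y → ∀ ξ,
      ev y C ξ i = ev y a (ξ - resB (rt h Y y) ξ) i := by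
    intro y hy i hi ξ
    rw [hC, map_sub, LinearMap.sub_apply, Pi.sub_apply, ev_blk hY hr hA (Ablk_supp a) hy hi,
      sum_Ablk hr a hi, map_sub, Pi.sub_apply]
  have hqSq : q * Sg * q = 0 := by
    apply CC.ext_blk hr
    intro y hy i hi ξ
    rw [mul_assoc, ev_mul_apply, ev_mul_apply, hq, ev_qel, hSg, ev_blk hY hr hS hS0 hy hi,
      map_zero, LinearMap.zero_apply, Pi.zero_apply, Finset.mul_sum]
    apply Finset.sum_eq_zero
    intro j _
    rw [ev_qel]
    by_cases hj : j < rt h Y y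
    · by_cases hqi : QPos N (rt h Y y) i
      · by_cases hqj : QPos N (rt h Y y) j
        · rw [hSQ y hy i j hi hj hqi hqj]; ring
        · rw [chi_notMem _ (notMem_QSet hqj)]; ring
      · rw [chi_notMem _ (notMem_QSet hqi)]; ring
    · rw [hS0 y i j (fun h2 => hj h2.2)]; ring
  have hqCq : q * C * q = C := by
    apply CC.ext_blk hr
    intro y hy i hi ξ
    rw [mul_assoc, ev_mul_apply, ev_mul_apply, hq, ev_qel, evC y hy i hi, evC y hy i hi]
    have hJ := rt_spec hr y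
    by_cases hqi : QPos N (rt h Y y) i
    · have h1 : (h ^ (i : ℤ)) y ∈ QSet h Y N := by
        rcases hqi with h2 | h2
        · exact mem_QSet (k := 0) (by rw [zpow_apply_zero]; exact hy) (by omega) (by omega)
        · exact mem_QSet (k := rt h Y y) hJ.2 (by omega) (by omega)
      rw [chi_mem _ h1, one_mul]
      apply ev_local hN
      intro j hj
      rw [abs_le] at hj
      simp only [Pi.sub_apply]
      unfold resB
      by_cases hj2 : 0 ≤ j ∧ j < rt h Y y
      · rw [if_pos hj2, if_pos hj2, sub_self, sub_self]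
      · rw [if_neg hj2, if_neg hj2, sub_zero, sub_zero, ev_qel, chi_mem, one_mul]
        by_cases hj3 : 0 ≤ j
        · exact mem_QSet (k := rt h Y y) hJ.2 (by omega) (by omega)
        · exact mem_QSet (k := 0) (by rw [zpow_apply_zero]; exact hy) (by omega) (by omega)
    · rw [chi_notMem _ (notMem_QSet hqi), zero_mul]
      unfold QPos at hqi
      push Not at hqi
      have h3 : ev y a (ξ - resB (rt h Y y) ξ) i = ev y a 0 i := by
        apply ev_local hN
        intro j hj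
        rw [abs_le] at hj
        simp only [Pi.sub_apply, Pi.zero_apply]
        unfold resB
        rw [if_pos ⟨by omega, by omega⟩, sub_self]
      rw [h3, map_zero]; rfl
  have hCSC : C * Sg * C = 0 := by
    calc C * Sg * C = (q * C * q) * Sg * (q * C * q) := by rw [hqCq]
      _ = q * C * (q * Sg * q) * (C * q) := by simp only [mul_assoc]
      _ = 0 := by rw [hqSq]; simp
  refine ⟨⟨C + B, Sg - Sg * C * Sg, ?_, ?_⟩, rfl⟩
  · calc (C + B) * (Sg - Sg * C * Sg) = C * Sg - (C * Sg * C) * Sg + B * Sg - (B * Sg) * C * Sg := by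
          noncomm_ring
      _ = 1 := by rw [hCSC, hBS]; noncomm_ring
  · calc (Sg - Sg * C * Sg) * (C + B) = Sg * C - Sg * (C * Sg * C) + Sg * B - Sg * C * (Sg * B) := by
          noncomm_ring
      _ = 1 := by rw [hCSC, hSB]; noncomm_ring

lemma wfun_add (hY : IsClopen Y) {S T : X → ℕ → ℕ → ℂ} (hS : IsLocallyConstant S)
    (hT : IsLocallyConstant T) (hST : IsLocallyConstant (S + T)) (L : ℕ) :
    (wel Y hY (S + T) hST L : CC p X h) = wel Y hY S hS L + wel Y hY T hT L := by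
  apply CC.ext
  intro x ξ
  rw [map_add, LinearMap.add_apply, Pi.add_apply, ev_wel, ev_wel, ev_wel, ← Finset.sum_add_distrib]
  apply Finset.sum_congr rfl
  intro t _
  rw [← Finset.sum_add_distrib]
  apply Finset.sum_congr rfl
  intro j _
  rw [← add_mul]
  congr 1
  by_cases hz : (h ^ ((0 : ℤ) - t)) x ∈ Y
  · rw [Set.indicator_of_mem hz, Set.indicator_of_mem hz, Set.indicator_of_mem hz]; rfl
  · rw [Set.indicator_of_notMem hz, Set.indicator_of_notMem hz, Set.indicator_of_notMem hz]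
    simp

lemma norm_wel_le_crude (hY : IsClopen Y) {T : X → ℕ → ℕ → ℂ} (hT : IsLocallyConstant T) (L : ℕ)
    {δ : ℝ} (hδ : 0 ≤ δ) (hTδ : ∀ y ∈ Y, ∀ t j : ℕ, ‖T y t j‖ ≤ δ) :
    ‖(wel Y hY T hT L : CC p X h)‖ ≤ L * L * δ := by
  unfold wel
  have h1 : ∀ t j : ℕ, ‖(sgl ((t : ℤ) - j) (wfun h Y hY T hT t j) : CC p X h)‖ ≤ δ := by
    intro t j
    refine (norm_sgl_le _ _).trans ?_
    rw [ContinuousMap.norm_le _ hδ]
    intro x
    show ‖Y.indicator (fun y => T y t j) ((h ^ (-(t : ℤ))) x)‖ ≤ δ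
    by_cases hz : (h ^ (-(t : ℤ))) x ∈ Y
    · rw [Set.indicator_of_mem hz]; exact hTδ _ hz _ _
    · rw [Set.indicator_of_notMem hz, norm_zero]; exact hδ
  calc _ ≤ ∑ t ∈ Finset.range L, ∑ j ∈ Finset.range L, δ := by
        refine (norm_sum_le _ _).trans (Finset.sum_le_sum fun t _ => ?_)
        exact (norm_sum_le _ _).trans (Finset.sum_le_sum fun j _ => h1 t j)
    _ = _ := by simp; ring

lemma wel_shrink (hY : IsClopen Y) {T : X → ℕ → ℕ → ℂ} (hT : IsLocallyConstant T) {L L' : ℕ}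
    (hL : L ≤ L') (hT0 : ∀ y ∈ Y, ∀ t j : ℕ, ¬(t < L ∧ j < L) → T y t j = 0) :
    (wel Y hY T hT L' : CC p X h) = wel Y hY T hT L := by
  apply CC.ext
  intro x ξ
  rw [ev_wel, ev_wel]
  have h0 : ∀ t j : ℕ, ¬(t < L ∧ j < L) →
      Y.indicator (fun y => T y t j) ((h ^ ((0 : ℤ) - t)) x) * ξ ((0 : ℤ) - t + j) = 0 := by
    intro t j htj
    by_cases hz : (h ^ ((0 : ℤ) - t)) x ∈ Y
    · rw [Set.indicator_of_mem hz, hT0 _ hz _ _ htj, zero_mul]
    · rw [Set.indicator_of_notMem hz, zero_mul]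
  have hsub : Finset.range L ⊆ Finset.range L' := Finset.range_subset_range.2 hL
  rw [← Finset.sum_subset hsub]
  · apply Finset.sum_congr rfl
    intro t _
    rw [← Finset.sum_subset hsub]
    intro j _ hj
    rw [Finset.mem_range] at hj
    exact h0 t j (fun h2 => hj h2.2)
  · intro t _ ht
    rw [Finset.mem_range] at ht
    apply Finset.sum_eq_zero
    intro j _
    exact h0 t j (fun h2 => ht h2.1)

end H382FP
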