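import Mathlib
import Pool.Agent.H382R3.FP.Blk

/-!
# The finite-dimensional perturbation lemma and the bad case (helper382, for MP_1d722c_an)
-/

set_option autoImplicit false
set_option linter.unusedSectionVars false

open scoped ENNReal
open MeasureTheory Topology

namespace H382FP

section lin

variable {V : Type*} [AddCommGroup V] [Module ℂ V] [FiniteDimensional ℂ V]

lemma exists_equiv_map (K W : Submodule ℂ V)
    (hd : Module.finrank ℂ K = Module.finrank ℂ W) :
    ∃ E : V ≃ₗ[ℂ] V, ∀ w ∈ W, E.symm w ∈ K := by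
  obtain ⟨K', hK⟩ := K.exists_isCompl
  obtain ⟨W', hW⟩ := W.exists_isCompl
  have h1 := Submodule.finrank_add_eq_of_isCompl hK
  have h2 := Submodule.finrank_add_eq_of_isCompl hW
  have e1 : K ≃ₗ[ℂ] W := LinearEquiv.ofFinrankEq _ _ hd
  have e2 : K' ≃ₗ[ℂ] W' := LinearEquiv.ofFinrankEq _ _ (by omega)
  refine ⟨(Submodule.prodEquivOfIsCompl K K' hK).symm ≪≫ₗ (e1.prodCongr e2) ≪≫ₗ
    (Submodule.prodEquivOfIsCompl W W' hW), fun w hw => ?_⟩
  have h3 : ((Submodule.prodEquivOfIsCompl K K' hK).symm ≪≫ₗ (e1.prodCongr e2) ≪≫ₗ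
    (Submodule.prodEquivOfIsCompl W W' hW)).symm w = (Submodule.prodEquivOfIsCompl K K' hK)
      ((e1.prodCongr e2).symm ((Submodule.prodEquivOfIsCompl W W' hW).symm w)) := rfl
  rw [h3, show w = ((⟨w, hw⟩ : W) : V) from rfl, Submodule.prodEquivOfIsCompl_symm_apply_left]
  have h4 : (e1.prodCongr e2).symm ((⟨w, hw⟩ : W), (0 : W')) = (e1.symm ⟨w, hw⟩, e2.symm 0) := rfl
  rw [h4, Submodule.coe_prodEquivOfIsCompl', map_zero]
  simp

lemma exists_small_notMem {s : Set ℂ} (hs : s.Finite) {η : ℝ} (hη : 0 < η) :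
    ∃ t : ℂ, t ≠ 0 ∧ ‖t‖ ≤ η ∧ t ∉ s := by
  have hinj : Function.Injective (fun n : ℕ => ((η / (n + 1) : ℝ) : ℂ)) := by
    intro m n hmn
    have h1 : η / (m + 1 : ℝ) = η / (n + 1 : ℝ) := Complex.ofReal_injective hmn
    have h2 : (m : ℝ) + 1 = n + 1 := by
      field_simp at h1
      linarith
    exact_mod_cast (add_right_cancel h2)
  have hinf : (Set.range (fun n : ℕ => ((η / (n + 1) : ℝ) : ℂ))).Infinite :=
    Set.infinite_range_of_injective hinj
  obtain ⟨t, ⟨n, rfl⟩, ht⟩ := hinf.exists_notMem_finite hs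
  refine ⟨_, ?_, ?_, ht⟩
  · have : (0 : ℝ) < η / (n + 1) := by positivity
    exact Complex.ofReal_ne_zero.2 this.ne'
  · rw [Complex.norm_real, Real.norm_of_nonneg (by positivity)]
    rw [div_le_iff₀ (by positivity)]
    nlinarith

end lin

/-- **the finite-dimensional perturbation lemma** -/
lemma matM {r : ℕ} (M : Matrix (Fin r) (Fin r) ℂ) (Q : Finset (Fin r)) {ι : Type} [Fintype ι]
    (v : ι → Fin r → ℂ) (hv : LinearIndependent ℂ v) (hcard : Fintype.card ι = Q.card)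
    (hker : ∀ k, M.mulVec (v k) = 0) (hsupp : ∀ k, ∀ i ∈ Q, v k i = 0) {δ : ℝ} (hδ : 0 < δ) :
    ∃ M' S : Matrix (Fin r) (Fin r) ℂ, M' * S = 1 ∧ S * M' = 1 ∧
      (∀ i j, ‖M' i j - M i j‖ ≤ δ) ∧ ∀ i ∈ Q, ∀ j ∈ Q, S i j = 0 := by
  classical
  set K : Submodule ℂ (Fin r → ℂ) := Submodule.span ℂ (Set.range v) with hK
  set w : Q → (Fin r → ℂ) := fun i => Pi.single (i : Fin r) 1 with hw
  have hwi : LinearIndependent ℂ w := by
    have h1 := (Pi.basisFun ℂ (Fin r)).linearIndependent.comp (fun i : Q => (i : Fin r))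
      Subtype.val_injective
    have h2 : (⇑(Pi.basisFun ℂ (Fin r)) ∘ fun i : Q => (i : Fin r)) = w := by
      funext i
      simp [hw]
    rwa [h2] at h1
  set W : Submodule ℂ (Fin r → ℂ) := Submodule.span ℂ (Set.range w) with hW
  have hd : Module.finrank ℂ K = Module.finrank ℂ W := by
    rw [hK, hW, finrank_span_eq_card hv, finrank_span_eq_card hwi, hcard, Fintype.card_coe]
  obtain ⟨E, hE⟩ := exists_equiv_map K W hd
  have hKker : ∀ x ∈ K, M.mulVec x = 0 := by
    intro x hx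
    induction hx using Submodule.span_induction with
    | mem x h => obtain ⟨k, rfl⟩ := h; exact hker k
    | zero => simp
    | add x y _ _ hx hy => rw [Matrix.mulVec_add, hx, hy, add_zero]
    | smul c x _ hx => rw [Matrix.mulVec_smul, hx, smul_zero]
  have hKsupp : ∀ x ∈ K, ∀ i ∈ Q, x i = 0 := by
    intro x hx i hi
    induction hx using Submodule.span_induction with
    | mem x h => obtain ⟨k, rfl⟩ := h; exact hsupp k i hi
    | zero => simp
    | add x y _ _ hx hy => rw [Pi.add_apply, hx, hy, add_zero]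
    | smul c x _ hx => rw [Pi.smul_apply, hx, smul_zero]
  -- matrices of `E` and of its inverse
  set F : Matrix (Fin r) (Fin r) ℂ := LinearMap.toMatrix' E.toLinearMap with hF
  set G : Matrix (Fin r) (Fin r) ℂ := LinearMap.toMatrix' E.symm.toLinearMap with hG
  have hFG : F * G = 1 := by
    rw [hF, hG, ← LinearMap.toMatrix'_mul]
    have : (E.toLinearMap * E.symm.toLinearMap : (Fin r → ℂ) →ₗ[ℂ] (Fin r → ℂ)) = 1 := by
      apply LinearMap.ext; intro x; exact E.apply_symm_apply x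
    rw [this, LinearMap.toMatrix'_one]
  have hGF : G * F = 1 := by
    rw [hF, hG, ← LinearMap.toMatrix'_mul]
    have : (E.symm.toLinearMap * E.toLinearMap : (Fin r → ℂ) →ₗ[ℂ] (Fin r → ℂ)) = 1 := by
      apply LinearMap.ext; intro x; exact E.symm_apply_apply x
    rw [this, LinearMap.toMatrix'_one]
  -- the parameter
  set c : ℝ := 1 + ∑ i, ∑ j, ‖F i j‖ with hc
  have hc0 : 0 < c := by
    have : 0 ≤ ∑ i, ∑ j, ‖F i j‖ := Finset.sum_nonneg fun i _ => Finset.sum_nonneg fun j _ =>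
      norm_nonneg _
    linarith
  obtain ⟨t, ht0, htle, htn⟩ := exists_small_notMem (Matrix.finite_spectrum (-(M * G)))
    (div_pos hδ hc0)
  rw [spectrum.notMem_iff] at htn
  obtain ⟨u, hu⟩ := htn
  have hu1 : (u : Matrix (Fin r) (Fin r) ℂ) = algebraMap ℂ _ t + M * G := by rw [hu]; simp
  set M' : Matrix (Fin r) (Fin r) ℂ := M + t • F with hM'
  have hM'2 : M' = (u : Matrix (Fin r) (Fin r) ℂ) * F := by
    rw [hu1, add_mul, mul_assoc, hGF, mul_one, hM', Algebra.algebraMap_eq_smul_one, smul_mul_assoc,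
      one_mul, add_comm]
  set S : Matrix (Fin r) (Fin r) ℂ := G * ((u⁻¹ : (Matrix (Fin r) (Fin r) ℂ)ˣ) : Matrix _ _ ℂ)
    with hS
  have h1 : M' * S = 1 := by
    rw [hM'2, hS]
    calc (u : Matrix (Fin r) (Fin r) ℂ) * F * (G * ((u⁻¹ : (Matrix (Fin r) (Fin r) ℂ)ˣ) : Matrix _ _ ℂ))
        = (u : Matrix (Fin r) (Fin r) ℂ) * (F * G) *
          ((u⁻¹ : (Matrix (Fin r) (Fin r) ℂ)ˣ) : Matrix _ _ ℂ) := by simp only [mul_assoc]
      _ = 1 := by rw [hFG, mul_one, Units.mul_inv]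
  have h2 : S * M' = 1 := by
    rw [hM'2, hS]
    calc G * ((u⁻¹ : (Matrix (Fin r) (Fin r) ℂ)ˣ) : Matrix _ _ ℂ) * ((u : Matrix (Fin r) (Fin r) ℂ) * F)
        = G * (((u⁻¹ : (Matrix (Fin r) (Fin r) ℂ)ˣ) : Matrix _ _ ℂ) *
          (u : Matrix (Fin r) (Fin r) ℂ)) * F := by simp only [mul_assoc]
      _ = 1 := by rw [Units.inv_mul, mul_one, hGF]
  refine ⟨M', S, h1, h2, ?_, ?_⟩
  · intro i j
    have e1 : M' i j - M i j = t * F i j := by
      rw [hM', Matrix.add_apply, Matrix.smul_apply, smul_eq_mul]; ring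
    rw [e1, norm_mul]
    have e2 : ‖F i j‖ ≤ c := by
      have h3 : ‖F i j‖ ≤ ∑ j, ‖F i j‖ :=
        Finset.single_le_sum (f := fun j => ‖F i j‖) (fun _ _ => norm_nonneg _) (Finset.mem_univ j)
      have h4 : ∑ j, ‖F i j‖ ≤ ∑ i, ∑ j, ‖F i j‖ :=
        Finset.single_le_sum (f := fun i => ∑ j, ‖F i j‖)
          (fun _ _ => Finset.sum_nonneg fun _ _ => norm_nonneg _) (Finset.mem_univ i)
      linarith
    calc ‖t‖ * ‖F i j‖ ≤ δ / c * c := mul_le_mul htle e2 (norm_nonneg _) (by positivity)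
      _ = δ := by field_simp
  · intro i hi j hj
    -- the column `j` of `S` is in `K`
    have e1 : ∀ x : Fin r → ℂ, G.mulVec x = E.symm x := by
      intro x
      rw [hG, LinearMap.toMatrix'_mulVec]; rfl
    have e2 : ∀ x : Fin r → ℂ, F.mulVec x = E x := by
      intro x
      rw [hF, LinearMap.toMatrix'_mulVec]; rfl
    have hwj : (Pi.single j 1 : Fin r → ℂ) ∈ W := Submodule.subset_span ⟨⟨j, hj⟩, rfl⟩
    have hk : t⁻¹ • E.symm (Pi.single j 1) ∈ K := K.smul_mem _ (hE _ hwj)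
    have e3 : M'.mulVec (t⁻¹ • E.symm (Pi.single j 1)) = Pi.single j 1 := by
      rw [hM', Matrix.add_mulVec, hKker _ hk, zero_add, Matrix.smul_mulVec, Matrix.mulVec_smul,
        e2, LinearEquiv.apply_symm_apply, smul_smul, mul_inv_cancel₀ ht0, one_smul]
    have e4 : S.mulVec (Pi.single j 1) = t⁻¹ • E.symm (Pi.single j 1) := by
      calc S.mulVec (Pi.single j 1) = S.mulVec (M'.mulVec (t⁻¹ • E.symm (Pi.single j 1))) := by rw [e3]
        _ = _ := by rw [Matrix.mulVec_mulVec, h2, Matrix.one_mulVec]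
    have e5 : S i j = S.mulVec (Pi.single j 1) i := by
      rw [Matrix.mulVec_single_one]; rfl
    rw [e5, e4]
    exact hKsupp _ hk i hi

lemma matM_left {r : ℕ} (M : Matrix (Fin r) (Fin r) ℂ) (Q : Finset (Fin r)) {ι : Type} [Fintype ι]
    (v : ι → Fin r → ℂ) (hv : LinearIndependent ℂ v) (hcard : Fintype.card ι = Q.card)
    (hker : ∀ k, M.vecMul (v k) = 0) (hsupp : ∀ k, ∀ i ∈ Q, v k i = 0) {δ : ℝ} (hδ : 0 < δ) :
    ∃ M' S : Matrix (Fin r) (Fin r) ℂ, M' * S = 1 ∧ S * M' = 1 ∧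
      (∀ i j, ‖M' i j - M i j‖ ≤ δ) ∧ ∀ i ∈ Q, ∀ j ∈ Q, S i j = 0 := by
  obtain ⟨M', S, h1, h2, h3, h4⟩ := matM M.transpose Q v hv hcard
    (fun k => by rw [Matrix.mulVec_transpose]; exact hker k) hsupp hδ
  refine ⟨M'.transpose, S.transpose, ?_, ?_, ?_, ?_⟩
  · rw [← Matrix.transpose_mul, h2, Matrix.transpose_one]
  · rw [← Matrix.transpose_mul, h1, Matrix.transpose_one]
  · intro i j
    exact h3 j i
  · intro i hi j hj
    exact h4 j hj i hi

lemma linInd_of_pos {r : ℕ} {ι : Type} [Fintype ι] [DecidableEq ι] (v : ι → Fin r → ℂ)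
    (pos : ι → Fin r) (h1 : ∀ k, v k (pos k) ≠ 0) (h2 : ∀ k k', k' ≠ k → v k' (pos k) = 0) :
    LinearIndependent ℂ v := by
  rw [Fintype.linearIndependent_iff]
  intro g hg k
  have h3 := congrFun hg (pos k)
  rw [Finset.sum_apply, Finset.sum_eq_single k] at h3
  · rw [Pi.smul_apply, smul_eq_mul, Pi.zero_apply] at h3
    exact (mul_eq_zero.1 h3).resolve_right (h1 k)
  · intro k' _ hk'
    rw [Pi.smul_apply, h2 k k' hk', smul_zero]
  · intro h4; exact absurd (Finset.mem_univ k) h4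

open Classical in
lemma card_QPos {N r : ℕ} (hr : 2 * N ≤ r) :
    (Finset.univ.filter (fun i : Fin r => QPos N r i)).card = 2 * N := by
  classical
  have h1 : (Finset.univ.filter (fun i : Fin r => QPos N r i)).image (fun i : Fin r => (i : ℕ)) =
      Finset.range N ∪ Finset.Ico (r - N) r := by
    ext k
    simp only [Finset.mem_image, Finset.mem_filter, Finset.mem_univ, true_and, Finset.mem_union,
      Finset.mem_range, Finset.mem_Ico, QPos]
    constructor
    · rintro ⟨i, hi, rfl⟩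
      have := i.2
      omega
    · intro hk
      exact ⟨⟨k, by omega⟩, by simp only; omega, rfl⟩
  rw [← Finset.card_image_of_injective _ Fin.val_injective, h1, Finset.card_union_of_disjoint]
  · simp only [Finset.card_range, Nat.card_Ico]
    omega
  · rw [Finset.disjoint_left]
    intro k hk hk'
    rw [Finset.mem_range] at hk
    rw [Finset.mem_Ico] at hk'
    omega

end H382FP
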