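import Mathlib
import Pool.Agent.H382R3.FP.Mat

/-!
# Approximation by block units (helper382, for MP_1d722c_an)
-/

set_option autoImplicit false
set_option linter.unusedSectionVars false

open scoped ENNReal
open MeasureTheory Topology

namespace H382FP

variable {p : ℝ≥0∞} [Fact (1 ≤ p)] [hpt : Fact (p ≠ ∞)]
variable {X : Type} [TopologicalSpace X] [CompactSpace X] {h : X ≃ₜ X}
variable {Y : Set X} {J : ℕ}

/-- support conditions for the kernel vectors -/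
def VS (N J₀ : ℕ) (v : Fin (2 * N) → ℤ → ℂ) (pos : Fin (2 * N) → ℕ) : Prop :=
  (∀ k, ∀ i : ℤ, v k i ≠ 0 → (N : ℤ) ≤ i ∧ i + N < J₀) ∧ (∀ k, v k (pos k) ≠ 0) ∧
    ∀ k k', k' ≠ k → v k' (pos k) = 0

/-- right kernel vectors of `a - T` -/
def KerR (a : CC p X h) (N J₀ : ℕ) (x : X) (T : ℕ → ℕ → ℂ) : Prop :=
  ∃ (v : Fin (2 * N) → ℤ → ℂ) (pos : Fin (2 * N) → ℕ), VS N J₀ v pos ∧
    ∀ k, ∀ i : ℕ, ev x a (v k) i = ∑ j ∈ Finset.range J₀, T i j * v k j

/-- left kernel vectors of `a - T` -/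
def KerL (a : CC p X h) (N J₀ : ℕ) (x : X) (T : ℕ → ℕ → ℂ) : Prop :=
  ∃ (v : Fin (2 * N) → ℤ → ℂ) (pos : Fin (2 * N) → ℕ), VS N J₀ v pos ∧
    ∀ k, ∀ ζ : ℤ → ℂ, ∑ i ∈ Finset.range J₀, v k i * ev x a ζ i =
      ∑ i ∈ Finset.range J₀, v k i * ∑ j ∈ Finset.range J₀, T i j * ζ j

/-- all the block data at one point -/
def Data (N J J₀ r : ℕ) (A : ℕ → ℕ → ℂ) (δ : ℝ) (T M S : ℕ → ℕ → ℂ) : Prop :=
  (∀ t j : ℕ, ¬(t < r ∧ j < r) → M t j = 0 ∧ S t j = 0) ∧
  (J₀ ≤ r → ((∀ i k : ℕ, i < r → k < r →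
      ∑ j ∈ Finset.range J, M i j * S j k = if i = k then 1 else 0) ∧
    (∀ i k : ℕ, i < r → k < r →
      ∑ j ∈ Finset.range J, S i j * M j k = if i = k then 1 else 0) ∧
    (∀ i j : ℕ, i < r → j < r → QPos N r i → QPos N r j → S i j = 0) ∧
    ∀ i j : ℕ, ‖M i j - (A i j - T i j)‖ ≤ δ))

/-- extension of a matrix by zero -/
noncomputable def extM {r : ℕ} (M : Matrix (Fin r) (Fin r) ℂ) (i j : ℕ) : ℂ :=
  if hij : i < r ∧ j < r then M ⟨i, hij.1⟩ ⟨j, hij.2⟩ else 0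

lemma extM_of_lt {r : ℕ} (M : Matrix (Fin r) (Fin r) ℂ) {i j : ℕ} (hi : i < r) (hj : j < r) :
    extM M i j = M ⟨i, hi⟩ ⟨j, hj⟩ := dif_pos ⟨hi, hj⟩

lemma extM_of_not {r : ℕ} (M : Matrix (Fin r) (Fin r) ℂ) {i j : ℕ} (hij : ¬(i < r ∧ j < r)) :
    extM M i j = 0 := dif_neg hij

lemma extM_mul {r J : ℕ} (hJ : r ≤ J) (M S : Matrix (Fin r) (Fin r) ℂ) (hMS : M * S = 1)
    {i k : ℕ} (hi : i < r) (hk : k < r) :
    ∑ j ∈ Finset.range J, extM M i j * extM S j k = if i = k then 1 else 0 := by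
  have h1 : Finset.range r ⊆ Finset.range J := Finset.range_subset_range.2 hJ
  rw [← Finset.sum_subset h1, Finset.sum_range]
  · have h2 := congrFun (congrFun hMS ⟨i, hi⟩) ⟨k, hk⟩
    rw [Matrix.mul_apply, Matrix.one_apply] at h2
    simp only [Fin.mk.injEq] at h2
    rw [← h2]
    apply Finset.sum_congr rfl
    intro j _
    rw [extM_of_lt M hi j.2, extM_of_lt S j.2 hk]
  · intro j _ hj
    rw [Finset.mem_range] at hj
    rw [extM_of_not M (fun h2 => hj h2.2), zero_mul]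

lemma sum_Ablk' (a : CC p X h) {y : X} {i : ℕ} (hi : i < rt h Y y) (ξ : ℤ → ℂ) :
    ∑ j ∈ Finset.range (rt h Y y), Ablk a Y y i j * ξ j = ev y a (resB (rt h Y y) ξ) i := by
  rw [resB_eq, ev_sum_single]
  apply Finset.sum_congr rfl
  intro j hj
  rw [Finset.mem_range] at hj
  unfold Ablk
  rw [if_pos ⟨hi, hj⟩]

lemma block_data {a : CC p X h} {N J₀ : ℕ} (hr : Ret h Y J) (x : X) {T : ℕ → ℕ → ℂ}
    (h2N : 2 * N ≤ J₀)
    (hT0 : ∀ t j : ℕ, ¬(t < J₀ ∧ j < J₀) → T t j = 0)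
    (hK : KerR a N J₀ x T ∨ KerL a N J₀ x T) {δ : ℝ} (hδ : 0 < δ) :
    ∃ M S : ℕ → ℕ → ℂ, Data N J J₀ (rt h Y x) (Ablk a Y x) δ T M S := by
  classical
  by_cases hrJ : J₀ ≤ rt h Y x
  swap
  · exact ⟨0, 0, fun t j _ => ⟨rfl, rfl⟩, fun h1 => absurd h1 hrJ⟩
  set r := rt h Y x with hrr
  have hrJ' : r ≤ J := rt_le hr x
  set M₀ : Matrix (Fin r) (Fin r) ℂ := fun i j => Ablk a Y x i j - T i j with hM₀
  set Q : Finset (Fin r) := Finset.univ.filter (fun i : Fin r => QPos N r i) with hQ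
  have hcard : Fintype.card (Fin (2 * N)) = Q.card := by
    rw [Fintype.card_fin, hQ, card_QPos (h2N.trans hrJ)]
  have hsubr : Finset.range J₀ ⊆ Finset.range r := Finset.range_subset_range.2 hrJ
  -- vectors
  have prep : ∀ (v : Fin (2 * N) → ℤ → ℂ) (pos : Fin (2 * N) → ℕ), VS N J₀ v pos →
      LinearIndependent ℂ (fun k => fun i : Fin r => v k (i : ℕ)) ∧
      (∀ k, ∀ i ∈ Q, v k ((i : ℕ) : ℤ) = 0) ∧ (∀ k, resB r (v k) = v k) ∧
      (∀ k, ∀ j : ℕ, ¬ j < J₀ → v k j = 0) := by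
    intro v pos hVS
    obtain ⟨hv1, hv2, hv3⟩ := hVS
    have hpos : ∀ k, pos k < r := by
      intro k
      have := hv1 k _ (hv2 k)
      omega
    refine ⟨?_, ?_, ?_, ?_⟩
    · exact linInd_of_pos _ (fun k => ⟨pos k, hpos k⟩) hv2 hv3
    · intro k i hi
      by_contra hne
      have h1 := hv1 k _ hne
      rw [hQ, Finset.mem_filter] at hi
      have h2 := hi.2
      unfold QPos at h2
      omega
    · intro k
      funext j
      unfold resB
      by_cases hj : 0 ≤ j ∧ j < r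
      · rw [if_pos hj]
      · rw [if_neg hj]
        by_contra hne
        have h1 := hv1 k _ (Ne.symm hne)
        omega
    · intro k j hj
      by_contra hne
      have h1 := hv1 k _ hne
      omega
  have key : ∃ M' S : Matrix (Fin r) (Fin r) ℂ, M' * S = 1 ∧ S * M' = 1 ∧
      (∀ i j, ‖M' i j - M₀ i j‖ ≤ δ) ∧ ∀ i ∈ Q, ∀ j ∈ Q, S i j = 0 := by
    rcases hK with ⟨v, pos, hVS, hker⟩ | ⟨v, pos, hVS, hker⟩
    · obtain ⟨hli, hs, hres, hout⟩ := prep v pos hVS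
      apply matM M₀ Q _ hli hcard _ hs hδ
      intro k
      funext i
      show ∑ j : Fin r, M₀ i j * v k (j : ℕ) = 0
      have e1 : ∑ j : Fin r, M₀ i j * v k ((j : ℕ) : ℤ) =
          ∑ j ∈ Finset.range r, (Ablk a Y x i j - T i j) * v k j := by
        rw [Finset.sum_range]
      rw [e1]
      simp only [sub_mul]
      rw [Finset.sum_sub_distrib, sum_Ablk' a i.2, ← hrr, hres, hker,
        Finset.sum_subset hsubr, sub_self]
      intro j _ hj
      rw [Finset.mem_range] at hj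
      rw [hout k j hj, mul_zero]
    · obtain ⟨hli, hs, hres, hout⟩ := prep v pos hVS
      apply matM_left M₀ Q _ hli hcard _ hs hδ
      intro k
      funext j
      show ∑ i : Fin r, v k (i : ℕ) * M₀ i j = 0
      have e1 : ∑ i : Fin r, v k ((i : ℕ) : ℤ) * M₀ i j =
          ∑ i ∈ Finset.range r, v k i * (Ablk a Y x i j - T i j) := by
        rw [Finset.sum_range]
      have e2 : ∑ i ∈ Finset.range r, v k i * (Ablk a Y x i j - T i j) =
          ∑ i ∈ Finset.range J₀, v k i * (Ablk a Y x i j - T i j) := by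
        symm
        apply Finset.sum_subset hsubr
        intro i _ hi
        rw [Finset.mem_range] at hi
        rw [hout k i hi, zero_mul]
      have e3 := hker k (Pi.single ((j : ℕ) : ℤ) 1)
      have e4 : ∀ i ∈ Finset.range J₀, v k i * ev x a (Pi.single ((j : ℕ) : ℤ) 1) i =
          v k i * Ablk a Y x i j := by
        intro i hi
        rw [Finset.mem_range] at hi
        unfold Ablk
        rw [if_pos ⟨by omega, j.2⟩]
      have e5 : ∀ i ∈ Finset.range J₀, v k i * ∑ j' ∈ Finset.range J₀, T i j' *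
          (Pi.single ((j : ℕ) : ℤ) 1 : ℤ → ℂ) j' = v k i * T i j := by
        intro i _
        congr 1
        by_cases hj : (j : ℕ) < J₀
        · rw [Finset.sum_eq_single (j : ℕ)]
          · simp
          · intro j' _ hj'
            rw [Pi.single_eq_of_ne (by omega), mul_zero]
          · intro h1; exact absurd (Finset.mem_range.2 hj) h1
        · rw [hT0 i j (fun h1 => hj h1.2), Finset.sum_eq_zero]
          intro j' hj'
          rw [Finset.mem_range] at hj'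
          rw [Pi.single_eq_of_ne (by omega), mul_zero]
      rw [Finset.sum_congr rfl e4, Finset.sum_congr rfl e5] at e3
      rw [e1, e2]
      simp only [mul_sub]
      rw [Finset.sum_sub_distrib, e3, sub_self]
  obtain ⟨M', S, h1, h2, h3, h4⟩ := key
  refine ⟨extM M', extM S, fun t j htj => ⟨extM_of_not _ htj, extM_of_not _ htj⟩, fun _ =>
    ⟨?_, ?_, ?_, ?_⟩⟩
  · intro i k hi hk
    exact extM_mul hrJ' M' S h1 hi hk
  · intro i k hi hk
    exact extM_mul hrJ' S M' h2 hi hk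
  · intro i j hi hj hqi hqj
    rw [extM_of_lt _ hi hj]
    exact h4 _ (by rw [hQ, Finset.mem_filter]; exact ⟨Finset.mem_univ _, hqi⟩) _
      (by rw [hQ, Finset.mem_filter]; exact ⟨Finset.mem_univ _, hqj⟩)
  · intro i j
    by_cases hij : i < r ∧ j < r
    · rw [extM_of_lt _ hij.1 hij.2]
      exact h3 _ _
    · rw [extM_of_not _ hij, Ablk_supp a x i j hij, hT0 i j (by omega)]
      simp [hδ.le]

/-- local constancy of the coefficients -/
def LC (a : CC p X h) : Prop := ∀ m, IsLocallyConstant (fun x => co a m x)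

lemma co_comp_ilc {a : CC p X h} (ha : LC a) (m i : ℤ) :
    IsLocallyConstant (fun x => co a m ((h ^ i) x)) :=
  (ha m).comp_continuous (h ^ i).continuous

lemma Ablk_ilc (hY : IsClopen Y) (hr : Ret h Y J) {a : CC p X h} (ha : LC a) :
    IsLocallyConstant (Ablk a Y) := by
  classical
  have h1 := rt_ilc (h := h) hY hr
  have h2 : IsLocallyConstant (fun x => fun ij : Fin J × Fin J =>
      co a ((ij.1 : ℕ) - (ij.2 : ℕ) : ℤ) ((h ^ ((ij.1 : ℕ) : ℤ)) x)) :=
    ilc_pi fun ij => co_comp_ilc ha _ _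
  rw [IsLocallyConstant.iff_eventually_eq] at h1 h2 ⊢
  intro x
  filter_upwards [h1 x, h2 x] with y hy1 hy2
  funext i j
  unfold Ablk
  rw [hy1]
  by_cases hij : i < rt h Y x ∧ j < rt h Y x
  · rw [if_pos hij, if_pos hij]
    have hiJ := hij.1.trans_le (rt_le hr x)
    have hjJ := hij.2.trans_le (rt_le hr x)
    have e1 := ev_single y a ((i : ℤ) - j) i
    have e2 := ev_single x a ((i : ℤ) - j) i
    rw [sub_sub_cancel] at e1 e2
    rw [e1, e2]
    exact congrFun hy2 (⟨i, hiJ⟩, ⟨j, hjJ⟩)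
  · rw [if_neg hij, if_neg hij]

/-- **the bad case** -/
theorem bad_case (hp2 : p ≠ 2) {a : CC p X h} {N : ℕ} (hN : Band N a) (ha : LC a) {J₀ : ℕ}
    (h2N : 2 * N ≤ J₀) {ε : ℝ} (hε : 0 ≤ ε)
    (hbad : ∀ x : X, ∃ T : ℕ → ℕ → ℂ, (∀ t j : ℕ, ¬(t < J₀ ∧ j < J₀) → T t j = 0) ∧
      MB p.toReal J₀ T ε ∧ (KerR a N J₀ x T ∨ KerL a N J₀ x T))
    (hY : IsClopen Y) (hr : Ret h Y J) (hJ₀ : ∀ y ∈ Y, J₀ ≤ rt h Y y) (hJJ : J₀ ≤ J)
    {δ : ℝ} (hδ : 0 < δ) :
    ∃ U : CC p X h, IsUnit U ∧ ‖a - U‖ ≤ ε + J * J * δ := by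
  have hA : IsLocallyConstant (Ablk a Y) := Ablk_ilc hY hr ha
  have hrt : IsLocallyConstant (rt h Y) := rt_ilc hY hr
  have hP : IsLocallyConstant (fun x => (rt h Y x, Ablk a Y x)) := ilc_prod hrt hA
  obtain ⟨G, hG, hGood⟩ := select (γ := (ℕ → ℕ → ℂ) × (ℕ → ℕ → ℂ) × (ℕ → ℕ → ℂ)) hP
    (Good := fun x g => (∀ t j : ℕ, ¬(t < J₀ ∧ j < J₀) → g.1 t j = 0) ∧
      MB p.toReal J₀ g.1 ε ∧ Data N J J₀ (rt h Y x) (Ablk a Y x) δ g.1 g.2.1 g.2.2)
    (by
      intro x x' g hxx hg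
      have e1 : rt h Y x = rt h Y x' := congrArg Prod.fst hxx
      have e2 : Ablk a Y x = Ablk a Y x' := congrArg Prod.snd hxx
      rw [← e1, ← e2]
      exact hg)
    (by
      intro x
      obtain ⟨T, hT0, hMB, hK⟩ := hbad x
      obtain ⟨M, S, hD⟩ := block_data (J := J) hr x h2N hT0 hK hδ
      exact ⟨(T, M, S), hT0, hMB, hD⟩)
  set T : X → ℕ → ℕ → ℂ := fun x => (G x).1 with hTdef
  set M : X → ℕ → ℕ → ℂ := fun x => (G x).2.1 with hMdef
  set S : X → ℕ → ℕ → ℂ := fun x => (G x).2.2 with hSdef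
  have hT : IsLocallyConstant T := hG.comp (fun g => g.1)
  have hM : IsLocallyConstant M := hG.comp (fun g => g.2.1)
  have hS : IsLocallyConstant S := hG.comp (fun g => g.2.2)
  have hM0 : BSupp h Y M := fun y t j htj => ((hGood y).2.2.1 t j htj).1
  have hS0 : BSupp h Y S := fun y t j htj => ((hGood y).2.2.1 t j htj).2
  have hunit := block_unit hN hY hr hA hM hS hM0 hS0
    (fun y hy => ((hGood y).2.2.2 (hJ₀ y hy)).1)
    (fun y hy => ((hGood y).2.2.2 (hJ₀ y hy)).2.1)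
    (fun y hy => ((hGood y).2.2.2 (hJ₀ y hy)).2.2.1)
  refine ⟨_, hunit, ?_⟩
  set R : X → ℕ → ℕ → ℂ := fun x i j => Ablk a Y x i j - M x i j - T x i j with hR
  have hRlc : IsLocallyConstant R := by
    have h1 := ilc_prod hA (ilc_prod hM hT)
    exact h1.comp (fun (g : (ℕ → ℕ → ℂ) × (ℕ → ℕ → ℂ) × (ℕ → ℕ → ℂ)) =>
      fun i j => g.1 i j - g.2.1 i j - g.2.2 i j)
  have hTR : IsLocallyConstant (T + R) := by
    have h1 := ilc_prod hT hRlc
    exact h1.comp (fun (g : (ℕ → ℕ → ℂ) × (ℕ → ℕ → ℂ)) => g.1 + g.2)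
  have hMTR : IsLocallyConstant (M + (T + R)) := by
    have h1 := ilc_prod hM hTR
    exact h1.comp (fun (g : (ℕ → ℕ → ℂ) × (ℕ → ℕ → ℂ)) => g.1 + g.2)
  have hAeq : Ablk a Y = M + (T + R) := by
    funext x i j
    simp only [Pi.add_apply, hR]
    ring
  have e1 : (wel Y hY (Ablk a Y) hA J : CC p X h) =
      wel Y hY M hM J + (wel Y hY T hT J + wel Y hY R hRlc J) := by
    rw [← wfun_add hY hT hRlc hTR, ← wfun_add hY hM hTR hMTR]
    congr 1
  have e2 : a - (a - wel Y hY (Ablk a Y) hA J + wel Y hY M hM J) =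
      wel Y hY T hT J + wel Y hY R hRlc J := by
    rw [e1]; abel
  rw [e2]
  refine (norm_add_le _ _).trans (add_le_add ?_ ?_)
  · rw [wel_shrink hY hT hJJ (fun y _ => (hGood y).1)]
    apply norm_wel_le hp2 hY hT J₀ hε
    · intro y hy k hk1 hk2
      exact rt_min hk1 (hk2.trans_le (hJ₀ y hy))
    · intro y _
      exact (hGood y).2.1
  · apply norm_wel_le_crude hY hRlc J hδ.le
    intro y hy t j
    have h1 := ((hGood y).2.2.2 (hJ₀ y hy)).2.2.2 t j
    have h2 : R y t j = -(M y t j - (Ablk a Y y t j - T y t j)) := by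
      simp only [hR]; ring
    rw [h2, norm_neg]
    exact h1

end H382FP
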