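import Mathlib

/-!
# Finite-dimensional duality in `ℓ^p` (helper382, for MP_1d722c_an)
-/

set_option autoImplicit false
set_option linter.unusedSectionVars false

open scoped ENNReal
open MeasureTheory Topology

namespace H382FP

variable {p : ℝ≥0∞} [Fact (1 ≤ p)] [hpt : Fact (p ≠ ∞)]

lemma prPos : 0 < p.toReal :=
  ENNReal.toReal_pos (zero_lt_one.trans_le (Fact.out : 1 ≤ p)).ne' hpt.out

section

variable {ι : Type} [Fintype ι]

lemma pl_norm (c : ι → ℂ) :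
    ‖(WithLp.toLp p c : PiLp p (fun _ : ι => ℂ))‖ ^ p.toReal = ∑ i, ‖c i‖ ^ p.toReal := by
  rw [PiLp.norm_eq_sum prPos, ← Real.rpow_mul (Finset.sum_nonneg fun i _ => by positivity),
    one_div_mul_cancel prPos.ne', Real.rpow_one]

lemma pl_coord (g : PiLp p (fun _ : ι => ℂ) →ₗ[ℂ] ℂ) (c : ι → ℂ) [DecidableEq ι] :
    g (WithLp.toLp p c) = ∑ i, g (WithLp.toLp p (Pi.single i 1)) * c i := by
  have h1 : (WithLp.toLp p c : PiLp p (fun _ : ι => ℂ)) =
      ∑ i, c i • WithLp.toLp p (Pi.single i 1) := by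
    ext k
    simp [Pi.single_apply]
  rw [h1, map_sum]
  apply Finset.sum_congr rfl
  intro i _
  rw [map_smul, smul_eq_mul, mul_comm]

lemma fd_norming (u : ι → ℂ) (hu : ∑ i, ‖u i‖ ^ p.toReal ≠ 0) :
    ∃ φ : ι → ℂ, ∑ i, φ i * u i = 1 ∧
      ∀ c : ι → ℂ, ‖∑ i, φ i * c i‖ ^ p.toReal * ∑ i, ‖u i‖ ^ p.toReal ≤
        ∑ i, ‖c i‖ ^ p.toReal := by
  classical
  set x : PiLp p (fun _ : ι => ℂ) := WithLp.toLp p u with hx
  have hx0 : ‖x‖ ≠ 0 := by
    intro h0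
    apply hu
    rw [← pl_norm, ← hx, h0, Real.zero_rpow prPos.ne']
  obtain ⟨g, hg1, hg2⟩ := exists_dual_vector ℂ x hx0
  have hsum : ∀ c : ι → ℂ, ∑ i, g (WithLp.toLp p (Pi.single i 1)) / (‖x‖ : ℂ) * c i =
      g (WithLp.toLp p c) / (‖x‖ : ℂ) := by
    intro c
    have := pl_coord (p := p) g.toLinearMap c
    simp only [ContinuousLinearMap.coe_coe] at this
    rw [this, Finset.sum_div]
    apply Finset.sum_congr rfl
    intro i _
    ring
  refine ⟨fun i => g (WithLp.toLp p (Pi.single i 1)) / (‖x‖ : ℂ), ?_, ?_⟩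
  · rw [hsum, ← hx, hg2]
    exact div_self (Complex.ofReal_ne_zero.2 hx0)
  · intro c
    rw [hsum, norm_div, Complex.norm_real, norm_norm, ← pl_norm, ← pl_norm, ← hx]
    rw [← Real.mul_rpow (by positivity) (norm_nonneg _)]
    apply Real.rpow_le_rpow (by positivity) _ prPos.le
    rw [div_mul_cancel₀ _ hx0]
    calc ‖g (WithLp.toLp p c)‖ ≤ ‖g‖ * ‖WithLp.toLp p c‖ := g.le_opNorm _
      _ = _ := by rw [hg1, one_mul]

variable {κ : Type} [Fintype κ]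

lemma fd_right (m : ι → κ → ℂ) (y : ι → ℂ) {ε : ℝ} (hε : 0 < ε)
    (hy : ∀ ξ : κ → ℂ, (∀ i, ∑ j, m i j * ξ j = y i) →
      ∑ i, ‖y i‖ ^ p.toReal < ε ^ p.toReal * ∑ j, ‖ξ j‖ ^ p.toReal) :
    ∃ v : ι → ℂ, ∑ i, v i * y i = 1 ∧
      ∀ ξ : κ → ℂ, ‖∑ i, v i * ∑ j, m i j * ξ j‖ ^ p.toReal * ∑ i, ‖y i‖ ^ p.toReal ≤
        ε ^ p.toReal * ∑ j, ‖ξ j‖ ^ p.toReal := by
  classical
  set E := PiLp p (fun _ : κ => ℂ)
  set F := PiLp p (fun _ : ι => ℂ)
  set Y : F := WithLp.toLp p y with hY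
  let Φ₀ : (κ → ℂ) →ₗ[ℂ] (ι → ℂ) :=
    { toFun := fun ξ i => ∑ j, m i j * ξ j
      map_add' := fun ξ η => by funext i; simp [mul_add, Finset.sum_add_distrib]
      map_smul' := fun c ξ => by funext i; simp [Finset.mul_sum, mul_left_comm] }
  let Φ₁ : E →ₗ[ℂ] F := (WithLp.linearEquiv p ℂ (ι → ℂ)).symm.toLinearMap ∘ₗ Φ₀ ∘ₗ
    (WithLp.linearEquiv p ℂ (κ → ℂ)).toLinearMap
  let Φ : E →L[ℂ] F := LinearMap.toContinuousLinearMap Φ₁
  have hΦ : ∀ ξ : κ → ℂ, Φ (WithLp.toLp p ξ) = WithLp.toLp p (fun i => ∑ j, m i j * ξ j) :=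
    fun ξ => rfl
  have hr : 0 < p.toReal := prPos
  -- `y ≠ 0`
  have hY0 : 0 < ‖Y‖ := by
    by_contra hle
    have h0 : ‖Y‖ = 0 := le_antisymm (not_lt.1 hle) (norm_nonneg _)
    have h1 : Y = 0 := norm_eq_zero.1 h0
    have h2 : y = 0 := by
      have := congrArg (WithLp.ofLp) h1
      exact this
    have h3 := hy 0 (by intro i; rw [h2]; simp)
    rw [h2] at h3
    simp [Real.zero_rpow hr.ne'] at h3
  set ρ : ℝ := ε⁻¹ * ‖Y‖ with hρ
  have hρ0 : 0 < ρ := by positivity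
  set 𝒞 : Set F := Φ '' Metric.closedBall 0 ρ with h𝒞
  have hconv : Convex ℝ 𝒞 := by
    have h1 : Convex ℝ (Metric.closedBall (0 : E) ρ) := convex_closedBall 0 ρ
    have h2 := h1.linear_image ((Φ : E →ₗ[ℂ] F).restrictScalars ℝ)
    exact h2
  have : ProperSpace E := FiniteDimensional.proper ℂ E
  have hclosed : IsClosed 𝒞 := ((isCompact_closedBall (0 : E) ρ).image Φ.continuous).isClosed
  have hnot : Y ∉ 𝒞 := by
    rintro ⟨ξ, hξ, hξY⟩
    rw [Metric.mem_closedBall, dist_zero_right] at hξ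
    have h1 : ∀ i, ∑ j, m i j * (WithLp.ofLp ξ) j = y i := by
      intro i
      have h2 : Φ ξ = WithLp.toLp p (fun i => ∑ j, m i j * (WithLp.ofLp ξ) j) := rfl
      rw [h2] at hξY
      exact congrFun (WithLp.toLp_injective p hξY) i
    have h3 := hy _ h1
    rw [← pl_norm (p := p), ← pl_norm (p := p)] at h3
    rw [← Real.mul_rpow hε.le (norm_nonneg _)] at h3
    have h4 := (Real.rpow_lt_rpow_iff (norm_nonneg _) (by positivity) hr).1 h3
    have h5 : ‖(WithLp.toLp p (WithLp.ofLp ξ) : E)‖ = ‖ξ‖ := rfl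
    rw [h5] at h4
    have h6 : ε * ‖ξ‖ ≤ ‖Y‖ := by
      calc ε * ‖ξ‖ ≤ ε * ρ := by gcongr
        _ = ‖Y‖ := by rw [hρ]; field_simp
    exact absurd (h4.trans_le h6) (lt_irrefl _)
  obtain ⟨f, u, hf1, hf2⟩ := RCLike.geometric_hahn_banach_closed_point (𝕜 := ℂ) hconv hclosed hnot
  -- bound on the ball
  have hball : ∀ ξ : E, ‖ξ‖ ≤ ρ → ‖f (Φ ξ)‖ ≤ u := by
    intro ξ hξ
    by_cases hz : f (Φ ξ) = 0
    · rw [hz, norm_zero]
      have := hf1 0 ⟨0, by simp [hρ0.le], by simp⟩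
      simp at this
      exact this.le
    · set z := f (Φ ξ) with hzdef
      set c : ℂ := (starRingEnd ℂ) z / ‖z‖ with hc
      have hzn : (‖z‖ : ℂ) ≠ 0 := by
        exact_mod_cast norm_ne_zero_iff.2 hz
      have hcn : ‖c‖ = 1 := by
        rw [hc, norm_div, Complex.norm_real, norm_norm, RCLike.norm_conj,
          div_self (norm_ne_zero_iff.2 hz)]
      have h1 := hf1 (Φ (c • ξ)) ⟨c • ξ, by
        rw [Metric.mem_closedBall, dist_zero_right, norm_smul, hcn, one_mul]; exact hξ, rfl⟩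
      rw [map_smul, map_smul, ← hzdef, smul_eq_mul] at h1
      have h2 : c * z = (‖z‖ : ℂ) := by
        rw [hc, div_mul_eq_mul_div, mul_comm, RCLike.mul_conj]
        field_simp
        rfl
      rw [h2] at h1
      have h3 : RCLike.re ((‖z‖ : ℝ) : ℂ) = ‖z‖ := Complex.ofReal_re _
      rw [h3] at h1
      exact h1.le
  have hu0 : 0 ≤ u := (norm_nonneg _).trans (hball 0 (by simp [hρ0.le]))
  have hfY : u < ‖f Y‖ := hf2.trans_le (RCLike.re_le_norm _)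
  have hfY0 : 0 < ‖f Y‖ := hu0.trans_lt hfY
  have hfY0' : f Y ≠ 0 := norm_pos_iff.1 hfY0
  have hop : ∀ ξ : E, ‖f (Φ ξ)‖ * ρ ≤ u * ‖ξ‖ := by
    intro ξ
    by_cases hξ : ξ = 0
    · rw [hξ]; simp
    · have hξn : 0 < ‖ξ‖ := norm_pos_iff.2 hξ
      have h1 := hball (((ρ / ‖ξ‖ : ℝ) : ℂ) • ξ) (by
        rw [norm_smul, Complex.norm_real, Real.norm_of_nonneg (by positivity),
          div_mul_cancel₀ _ hξn.ne'])
      rw [map_smul, map_smul, norm_smul, Complex.norm_real,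
        Real.norm_of_nonneg (by positivity)] at h1
      rw [div_mul_eq_mul_div, div_le_iff₀ hξn] at h1
      linarith
  have hsum : ∀ w : ι → ℂ, ∑ i, f (WithLp.toLp p (Pi.single i 1)) / f Y * w i =
      f (WithLp.toLp p w) / f Y := by
    intro w
    have := pl_coord (p := p) f.toLinearMap w
    simp only [ContinuousLinearMap.coe_coe] at this
    rw [this, Finset.sum_div]
    apply Finset.sum_congr rfl
    intro i _
    ring
  refine ⟨fun i => f (WithLp.toLp p (Pi.single i 1)) / f Y, ?_, ?_⟩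
  · rw [hsum, ← hY, div_self hfY0']
  · intro ξ
    rw [hsum, ← hΦ, ← pl_norm, ← pl_norm, ← hY, norm_div]
    rw [← Real.mul_rpow (by positivity) (norm_nonneg _),
      ← Real.mul_rpow hε.le (norm_nonneg _)]
    apply Real.rpow_le_rpow (by positivity) _ hr.le
    set ξ' : E := WithLp.toLp p ξ
    have h1 := hop ξ'
    rw [div_mul_eq_mul_div, div_le_iff₀ hfY0]
    have h2 : ‖f (Φ ξ')‖ * ‖Y‖ = ε * (‖f (Φ ξ')‖ * ρ) := by
      rw [hρ]; field_simp
    rw [h2]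
    calc ε * (‖f (Φ ξ')‖ * ρ) ≤ ε * (u * ‖ξ'‖) := by gcongr
      _ ≤ ε * (‖f Y‖ * ‖ξ'‖) := by gcongr
      _ = ε * ‖ξ'‖ * ‖f Y‖ := by ring

end

end H382FP
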