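import Mathlib
import Pool.Agent.H382R3.FP.Bad
import Pool.Agent.H382R3.FP.Fd

/-!
# Window data for bad windows (helper382, for MP_1d722c_an)
-/

set_option autoImplicit false
set_option linter.unusedSectionVars false

open scoped ENNReal
open MeasureTheory Topology

namespace H382FP

section sums

lemma sum_range_mul' {M : Type*} [AddCommMonoid M] (f : ℕ → M) (n m : ℕ) :
    ∑ i ∈ Finset.range (n * m), f i = ∑ k ∈ Finset.range n, ∑ t ∈ Finset.range m, f (k * m + t) := by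
  induction n with
  | zero => simp
  | succ n ih => rw [Nat.succ_mul, Finset.sum_range_add, ih, Finset.sum_range_succ]

lemma sum_window {M : Type*} [AddCommMonoid M] (F : ℕ → M) (N L : ℕ)
    (hF : ∀ i, ¬(N ≤ i ∧ i < N + L) → F i = 0) :
    ∑ i ∈ Finset.range (L + 2 * N), F i = ∑ i ∈ Finset.range L, F (N + i) := by
  have h1 : ∑ i ∈ Finset.Ico N (N + L), F i = ∑ i ∈ Finset.range L, F (N + i) := by
    rw [Finset.sum_Ico_eq_sum_range, Nat.add_sub_cancel_left]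
  rw [← h1]
  symm
  apply Finset.sum_subset
  · intro i hi
    rw [Finset.mem_Ico] at hi
    rw [Finset.mem_range]
    omega
  · intro i _ hi
    rw [Finset.mem_Ico] at hi
    exact hF i hi

end sums

variable {p : ℝ≥0∞} [Fact (1 ≤ p)] [hpt : Fact (p ≠ ∞)]

lemma fd_norming' (n : ℕ) (u : ℕ → ℂ) (hu : ∑ i ∈ Finset.range n, ‖u i‖ ^ p.toReal ≠ 0) :
    ∃ φ : ℕ → ℂ, ∑ i ∈ Finset.range n, φ i * u i = 1 ∧
      ∀ c : ℕ → ℂ, ‖∑ i ∈ Finset.range n, φ i * c i‖ ^ p.toReal *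
        ∑ i ∈ Finset.range n, ‖u i‖ ^ p.toReal ≤ ∑ i ∈ Finset.range n, ‖c i‖ ^ p.toReal := by
  obtain ⟨φ, h1, h2⟩ := fd_norming (p := p) (fun i : Fin n => u i) (by
    rwa [Finset.sum_range] at hu)
  have e : ∀ c : ℕ → ℂ, ∑ i ∈ Finset.range n, (if hi : i < n then φ ⟨i, hi⟩ else 0) * c i =
      ∑ i : Fin n, φ i * c i := by
    intro c
    rw [Finset.sum_range]
    apply Finset.sum_congr rfl
    intro i _
    rw [dif_pos i.2]
  refine ⟨fun i => if hi : i < n then φ ⟨i, hi⟩ else 0, ?_, ?_⟩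
  · rw [e, h1]
  · intro c
    rw [e, Finset.sum_range, Finset.sum_range]
    exact h2 _

lemma fd_right' (L n : ℕ) (m : ℕ → ℕ → ℂ) (y : ℕ → ℂ) {ε : ℝ} (hε : 0 < ε)
    (hy : ∀ ξ : ℕ → ℂ, (∀ j, n ≤ j → ξ j = 0) →
      (∀ i, i < L → ∑ j ∈ Finset.range n, m i j * ξ j = y i) →
      ∑ i ∈ Finset.range L, ‖y i‖ ^ p.toReal <
        ε ^ p.toReal * ∑ j ∈ Finset.range n, ‖ξ j‖ ^ p.toReal) :
    ∃ v : ℕ → ℂ, ∑ i ∈ Finset.range L, v i * y i = 1 ∧
      ∀ ξ : ℕ → ℂ, ‖∑ i ∈ Finset.range L, v i * ∑ j ∈ Finset.range n, m i j * ξ j‖ ^ p.toReal *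
          ∑ i ∈ Finset.range L, ‖y i‖ ^ p.toReal ≤
        ε ^ p.toReal * ∑ j ∈ Finset.range n, ‖ξ j‖ ^ p.toReal := by
  obtain ⟨v, h1, h2⟩ := fd_right (p := p) (ι := Fin L) (κ := Fin n) (fun i j => m i j)
    (fun i => y i) hε (by
      intro ξ hξ
      have h3 := hy (fun j => if hj : j < n then ξ ⟨j, hj⟩ else 0)
        (fun j hj => dif_neg (not_lt.2 hj)) (by
          intro i hi
          rw [← hξ ⟨i, hi⟩, Finset.sum_range]
          apply Finset.sum_congr rfl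
          intro j _
          rw [dif_pos j.2])
      rw [Finset.sum_range, Finset.sum_range] at h3
      have h4 : ∑ j : Fin n, ‖(if hj : (j : ℕ) < n then ξ ⟨j, hj⟩ else 0)‖ ^ p.toReal =
          ∑ j : Fin n, ‖ξ j‖ ^ p.toReal := by
        apply Finset.sum_congr rfl
        intro j _
        rw [dif_pos j.2]
      rw [h4] at h3
      exact h3)
  have e : ∀ c : ℕ → ℂ, ∑ i ∈ Finset.range L, (if hi : i < L then v ⟨i, hi⟩ else 0) * c i =
      ∑ i : Fin L, v i * c i := by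
    intro c
    rw [Finset.sum_range]
    apply Finset.sum_congr rfl
    intro i _
    rw [dif_pos i.2]
  refine ⟨fun i => if hi : i < L then v ⟨i, hi⟩ else 0, ?_, ?_⟩
  · rw [e, h1]
  · intro ξ
    rw [e, Finset.sum_range (fun i => ‖y i‖ ^ p.toReal),
      Finset.sum_range (fun i => ‖ξ i‖ ^ p.toReal)]
    have h3 := h2 (fun j => ξ j)
    have h4 : ∀ i : Fin L, ∑ j ∈ Finset.range n, m i j * ξ j = ∑ j : Fin n, m i j * ξ j := by
      intro i
      rw [Finset.sum_range]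
    simp only [h4]
    exact h3

variable {X : Type} [TopologicalSpace X] [CompactSpace X] {h : X ≃ₜ X}

/-- left bad windows -/
def LB (a : CC p X h) (N L : ℕ) (ε : ℝ) (x : X) : Prop :=
  ∃ ξ : ℤ → ℂ, (∀ i, ξ i ≠ 0 → (N : ℤ) ≤ i ∧ i < N + L) ∧
    ∑ i ∈ Finset.range (L + 2 * N), ‖ev x a ξ i‖ ^ p.toReal <
      ε ^ p.toReal * ∑ i ∈ Finset.range (L + 2 * N), ‖ξ i‖ ^ p.toReal

/-- right bad windows -/
def RB (a : CC p X h) (N L : ℕ) (ε : ℝ) (x : X) : Prop :=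
  ∃ y : ℤ → ℂ, (∀ i, y i ≠ 0 → (N : ℤ) ≤ i ∧ i < N + L) ∧
    ∀ ξ : ℤ → ℂ, (∀ i, ξ i ≠ 0 → 0 ≤ i ∧ i < L + 2 * N) →
      (∀ i : ℤ, (N : ℤ) ≤ i → i < N + L → ev x a ξ i = y i) →
      ∑ i ∈ Finset.range (L + 2 * N), ‖y i‖ ^ p.toReal <
        ε ^ p.toReal * ∑ i ∈ Finset.range (L + 2 * N), ‖ξ i‖ ^ p.toReal

/-- window data, common part -/
def WD (p : ℝ≥0∞) (N L : ℕ) (ε : ℝ) (T : ℕ → ℕ → ℂ) (v : ℤ → ℂ) (pos : ℕ) : Prop :=
  MB p.toReal (L + 2 * N) T ε ∧ (∀ i, v i ≠ 0 → (N : ℤ) ≤ i ∧ i < N + L) ∧ v pos ≠ 0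

/-- right kernel of a window -/
def WR (a : CC p X h) (N L : ℕ) (x : X) (T : ℕ → ℕ → ℂ) (v : ℤ → ℂ) : Prop :=
  ∀ i : ℤ, ev x a v i = if 0 ≤ i ∧ i < ((L + 2 * N : ℕ) : ℤ) then
    ∑ j ∈ Finset.range (L + 2 * N), T i.toNat j * v j else 0

/-- left kernel of a window -/
def WL (a : CC p X h) (N L : ℕ) (x : X) (T : ℕ → ℕ → ℂ) (v : ℤ → ℂ) : Prop :=
  ∀ ζ : ℤ → ℂ, ∑ i ∈ Finset.range (L + 2 * N), v i * ev x a ζ i =
    ∑ i ∈ Finset.range (L + 2 * N), v i * ∑ j ∈ Finset.range (L + 2 * N), T i j * ζ j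

lemma LB.win {a : CC p X h} {N L : ℕ} {ε : ℝ} (hε : 0 < ε) {x : X} (hN : Band N a)
    (hb : LB a N L ε x) :
    ∃ T v pos, WD p N L ε T v pos ∧ WR a N L x T v := by
  obtain ⟨ξ, hs, hlt⟩ := hb
  have hr : 0 < p.toReal := prPos
  set n := L + 2 * N with hn
  have hne : ∑ i ∈ Finset.range n, ‖ξ i‖ ^ p.toReal ≠ 0 := by
    intro h0
    rw [h0, mul_zero] at hlt
    exact absurd hlt (not_lt.2 (Finset.sum_nonneg fun i _ => by positivity))
  have hpos : 0 < ∑ i ∈ Finset.range n, ‖ξ i‖ ^ p.toReal :=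
    lt_of_le_of_ne (Finset.sum_nonneg fun i _ => by positivity) (Ne.symm hne)
  obtain ⟨φ, h1, h2⟩ := fd_norming' (p := p) n (fun i => ξ i) hne
  obtain ⟨pos, hpr, hposne⟩ := Finset.exists_ne_zero_of_sum_ne_zero hne
  have hξpos : ξ pos ≠ 0 := by
    intro h0
    rw [h0, norm_zero, Real.zero_rpow hr.ne'] at hposne
    exact hposne rfl
  refine ⟨fun i j => ev x a ξ i * φ j, ξ, pos, ⟨?_, hs, hξpos⟩, ?_⟩
  · intro c
    have e1 : ∀ i ∈ Finset.range n, ‖∑ j ∈ Finset.range n, ev x a ξ i * φ j * c j‖ ^ p.toReal =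
        ‖ev x a ξ i‖ ^ p.toReal * ‖∑ j ∈ Finset.range n, φ j * c j‖ ^ p.toReal := by
      intro i _
      rw [← Real.mul_rpow (norm_nonneg _) (norm_nonneg _), ← norm_mul, Finset.mul_sum]
      simp only [mul_assoc]
    rw [Finset.sum_congr rfl e1, ← Finset.sum_mul]
    calc _ ≤ ε ^ p.toReal * (∑ i ∈ Finset.range n, ‖ξ i‖ ^ p.toReal) *
          ‖∑ j ∈ Finset.range n, φ j * c j‖ ^ p.toReal :=
          mul_le_mul_of_nonneg_right hlt.le (by positivity)
      _ = ε ^ p.toReal * (‖∑ j ∈ Finset.range n, φ j * c j‖ ^ p.toReal *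
          (∑ i ∈ Finset.range n, ‖ξ i‖ ^ p.toReal)) := by ring
      _ ≤ _ := mul_le_mul_of_nonneg_left (h2 c) (by positivity)
  · intro i
    rw [← hn]
    by_cases hi : 0 ≤ i ∧ i < n
    · rw [if_pos hi]
      have e2 : ((i.toNat : ℕ) : ℤ) = i := Int.toNat_of_nonneg hi.1
      simp only [e2, mul_assoc]
      rw [← Finset.mul_sum, h1, mul_one]
    · rw [if_neg hi]
      have e3 : ev x a ξ i = ev x a 0 i := by
        apply ev_local hN
        intro j hj
        rw [abs_le] at hj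
        by_contra hne2
        have := hs j hne2
        apply hi
        omega
      rw [e3, map_zero]; rfl

lemma RB.win {a : CC p X h} {N L : ℕ} {ε : ℝ} (hε : 0 < ε) {x : X} (hN : Band N a)
    (hb : RB a N L ε x) :
    ∃ T v pos, WD p N L ε T v pos ∧ WL a N L x T v := by
  obtain ⟨y, hs, hno⟩ := hb
  have hr : 0 < p.toReal := prPos
  set n := L + 2 * N with hn
  set m : ℕ → ℕ → ℂ := fun i j => ev x a (Pi.single (j : ℤ) 1) (((N + i : ℕ) : ℤ)) with hm
  have hev : ∀ ζ : ℤ → ℂ, ∀ i, i < L → ev x a ζ (((N + i : ℕ) : ℤ)) =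
      ∑ j ∈ Finset.range n, m i j * ζ j := by
    intro ζ i hi
    have e1 : ev x a ζ (((N + i : ℕ) : ℤ)) = ev x a (resB n ζ) (((N + i : ℕ) : ℤ)) := by
      apply ev_local hN
      intro j hj
      rw [abs_le] at hj
      unfold resB
      rw [if_pos]
      omega
    rw [e1, resB_eq, ev_sum_single]
  have hyw : ∑ i ∈ Finset.range n, ‖y i‖ ^ p.toReal =
      ∑ i ∈ Finset.range L, ‖y (((N + i : ℕ) : ℤ))‖ ^ p.toReal := by
    apply sum_window (fun i : ℕ => ‖y i‖ ^ p.toReal)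
    intro i hi
    have : y i = 0 := by
      by_contra hne
      apply hi
      have := hs _ hne
      omega
    rw [this, norm_zero, Real.zero_rpow hr.ne']
  obtain ⟨v, h1, h2⟩ := fd_right' (p := p) L n m (fun i => y (((N + i : ℕ) : ℤ))) hε (by
    intro ξ hξ1 hξ2
    set ξ' : ℤ → ℂ := fun j => if 0 ≤ j ∧ j < n then ξ j.toNat else 0 with hξ'
    have e2 : ∀ j ∈ Finset.range n, ξ' (j : ℤ) = ξ j := by
      intro j hj
      rw [Finset.mem_range] at hj
      simp only [hξ']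
      rw [if_pos ⟨by omega, by omega⟩, Int.toNat_natCast]
    have h3 := hno ξ' (by
      intro i hi
      by_contra hne
      apply hi
      simp only [hξ']
      rw [if_neg]
      omega) (by
      intro i hi1 hi2
      obtain ⟨k, rfl⟩ : ∃ k : ℕ, i = ((N + k : ℕ) : ℤ) := ⟨(i - N).toNat, by
        rw [Nat.cast_add, Int.toNat_of_nonneg (by omega)]; ring⟩
      have hk : k < L := by omega
      rw [hev ξ' k hk, ← hξ2 k hk]
      apply Finset.sum_congr rfl
      intro j hj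
      rw [e2 j hj])
    rw [hyw] at h3
    have e3 : ∑ i ∈ Finset.range n, ‖ξ' (i : ℤ)‖ ^ p.toReal =
        ∑ i ∈ Finset.range n, ‖ξ i‖ ^ p.toReal := by
      apply Finset.sum_congr rfl
      intro j hj
      rw [e2 j hj]
    rw [e3] at h3
    exact h3)
  set v' : ℤ → ℂ := fun i => if (N : ℤ) ≤ i ∧ i < N + L then v (i - N).toNat else 0 with hv'
  have ev' : ∀ i, i < L → v' (((N + i : ℕ) : ℤ)) = v i := by
    intro i hi
    simp only [hv']
    rw [if_pos ⟨by omega, by omega⟩]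
    congr 1
    omega
  have v'0 : ∀ i : ℕ, ¬(N ≤ i ∧ i < N + L) → v' i = 0 := by
    intro i hi
    simp only [hv']
    rw [if_neg]
    omega
  have hne : ∑ i ∈ Finset.range L, v i * y (((N + i : ℕ) : ℤ)) ≠ 0 := by rw [h1]; exact one_ne_zero
  obtain ⟨k, hk, hkne⟩ := Finset.exists_ne_zero_of_sum_ne_zero hne
  rw [Finset.mem_range] at hk
  -- the matrix
  set T : ℕ → ℕ → ℂ := fun i j => y i * ∑ i' ∈ Finset.range L, v i' * m i' j with hT
  have hTsum : ∀ c : ℕ → ℂ, ∀ i, ∑ j ∈ Finset.range n, T i j * c j =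
      y i * ∑ i' ∈ Finset.range L, v i' * ∑ j ∈ Finset.range n, m i' j * c j := by
    intro c i
    simp only [hT, mul_assoc]
    rw [← Finset.mul_sum]
    congr 1
    simp only [Finset.sum_mul, Finset.mul_sum]
    rw [Finset.sum_comm]
    apply Finset.sum_congr rfl
    intro i' _
    apply Finset.sum_congr rfl
    intro j _
    ring
  refine ⟨T, v', N + k, ⟨?_, ?_, ?_⟩, ?_⟩
  · intro c
    have e1 : ∀ i ∈ Finset.range n, ‖∑ j ∈ Finset.range n, T i j * c j‖ ^ p.toReal =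
        ‖y i‖ ^ p.toReal *
          ‖∑ i' ∈ Finset.range L, v i' * ∑ j ∈ Finset.range n, m i' j * c j‖ ^ p.toReal := by
      intro i _
      rw [hTsum, norm_mul, Real.mul_rpow (norm_nonneg _) (norm_nonneg _)]
    rw [Finset.sum_congr rfl e1, ← Finset.sum_mul, hyw, mul_comm]
    exact h2 c
  · intro i hi
    by_contra hne
    apply hi
    simp only [hv']
    rw [if_neg hne]
  · rw [ev' k hk]
    intro h0
    rw [h0, zero_mul] at hkne
    exact hkne rfl
  · intro ζ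
    rw [← hn]
    rw [sum_window (fun i : ℕ => v' i * ev x a ζ i) N L (fun i hi => by
      show v' i * _ = 0
      rw [v'0 i hi, zero_mul])]
    rw [sum_window (fun i : ℕ => v' i * ∑ j ∈ Finset.range n, T i j * ζ j) N L (fun i hi => by
      show v' i * _ = 0
      rw [v'0 i hi, zero_mul])]
    have e4 : ∀ i ∈ Finset.range L, v' (((N + i : ℕ) : ℤ)) * ev x a ζ (((N + i : ℕ) : ℤ)) =
        v i * ∑ j ∈ Finset.range n, m i j * ζ j := by
      intro i hi
      rw [Finset.mem_range] at hi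
      rw [ev' i hi, hev ζ i hi]
    have e5 : ∀ i ∈ Finset.range L, v' (((N + i : ℕ) : ℤ)) *
        ∑ j ∈ Finset.range n, T (N + i) j * ζ j =
        (v i * y (((N + i : ℕ) : ℤ))) *
          ∑ i' ∈ Finset.range L, v i' * ∑ j ∈ Finset.range n, m i' j * ζ j := by
      intro i hi
      rw [Finset.mem_range] at hi
      rw [ev' i hi, hTsum (fun j => ζ j)]
      ring
    rw [Finset.sum_congr rfl e4, Finset.sum_congr rfl e5, ← Finset.sum_mul, h1, one_mul]

end H382FP
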