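import Mathlib
import Pool.Agent.H382R3.FP.Win2

/-!
# Assembling windows into blocks (helper382, for MP_1d722c_an)
-/

set_option autoImplicit false
set_option linter.unusedSectionVars false

open scoped ENNReal
open MeasureTheory Topology

namespace H382FP

/-- block-diagonal matrix with `K` blocks of size `n` -/
noncomputable def bd (T : ℕ → ℕ → ℕ → ℂ) (K n : ℕ) (i j : ℕ) : ℂ :=
  if (i < K * n ∧ j < K * n) ∧ i / n = j / n then T (i / n) (i % n) (j % n) else 0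

lemma divmod {k n t : ℕ} (ht : t < n) : (k * n + t) / n = k ∧ (k * n + t) % n = t := by
  have hn : 0 < n := by omega
  constructor
  · rw [mul_comm, Nat.mul_add_div hn, Nat.div_eq_of_lt ht, add_zero]
  · rw [mul_comm, Nat.mul_add_mod, Nat.mod_eq_of_lt ht]

lemma lt_block {k K n t : ℕ} (hk : k < K) (ht : t < n) : k * n + t < K * n := by
  have : (k + 1) * n ≤ K * n := Nat.mul_le_mul_right n hk
  rw [Nat.succ_mul] at this
  omega

lemma bd_row (T : ℕ → ℕ → ℕ → ℂ) {K n k t : ℕ} (hk : k < K) (ht : t < n) (c : ℕ → ℂ) :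
    ∑ j ∈ Finset.range (K * n), bd T K n (k * n + t) j * c j =
      ∑ s ∈ Finset.range n, T k t s * c (k * n + s) := by
  rw [sum_range_mul', Finset.sum_eq_single k]
  · apply Finset.sum_congr rfl
    intro s hs
    rw [Finset.mem_range] at hs
    unfold bd
    rw [if_pos ⟨⟨lt_block hk ht, lt_block hk hs⟩, by rw [(divmod ht).1, (divmod hs).1]⟩,
      (divmod ht).1, (divmod ht).2, (divmod hs).2]
  · intro k' _ hk'
    apply Finset.sum_eq_zero
    intro s hs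
    rw [Finset.mem_range] at hs
    unfold bd
    rw [if_neg, zero_mul]
    rintro ⟨_, h2⟩
    rw [(divmod ht).1, (divmod hs).1] at h2
    exact hk' h2.symm
  · intro h1
    exact absurd (Finset.mem_range.2 hk) h1

variable {p : ℝ≥0∞} [Fact (1 ≤ p)] [hpt : Fact (p ≠ ∞)]
variable {X : Type} [TopologicalSpace X] [CompactSpace X] {h : X ≃ₜ X}

lemma bd_MB {T : ℕ → ℕ → ℕ → ℂ} {K n : ℕ} {r ε : ℝ} (hT : ∀ k, MB r n (T k) ε) :
    MB r (K * n) (bd T K n) ε := by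
  intro c
  rw [sum_range_mul', sum_range_mul' (fun j => ‖c j‖ ^ r), Finset.mul_sum]
  apply Finset.sum_le_sum
  intro k hk
  rw [Finset.mem_range] at hk
  refine le_trans (le_of_eq ?_) (hT k (fun s => c (k * n + s)))
  apply Finset.sum_congr rfl
  intro t ht
  rw [Finset.mem_range] at ht
  rw [bd_row T hk ht]

lemma bd_supp (T : ℕ → ℕ → ℕ → ℂ) (K n : ℕ) :
    ∀ t j : ℕ, ¬(t < K * n ∧ j < K * n) → bd T K n t j = 0 := by
  intro t j htj
  unfold bd
  rw [if_neg (fun h1 => htj h1.1)]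

/-- the shifted kernel vectors -/
def sv (v : ℕ → ℤ → ℂ) (n : ℕ) (K : ℕ) (k : Fin K) : ℤ → ℂ := fun i => v k (i - ((k : ℕ) * n : ℕ))

lemma mul_out {k k' n : ℕ} {s : ℤ} (hkk : k' ≠ k) (h0 : 0 ≤ s) (hs : s < n) :
    ¬(0 ≤ ((k' * n : ℕ) : ℤ) + s - ((k * n : ℕ) : ℤ) ∧
      ((k' * n : ℕ) : ℤ) + s - ((k * n : ℕ) : ℤ) < n) := by
  rcases Nat.lt_or_gt_of_ne hkk with h1 | h1
  · have h2 : (k' + 1) * n ≤ k * n := Nat.mul_le_mul_right n h1
    rw [Nat.succ_mul] at h2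
    omega
  · have h2 : (k + 1) * n ≤ k' * n := Nat.mul_le_mul_right n h1
    rw [Nat.succ_mul] at h2
    omega

lemma VS_of {N L : ℕ} {ε : ℝ} {T : ℕ → ℕ → ℕ → ℂ} {v : ℕ → ℤ → ℂ} {pos : ℕ → ℕ}
    (hW : ∀ k, WD p N L ε (T k) (v k) (pos k)) :
    VS N (2 * N * (L + 2 * N)) (sv v (L + 2 * N) (2 * N))
      (fun k => (k : ℕ) * (L + 2 * N) + pos k) := by
  refine ⟨?_, ?_, ?_⟩
  · intro k i hi
    have h1 := (hW k).2.1 _ hi
    have h2 : ((k : ℕ) + 1) * (L + 2 * N) ≤ 2 * N * (L + 2 * N) := Nat.mul_le_mul_right _ k.2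
    rw [Nat.succ_mul] at h2
    omega
  · intro k
    show v k ((((k : ℕ) * (L + 2 * N) + pos k : ℕ) : ℤ) - (((k : ℕ) * (L + 2 * N) : ℕ) : ℤ)) ≠ 0
    have : ((((k : ℕ) * (L + 2 * N) + pos k : ℕ) : ℤ) - (((k : ℕ) * (L + 2 * N) : ℕ) : ℤ)) =
        pos k := by
      rw [Nat.cast_add]; ring
    rw [this]
    exact (hW k).2.2
  · intro k k' hkk
    by_contra hne
    have h1 := (hW k').2.1 _ hne
    have h2 := (hW k).2.1 _ (hW k).2.2
    have h3 : (k : ℕ) ≠ (k' : ℕ) := fun h4 => hkk (Fin.ext h4.symm)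
    have h4 := mul_out (n := L + 2 * N) (s := (pos k : ℤ)) h3 (by omega) (by push_cast; omega)
    apply h4
    rw [Nat.cast_add] at h1
    push_cast at h1 ⊢
    omega

lemma asmR {a : CC p X h} {N L : ℕ} {ε : ℝ} {x : X} {T : ℕ → ℕ → ℕ → ℂ} {v : ℕ → ℤ → ℂ}
    {pos : ℕ → ℕ} (hW : ∀ k, WD p N L ε (T k) (v k) (pos k))
    (hR : ∀ k : ℕ, WR a N L ((h ^ (((k * (L + 2 * N) : ℕ)) : ℤ)) x) (T k) (v k)) :
    KerR a N (2 * N * (L + 2 * N)) x (bd T (2 * N) (L + 2 * N)) := by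
  refine ⟨sv v (L + 2 * N) (2 * N), _, VS_of hW, ?_⟩
  intro k i
  set n := L + 2 * N with hn
  have h1 := ev_shift x a (((k : ℕ) * n : ℕ) : ℤ) (v k) ((i : ℤ) - (((k : ℕ) * n : ℕ) : ℤ))
  rw [sub_add_cancel] at h1
  have h2 : ev x a (sv v n (2 * N) k) i =
      if 0 ≤ (i : ℤ) - (((k : ℕ) * n : ℕ) : ℤ) ∧ (i : ℤ) - (((k : ℕ) * n : ℕ) : ℤ) < (n : ℤ) then
        ∑ j ∈ Finset.range n, T k ((i : ℤ) - (((k : ℕ) * n : ℕ) : ℤ)).toNat j * v k j else 0 := by
    have h3 := hR k ((i : ℤ) - (((k : ℕ) * n : ℕ) : ℤ))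
    rw [h1] at h3
    exact h3
  rw [h2]
  by_cases hi : i < 2 * N * n
  · have hn0 : 0 < n := by
      rcases Nat.eq_zero_or_pos n with h0 | h0
      · rw [h0, mul_zero] at hi; omega
      · exact h0
    have hdm : i = (i / n) * n + i % n := by
      rw [mul_comm]; exact (Nat.div_add_mod i n).symm
    have ht : i % n < n := Nat.mod_lt _ hn0
    have hk' : i / n < 2 * N := (Nat.div_lt_iff_lt_mul hn0).2 hi
    obtain ⟨k', t, hik, ht', hk''⟩ : ∃ k' t, i = k' * n + t ∧ t < n ∧ k' < 2 * N :=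
      ⟨i / n, i % n, hdm, ht, hk'⟩
    clear hdm ht hk'
    have ht := ht'
    have hk' := hk''
    subst hik
    rw [bd_row T hk' ht]
    by_cases hkk : k' = k
    · subst hkk
      have e1 : (((k : ℕ) * n + t : ℕ) : ℤ) - (((k : ℕ) * n : ℕ) : ℤ) = t := by
        rw [Nat.cast_add]; ring
      rw [e1, if_pos ⟨by omega, by omega⟩, Int.toNat_natCast]
      apply Finset.sum_congr rfl
      intro s _
      congr 1
      show v k s = v k ((((k : ℕ) * n + s : ℕ) : ℤ) - (((k : ℕ) * n : ℕ) : ℤ))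
      congr 1
      rw [Nat.cast_add]; ring
    · rw [if_neg, Finset.sum_eq_zero]
      · intro s hs
        rw [Finset.mem_range] at hs
        have : sv v n (2 * N) k (((k' * n + s : ℕ) : ℤ)) = 0 := by
          by_contra hne
          have h4 := (hW k).2.1 _ hne
          have h5 := mul_out (n := n) (s := (s : ℤ)) hkk (by omega) (by omega)
          apply h5
          rw [Nat.cast_add] at h4
          omega
        rw [this, mul_zero]
      · have h5 := mul_out (n := n) (s := (t : ℤ)) hkk (by omega) (by omega)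
        rw [Nat.cast_add]
        exact h5
  · rw [if_neg, Finset.sum_eq_zero]
    · intro j _
      rw [bd_supp T _ _ _ _ (fun h3 => hi h3.1), zero_mul]
    · have h2 : ((k : ℕ) + 1) * n ≤ 2 * N * n := Nat.mul_le_mul_right _ k.2
      rw [Nat.succ_mul] at h2
      omega

lemma sum_sv {N L : ℕ} {ε : ℝ} {T : ℕ → ℕ → ℕ → ℂ} {v : ℕ → ℤ → ℂ}
    {pos : ℕ → ℕ} (hW : ∀ k, WD p N L ε (T k) (v k) (pos k)) (k : Fin (2 * N)) (F : ℕ → ℂ) :
    ∑ i ∈ Finset.range (2 * N * (L + 2 * N)), sv v (L + 2 * N) (2 * N) k i * F i =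
      ∑ t ∈ Finset.range (L + 2 * N), v k t * F ((k : ℕ) * (L + 2 * N) + t) := by
  set n := L + 2 * N with hn
  rw [sum_range_mul', Finset.sum_eq_single (k : ℕ)]
  · apply Finset.sum_congr rfl
    intro s _
    congr 1
    show v k ((((k : ℕ) * n + s : ℕ) : ℤ) - (((k : ℕ) * n : ℕ) : ℤ)) = v k s
    congr 1
    rw [Nat.cast_add]; ring
  · intro k' _ hkk
    apply Finset.sum_eq_zero
    intro s hs
    rw [Finset.mem_range] at hs
    have : sv v n (2 * N) k (((k' * n + s : ℕ) : ℤ)) = 0 := by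
      by_contra hne
      have h4 := (hW k).2.1 _ hne
      have h5 := mul_out (n := n) (s := (s : ℤ)) hkk (by omega) (by omega)
      apply h5
      rw [Nat.cast_add] at h4
      omega
    rw [this, zero_mul]
  · intro h1
    exact absurd (Finset.mem_range.2 k.2) h1

lemma asmL {a : CC p X h} {N L : ℕ} {ε : ℝ} {x : X} {T : ℕ → ℕ → ℕ → ℂ} {v : ℕ → ℤ → ℂ}
    {pos : ℕ → ℕ} (hW : ∀ k, WD p N L ε (T k) (v k) (pos k))
    (hL : ∀ k : ℕ, WL a N L ((h ^ (((k * (L + 2 * N) : ℕ)) : ℤ)) x) (T k) (v k)) :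
    KerL a N (2 * N * (L + 2 * N)) x (bd T (2 * N) (L + 2 * N)) := by
  refine ⟨sv v (L + 2 * N) (2 * N), _, VS_of hW, ?_⟩
  intro k ζ
  rw [sum_sv hW k (fun i => ev x a ζ i),
    sum_sv hW k (fun i => ∑ j ∈ Finset.range (2 * N * (L + 2 * N)),
      bd T (2 * N) (L + 2 * N) i j * ζ j)]
  set n := L + 2 * N with hn
  have h1 := hL k (fun j => ζ (j + (((k : ℕ) * n : ℕ) : ℤ)))
  have e1 : ∀ t : ℕ, ev ((h ^ (((k : ℕ) * n : ℕ) : ℤ)) x) a
      (fun j => ζ (j + (((k : ℕ) * n : ℕ) : ℤ))) t = ev x a ζ (((k : ℕ) * n + t : ℕ) : ℤ) := by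
    intro t
    rw [ev_shift]
    have e2 : (fun j : ℤ => ζ (j - (((k : ℕ) * n : ℕ) : ℤ) + (((k : ℕ) * n : ℕ) : ℤ))) = ζ := by
      funext j
      rw [sub_add_cancel]
    have e3 : (t : ℤ) + (((k : ℕ) * n : ℕ) : ℤ) = (((k : ℕ) * n + t : ℕ) : ℤ) := by
      rw [Nat.cast_add]; ring
    rw [e2, e3]
  rw [← hn] at h1
  simp only [e1] at h1
  rw [h1]
  apply Finset.sum_congr rfl
  intro t ht
  rw [Finset.mem_range] at ht
  rw [bd_row T k.2 ht]
  congr 1
  apply Finset.sum_congr rfl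
  intro s _
  congr 2
  rw [Nat.cast_add]; ring

/-- if all the windows are left bad or all the windows are right bad, then the blocks are bad -/
theorem bad_of_windows {a : CC p X h} {N L : ℕ} {ε : ℝ} (hε : 0 < ε) (hN : Band N a)
    (hb : (∀ x, LB a N L ε x) ∨ (∀ x, RB a N L ε x)) (x : X) :
    ∃ T : ℕ → ℕ → ℂ,
      (∀ t j : ℕ, ¬(t < 2 * N * (L + 2 * N) ∧ j < 2 * N * (L + 2 * N)) → T t j = 0) ∧
      MB p.toReal (2 * N * (L + 2 * N)) T ε ∧
      (KerR a N (2 * N * (L + 2 * N)) x T ∨ KerL a N (2 * N * (L + 2 * N)) x T) := by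
  rcases hb with hb | hb
  · choose T v pos hW hR using fun k : ℕ =>
      (hb ((h ^ (((k * (L + 2 * N) : ℕ)) : ℤ)) x)).win hε hN
    exact ⟨bd T (2 * N) (L + 2 * N), bd_supp _ _ _, bd_MB (fun k => (hW k).1), Or.inl (asmR hW hR)⟩
  · choose T v pos hW hL using fun k : ℕ =>
      (hb ((h ^ (((k * (L + 2 * N) : ℕ)) : ℤ)) x)).win hε hN
    exact ⟨bd T (2 * N) (L + 2 * N), bd_supp _ _ _, bd_MB (fun k => (hW k).1), Or.inr (asmL hW hL)⟩

end H382FP
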