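import Mathlib
import Pool.Agent.H382R3.FP.Asm

/-!
# The case where all windows are good (helper382, for MP_1d722c_an)
-/

set_option autoImplicit false
set_option linter.unusedSectionVars false

open scoped ENNReal
open MeasureTheory Topology

namespace H382FP

section sums

lemma sum_range_int {M : Type*} [AddCommMonoid M] (f : ℤ → M) (n : ℕ) (k : ℤ) :
    ∑ i ∈ Finset.range n, f ((i : ℤ) + k) = ∑ j ∈ Finset.Ico k (k + n), f j := by
  apply Finset.sum_bij (fun (i : ℕ) _ => (i : ℤ) + k)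
  · intro i hi
    rw [Finset.mem_range] at hi
    rw [Finset.mem_Ico]
    omega
  · intro i _ j _ hij
    omega
  · intro j hj
    rw [Finset.mem_Ico] at hj
    refine ⟨(j - k).toNat, ?_, ?_⟩
    · rw [Finset.mem_range]
      omega
    · rw [Int.toNat_of_nonneg (by omega)]; ring
  · intro i _; rfl

/-- the `ℓ^r` mass on `[s, t)` -/
noncomputable def mass (r : ℝ) (ξ : ℤ → ℂ) (s t : ℤ) : ℝ := ∑ i ∈ Finset.Ico s t, ‖ξ i‖ ^ r

lemma mass_nonneg (r : ℝ) (ξ : ℤ → ℂ) (s t : ℤ) : 0 ≤ mass r ξ s t :=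
  Finset.sum_nonneg fun _ _ => by positivity

lemma mass_mono {r : ℝ} (ξ : ℤ → ℂ) {s t s' t' : ℤ} (h1 : s' ≤ s) (h2 : t ≤ t') :
    mass r ξ s t ≤ mass r ξ s' t' := by
  apply Finset.sum_le_sum_of_subset_of_nonneg
  · exact Finset.Ico_subset_Ico h1 h2
  · intro _ _ _; positivity

lemma mass_congr {r : ℝ} {ξ η : ℤ → ℂ} {s t : ℤ} (h : ∀ i, s ≤ i → i < t → ξ i = η i) :
    mass r ξ s t = mass r η s t := by
  apply Finset.sum_congr rfl
  intro i hi
  rw [Finset.mem_Ico] at hi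
  rw [h i hi.1 hi.2]

lemma mass_split {r : ℝ} (ξ : ℤ → ℂ) {s t u : ℤ} (h1 : s ≤ t) (h2 : t ≤ u) :
    mass r ξ s u = mass r ξ s t + mass r ξ t u := by
  unfold mass
  rw [← Finset.sum_union]
  · congr 1
    ext i
    simp only [Finset.mem_union, Finset.mem_Ico]
    omega
  · rw [Finset.disjoint_left]
    intro i hi hi'
    rw [Finset.mem_Ico] at hi hi'
    omega

lemma mass_zero {r : ℝ} (hr : 0 < r) {ξ : ℤ → ℂ} {s t : ℤ} (h : ∀ i, s ≤ i → i < t → ξ i = 0) :
    mass r ξ s t = 0 := by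
  apply Finset.sum_eq_zero
  intro i hi
  rw [Finset.mem_Ico] at hi
  rw [h i hi.1 hi.2, norm_zero, Real.zero_rpow hr.ne']

lemma le_mass {r : ℝ} (ξ : ℤ → ℂ) {s t i : ℤ} (h1 : s ≤ i) (h2 : i < t) :
    ‖ξ i‖ ^ r ≤ mass r ξ s t :=
  Finset.single_le_sum (f := fun i => ‖ξ i‖ ^ r) (fun _ _ => by positivity)
    (Finset.mem_Ico.2 ⟨h1, h2⟩)

end sums

variable {p : ℝ≥0∞} [Fact (1 ≤ p)] [hpt : Fact (p ≠ ∞)]
variable {X : Type} [TopologicalSpace X] [CompactSpace X] {h : X ≃ₜ X}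

/-- all windows are left good -/
def LG (a : CC p X h) (N : ℕ) (ε : ℝ) : Prop :=
  ∀ (x : X) (s t : ℤ) (ξ : ℤ → ℂ), (∀ i, ξ i ≠ 0 → s ≤ i ∧ i < t) →
    ε ^ p.toReal * mass p.toReal ξ s t ≤ mass p.toReal (ev x a ξ) (s - N) (t + N)

lemma ev_shift' (x : X) (a : CC p X h) (k : ℤ) (ξ : ℤ → ℂ) (i : ℤ) :
    ev ((h ^ k) x) a (fun j => ξ (j + k)) i = ev x a ξ (i + k) := by
  rw [ev_shift]
  have : (fun j : ℤ => ξ (j - k + k)) = ξ := by
    funext j
    rw [sub_add_cancel]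
  rw [this]

lemma LG_of {a : CC p X h} {N : ℕ} {ε : ℝ} (hε : 0 < ε) (hb : ∀ x L, ¬ LB a N L ε x) :
    LG a N ε := by
  intro x s t ξ hξ
  by_cases hst : s ≤ t
  · obtain ⟨L, rfl⟩ : ∃ L : ℕ, t = s + L := ⟨(t - s).toNat, by
      rw [Int.toNat_of_nonneg (by omega)]; ring⟩
    have h1 := hb ((h ^ (s - N)) x) L
    unfold LB at h1
    push Not at h1
    have h2 := h1 (fun i => ξ (i + (s - N))) (by
      intro i hi
      have := hξ _ hi
      omega)
    simp only [ev_shift'] at h2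
    rw [sum_range_int (fun j => ‖ξ j‖ ^ p.toReal),
      sum_range_int (fun j => ‖ev x a ξ j‖ ^ p.toReal)] at h2
    have e2 : s - (N : ℤ) + ((L + 2 * N : ℕ) : ℤ) = s + L + N := by push_cast; ring
    rw [e2] at h2
    refine le_trans ?_ h2
    apply mul_le_mul_of_nonneg_left _ (by positivity)
    exact mass_mono ξ (by omega) (by omega)
  · have h1 : mass p.toReal ξ s t = 0 := by
      unfold mass
      rw [Finset.Ico_eq_empty (by omega), Finset.sum_empty]
    rw [h1, mul_zero]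
    exact mass_nonneg _ _ _ _

/-- approximate solutions of `a ξ = δ₀` -/
def RG (a : CC p X h) (N : ℕ) (ε : ℝ) : Prop :=
  ∀ (x : X) (R : ℕ), ∃ ξ : ℤ → ℂ, (∀ i, ξ i ≠ 0 → -(R : ℤ) - N ≤ i ∧ i < R + N + 1) ∧
    (∀ i : ℤ, -(R : ℤ) ≤ i → i ≤ R → ev x a ξ i = (Pi.single 0 1 : ℤ → ℂ) i) ∧
    ε ^ p.toReal * mass p.toReal ξ (-(R : ℤ) - N) (R + N + 1) ≤ 1

lemma RG_of {a : CC p X h} {N : ℕ} {ε : ℝ} (hb : ∀ x L, ¬ RB a N L ε x) :
    RG a N ε := by
  intro x R
  have h1 := hb ((h ^ (-(R : ℤ) - N)) x) (2 * R + 1)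
  unfold RB at h1
  push Not at h1
  obtain ⟨ξ, h2, h3, h4⟩ := h1 (Pi.single ((R : ℤ) + N) 1) (by
    intro i hi
    have : i = (R : ℤ) + N := by
      by_contra hne
      exact hi (Pi.single_eq_of_ne hne _)
    push_cast
    omega)
  set k : ℤ := -(R : ℤ) - N with hk
  set η : ℤ → ℂ := fun j => ξ (j - k) with hη
  have hξη : (fun j : ℤ => η (j + k)) = ξ := by
    funext j
    simp only [hη]
    rw [add_sub_cancel_right]
  have hr : 0 < p.toReal := prPos
  refine ⟨η, ?_, ?_, ?_⟩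
  · intro i hi
    have := h2 _ hi
    push_cast at this
    omega
  · intro i hi1 hi2
    have e1 := ev_shift' x a k η (i - k)
    rw [hξη, sub_add_cancel] at e1
    rw [← e1, h3 (i - k) (by omega) (by push_cast; omega)]
    by_cases hi0 : i = 0
    · subst hi0
      have : (0 : ℤ) - k = R + N := by omega
      rw [this, Pi.single_eq_same, Pi.single_eq_same]
    · rw [Pi.single_eq_of_ne hi0, Pi.single_eq_of_ne (by omega)]
  · have e2 : ∑ i ∈ Finset.range (2 * R + 1 + 2 * N), ‖ξ i‖ ^ p.toReal =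
        mass p.toReal η k (R + N + 1) := by
      have e3 := sum_range_int (fun j => ‖η j‖ ^ p.toReal) (2 * R + 1 + 2 * N) k
      have e4 : k + ((2 * R + 1 + 2 * N : ℕ) : ℤ) = R + N + 1 := by push_cast; omega
      rw [e4] at e3
      unfold mass
      rw [← e3]
      apply Finset.sum_congr rfl
      intro i _
      rw [← hξη]
    have e5 : ∑ i ∈ Finset.range (2 * R + 1 + 2 * N),
        ‖(Pi.single ((R : ℤ) + N) 1 : ℤ → ℂ) i‖ ^ p.toReal ≤ 1 := by
      rw [Finset.sum_eq_single (R + N)]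
      · have : (((R + N : ℕ)) : ℤ) = (R : ℤ) + N := by push_cast; ring
        rw [this, Pi.single_eq_same, norm_one, Real.one_rpow]
      · intro i _ hi
        rw [Pi.single_eq_of_ne (by omega), norm_zero, Real.zero_rpow hr.ne']
      · intro hi
        rw [Finset.mem_range] at hi
        omega
    rw [← e2]
    exact h4.trans e5

/-- a crude bound for the action -/
lemma exists_bound {a : CC p X h} {N : ℕ} (hN : Band N a) {K₀ : ℝ} (hK : ∀ m, ‖co a m‖ ≤ K₀) :
    ∃ C : ℝ, 0 < C ∧ ∀ (x : X) (ζ : ℤ → ℂ) (s t : ℤ),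
      mass p.toReal (ev x a ζ) s t ≤ C * mass p.toReal ζ (s - N) (t + N) := by
  have hr : 1 ≤ p.toReal := by
    have h1 : (1 : ℝ≥0∞) ≤ p := Fact.out
    have := ENNReal.toReal_mono hpt.out h1
    simpa using this
  have hr0 : 0 < p.toReal := by linarith
  have hK0 : 0 ≤ K₀ := (norm_nonneg _).trans (hK 0)
  set I : Finset ℤ := Finset.Icc (-(N : ℤ)) N with hI
  set c : ℝ := (I.card : ℝ) ^ (p.toReal - 1) * K₀ ^ p.toReal with hc
  have hc0 : 0 ≤ c := by positivity
  refine ⟨c * I.card + 1, by positivity, ?_⟩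
  intro x ζ s t
  have h1 : ∀ i, ‖ev x a ζ i‖ ^ p.toReal ≤ c * ∑ m ∈ I, ‖ζ (i - m)‖ ^ p.toReal := by
    intro i
    rw [ev_band hN]
    have h2 : ‖∑ m ∈ I, co a m ((h ^ i) x) * ζ (i - m)‖ ≤ ∑ m ∈ I, K₀ * ‖ζ (i - m)‖ := by
      refine (norm_sum_le _ _).trans (Finset.sum_le_sum fun m _ => ?_)
      rw [norm_mul]
      exact mul_le_mul_of_nonneg_right (((co a m).norm_coe_le_norm _).trans (hK m)) (norm_nonneg _)
    calc ‖∑ m ∈ I, co a m ((h ^ i) x) * ζ (i - m)‖ ^ p.toReal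
        ≤ (∑ m ∈ I, K₀ * ‖ζ (i - m)‖) ^ p.toReal :=
          Real.rpow_le_rpow (norm_nonneg _) h2 hr0.le
      _ ≤ (I.card : ℝ) ^ (p.toReal - 1) * ∑ m ∈ I, (K₀ * ‖ζ (i - m)‖) ^ p.toReal :=
          Real.rpow_sum_le_const_mul_sum_rpow_of_nonneg I hr
            (fun m _ => by positivity)
      _ = c * ∑ m ∈ I, ‖ζ (i - m)‖ ^ p.toReal := by
          rw [hc, mul_assoc, Finset.mul_sum (a := K₀ ^ p.toReal)]
          congr 1
          apply Finset.sum_congr rfl
          intro m _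
          rw [Real.mul_rpow hK0 (norm_nonneg _)]
  have h3 : ∀ m ∈ I, ∑ i ∈ Finset.Ico s t, ‖ζ (i - m)‖ ^ p.toReal ≤
      mass p.toReal ζ (s - N) (t + N) := by
    intro m hm
    rw [hI, Finset.mem_Icc] at hm
    have e1 : ∑ i ∈ Finset.Ico s t, ‖ζ (i - m)‖ ^ p.toReal = mass p.toReal ζ (s - m) (t - m) := by
      unfold mass
      apply Finset.sum_bij (fun (i : ℤ) _ => i - m)
      · intro i hi
        rw [Finset.mem_Ico] at hi ⊢
        omega
      · intro i _ j _ hij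
        omega
      · intro j hj
        rw [Finset.mem_Ico] at hj
        exact ⟨j + m, by rw [Finset.mem_Ico]; omega, by ring⟩
      · intro i _; rfl
    rw [e1]
    exact mass_mono ζ (by omega) (by omega)
  calc mass p.toReal (ev x a ζ) s t ≤ ∑ i ∈ Finset.Ico s t, c * ∑ m ∈ I, ‖ζ (i - m)‖ ^ p.toReal :=
        Finset.sum_le_sum fun i _ => h1 i
    _ = c * ∑ m ∈ I, ∑ i ∈ Finset.Ico s t, ‖ζ (i - m)‖ ^ p.toReal := by
        rw [← Finset.mul_sum, Finset.sum_comm]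
    _ ≤ c * ∑ m ∈ I, mass p.toReal ζ (s - N) (t + N) :=
        mul_le_mul_of_nonneg_left (Finset.sum_le_sum h3) hc0
    _ = (c * I.card) * mass p.toReal ζ (s - N) (t + N) := by
        rw [Finset.sum_const, nsmul_eq_mul]; ring
    _ ≤ _ := by
        apply mul_le_mul_of_nonneg_right _ (mass_nonneg _ _ _ _)
        linarith

/-- one decay step -/
lemma decay_one {a : CC p X h} {N : ℕ} {ε : ℝ} (hN : Band N a) (hL : LG a N ε)
    {C : ℝ} (hC : 0 < C) (hCε : ε ^ p.toReal ≤ C)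
    (hbd : ∀ (x : X) (ζ : ℤ → ℂ) (s t : ℤ),
      mass p.toReal (ev x a ζ) s t ≤ C * mass p.toReal ζ (s - N) (t + N))
    (x : X) (ξ : ℤ → ℂ) (s t : ℤ) (hz : ∀ i, s + N ≤ i → i < t - N → ev x a ξ i = 0) :
    mass p.toReal ξ (s + 2 * N) (t - 2 * N) ≤ (1 - ε ^ p.toReal / C) * mass p.toReal ξ s t := by
  have hr0 : 0 < p.toReal := prPos
  have hθ : 0 ≤ 1 - ε ^ p.toReal / C := by
    rw [sub_nonneg, div_le_one hC]; exact hCε
  by_cases hst : s + 2 * N ≤ t - 2 * N
  swap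
  · have h1 : mass p.toReal ξ (s + 2 * N) (t - 2 * N) = 0 := by
      unfold mass
      rw [Finset.Ico_eq_empty (by omega), Finset.sum_empty]
    rw [h1]
    exact mul_nonneg hθ (mass_nonneg _ _ _ _)
  set ζ : ℤ → ℂ := fun j => if s ≤ j ∧ j < t then ξ j else 0 with hζ
  have ζin : ∀ j, s ≤ j → j < t → ζ j = ξ j := by
    intro j h1 h2
    simp only [hζ]
    rw [if_pos ⟨h1, h2⟩]
  have ζout : ∀ j, ¬(s ≤ j ∧ j < t) → ζ j = 0 := by
    intro j h1
    simp only [hζ]
    rw [if_neg h1]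
  have h1 := hL x s t ζ (by
    intro i hi
    by_contra hne
    exact hi (ζout i hne))
  have e1 : mass p.toReal (ev x a ζ) (s - N) (t + N) =
      mass p.toReal (ev x a ζ) (s - N) (s + N) + mass p.toReal (ev x a ζ) (s + N) (t - N) +
        mass p.toReal (ev x a ζ) (t - N) (t + N) := by
    rw [mass_split _ (show s - (N : ℤ) ≤ s + N by omega) (show s + (N : ℤ) ≤ t + N by omega),
      mass_split _ (show s + (N : ℤ) ≤ t - N by omega) (show t - (N : ℤ) ≤ t + N by omega)]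
    ring
  have e2 : mass p.toReal (ev x a ζ) (s + N) (t - N) = 0 := by
    apply mass_zero hr0
    intro i hi1 hi2
    rw [← hz i hi1 hi2]
    apply ev_local hN
    intro j hj
    rw [abs_le] at hj
    exact ζin j (by omega) (by omega)
  have e3 : mass p.toReal (ev x a ζ) (s - N) (s + N) ≤ C * mass p.toReal ξ s (s + 2 * N) := by
    refine (hbd x ζ (s - N) (s + N)).trans (mul_le_mul_of_nonneg_left ?_ hC.le)
    rw [mass_split _ (show s - (N : ℤ) - N ≤ s by omega) (show s ≤ s + (N : ℤ) + N by omega)]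
    rw [mass_zero hr0 (fun i hi1 hi2 => ζout i (by omega)), zero_add]
    rw [show s + (N : ℤ) + N = s + 2 * N by ring]
    exact (mass_congr (fun i hi1 hi2 => ζin i (by omega) (by omega))).le
  have e4 : mass p.toReal (ev x a ζ) (t - N) (t + N) ≤ C * mass p.toReal ξ (t - 2 * N) t := by
    refine (hbd x ζ (t - N) (t + N)).trans (mul_le_mul_of_nonneg_left ?_ hC.le)
    rw [mass_split _ (show t - (N : ℤ) - N ≤ t by omega) (show t ≤ t + (N : ℤ) + N by omega)]
    rw [mass_zero hr0 (s := t) (fun i hi1 hi2 => ζout i (by omega)), add_zero]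
    rw [show t - (N : ℤ) - N = t - 2 * N by ring]
    exact (mass_congr (fun i hi1 hi2 => ζin i (by omega) (by omega))).le
  have e5 : mass p.toReal ζ s t = mass p.toReal ξ s t := mass_congr ζin
  have e6 : mass p.toReal ξ s t = mass p.toReal ξ s (s + 2 * N) +
      mass p.toReal ξ (s + 2 * N) (t - 2 * N) + mass p.toReal ξ (t - 2 * N) t := by
    rw [mass_split _ (show s ≤ s + 2 * (N : ℤ) by omega) (show s + 2 * (N : ℤ) ≤ t by omega),
      mass_split _ (show s + 2 * (N : ℤ) ≤ t - 2 * N by omega) (show t - 2 * (N : ℤ) ≤ t by omega)]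
    ring
  rw [e1, e2, e5] at h1
  have h2 : ε ^ p.toReal * mass p.toReal ξ s t ≤
      C * (mass p.toReal ξ s t - mass p.toReal ξ (s + 2 * N) (t - 2 * N)) := by
    have : mass p.toReal ξ s t - mass p.toReal ξ (s + 2 * N) (t - 2 * N) =
        mass p.toReal ξ s (s + 2 * N) + mass p.toReal ξ (t - 2 * N) t := by
      rw [e6]; ring
    rw [this, mul_add]
    linarith
  have h3 : ε ^ p.toReal / C * mass p.toReal ξ s t ≤
      mass p.toReal ξ s t - mass p.toReal ξ (s + 2 * N) (t - 2 * N) := by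
    rw [div_mul_eq_mul_div, div_le_iff₀ hC]
    linarith
  linarith

lemma decay {a : CC p X h} {N : ℕ} {ε : ℝ} (hN : Band N a) (hL : LG a N ε)
    {C : ℝ} (hC : 0 < C) (hCε : ε ^ p.toReal ≤ C)
    (hbd : ∀ (x : X) (ζ : ℤ → ℂ) (s t : ℤ),
      mass p.toReal (ev x a ζ) s t ≤ C * mass p.toReal ζ (s - N) (t + N))
    (x : X) (ξ : ℤ → ℂ) (s t : ℤ) (hz : ∀ i, s + N ≤ i → i < t - N → ev x a ξ i = 0) (k : ℕ) :
    mass p.toReal ξ (s + 2 * N * k) (t - 2 * N * k) ≤
      (1 - ε ^ p.toReal / C) ^ k * mass p.toReal ξ s t := by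
  have hθ : 0 ≤ 1 - ε ^ p.toReal / C := by
    rw [sub_nonneg, div_le_one hC]; exact hCε
  induction k with
  | zero => simp
  | succ k ih =>
    have h1 := decay_one hN hL hC hCε hbd x ξ (s + 2 * N * k) (t - 2 * N * k) (by
      intro i hi1 hi2
      apply hz i
      · have : (0 : ℤ) ≤ 2 * N * k := by positivity
        omega
      · have : (0 : ℤ) ≤ 2 * N * k := by positivity
        omega)
    have e1 : s + 2 * (N : ℤ) * k + 2 * N = s + 2 * N * ((k + 1 : ℕ) : ℤ) := by push_cast; ring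
    have e2 : t - 2 * (N : ℤ) * k - 2 * N = t - 2 * N * ((k + 1 : ℕ) : ℤ) := by push_cast; ring
    rw [e1, e2] at h1
    refine h1.trans ((mul_le_mul_of_nonneg_left ih hθ).trans (le_of_eq ?_))
    rw [pow_succ']
    ring

end H382FP
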