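import Mathlib
import Pool.Agent.H382R3.FP.Good

/-!
# Invertibility when all windows are good (helper382, for MP_1d722c_an)
-/

set_option autoImplicit false
set_option linter.unusedSectionVars false

open scoped ENNReal
open MeasureTheory Topology

namespace H382FP

lemma mass_le_mass {r : ℝ} (hr : 0 < r) {ξ' ξ : ℤ → ℂ} {s t s' t' : ℤ}
    (h : ∀ i, s ≤ i → i < t → ξ' i ≠ 0 → ξ' i = ξ i ∧ s' ≤ i ∧ i < t') :
    mass r ξ' s t ≤ mass r ξ s' t' := by
  classical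
  unfold mass
  have h1 : ∑ i ∈ Finset.Ico s t, ‖ξ' i‖ ^ r =
      ∑ i ∈ (Finset.Ico s t).filter (fun i => ξ' i ≠ 0), ‖ξ' i‖ ^ r := by
    symm
    apply Finset.sum_filter_of_ne
    intro i _ hne h0
    rw [h0, norm_zero, Real.zero_rpow hr.ne'] at hne
    exact hne rfl
  rw [h1]
  have h2 : ∑ i ∈ (Finset.Ico s t).filter (fun i => ξ' i ≠ 0), ‖ξ' i‖ ^ r =
      ∑ i ∈ (Finset.Ico s t).filter (fun i => ξ' i ≠ 0), ‖ξ i‖ ^ r := by
    apply Finset.sum_congr rfl
    intro i hi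
    rw [Finset.mem_filter, Finset.mem_Ico] at hi
    rw [(h i hi.1.1 hi.1.2 hi.2).1]
  rw [h2]
  apply Finset.sum_le_sum_of_subset_of_nonneg
  · intro i hi
    rw [Finset.mem_filter, Finset.mem_Ico] at hi
    rw [Finset.mem_Ico]
    exact (h i hi.1.1 hi.1.2 hi.2).2
  · intro _ _ _; positivity

variable {p : ℝ≥0∞} [Fact (1 ≤ p)] [hpt : Fact (p ≠ ∞)]
variable {X : Type} [TopologicalSpace X] [CompactSpace X] {h : X ≃ₜ X}

lemma local_inv {a : CC p X h} {N : ℕ} {ε : ℝ} (hε : 0 < ε) (hN : Band N a) (hL : LG a N ε)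
    (hR : RG a N ε) {C : ℝ} (hC : 0 < C) (hCε : ε ^ p.toReal ≤ C)
    (hbd : ∀ (x : X) (ζ : ℤ → ℂ) (s t : ℤ),
      mass p.toReal (ev x a ζ) s t ≤ C * mass p.toReal ζ (s - N) (t + N)) (x : X) (k : ℕ) :
    ∃ ξ : ℤ → ℂ, (∀ i, ξ i ≠ 0 → |i| ≤ ((N * (2 * k + 1) : ℕ) : ℤ)) ∧
      ∀ i, ‖ev x a ξ i - (Pi.single 0 1 : ℤ → ℂ) i‖ ^ p.toReal ≤
        C * ((1 - ε ^ p.toReal / C) ^ k * (ε ^ p.toReal)⁻¹) := by
  have hr0 : 0 < p.toReal := prPos
  have hε0 : 0 < ε ^ p.toReal := by positivity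
  have hθ : 0 ≤ 1 - ε ^ p.toReal / C := by
    rw [sub_nonneg, div_le_one hC]; exact hCε
  obtain ⟨q, hq⟩ : ∃ q : ℤ, q = (N : ℤ) * k := ⟨_, rfl⟩
  have hq0 : 0 ≤ q := by rw [hq]; positivity
  obtain ⟨c, hc⟩ : ∃ c : ℤ, c = ((N * (2 * k + 1) : ℕ) : ℤ) := ⟨_, rfl⟩
  have hc2 : c = N + 2 * q := by rw [hc, hq]; push_cast; ring
  obtain ⟨ξ, h1, h2, h3⟩ := hR x (2 * (N * (2 * k + 1)))
  have hR2 : ((2 * (N * (2 * k + 1)) : ℕ) : ℤ) = 2 * c := by rw [hc]; push_cast; ring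
  rw [hR2] at h1 h2 h3
  have e2q : 2 * (N : ℤ) * k = 2 * q := by rw [hq]; ring
  set M₀ := mass p.toReal ξ (-(2 * c) - N) (2 * c + N + 1) with hM₀
  have hM : M₀ ≤ (ε ^ p.toReal)⁻¹ := by
    rw [← one_div, le_div_iff₀ hε0]
    linarith
  have hpow : 0 ≤ (1 - ε ^ p.toReal / C) ^ k := by positivity
  -- decay on the right
  have hRt : mass p.toReal ξ (1 - N + 2 * q) (2 * c + 1 + N - 2 * q) ≤
      (1 - ε ^ p.toReal / C) ^ k * (ε ^ p.toReal)⁻¹ := by
    have h4 := decay hN hL hC hCε hbd x ξ (1 - N) (2 * c + 1 + N) (by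
      intro i hi1 hi2
      rw [h2 i (by omega) (by omega), Pi.single_eq_of_ne (by omega)]) k
    rw [e2q] at h4
    refine h4.trans (mul_le_mul_of_nonneg_left (le_trans ?_ hM) hpow)
    exact mass_mono ξ (by omega) (by omega)
  -- decay on the left
  have hLt : mass p.toReal ξ (-(2 * c) - N + 2 * q) (N - 2 * q) ≤
      (1 - ε ^ p.toReal / C) ^ k * (ε ^ p.toReal)⁻¹ := by
    have h4 := decay hN hL hC hCε hbd x ξ (-(2 * c) - N) N (by
      intro i hi1 hi2
      rw [h2 i (by omega) (by omega), Pi.single_eq_of_ne (by omega)]) k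
    rw [e2q] at h4
    refine h4.trans (mul_le_mul_of_nonneg_left (le_trans ?_ hM) hpow)
    exact mass_mono ξ (by omega) (by omega)
  set ξ' : ℤ → ℂ := fun i => if -c ≤ i ∧ i ≤ c then ξ i else 0 with hξ'
  have ξin : ∀ i, -c ≤ i → i ≤ c → ξ' i = ξ i := by
    intro i hi1 hi2
    simp only [hξ']
    rw [if_pos ⟨hi1, hi2⟩]
  have ξout : ∀ i, ξ' i ≠ 0 → -c ≤ i ∧ i ≤ c := by
    intro i hi
    by_contra hne
    apply hi
    simp only [hξ']
    rw [if_neg hne]
  refine ⟨ξ', ?_, ?_⟩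
  · intro i hi
    rw [← hc, abs_le]
    exact ξout i hi
  · intro i
    have hrhs : 0 ≤ C * ((1 - ε ^ p.toReal / C) ^ k * (ε ^ p.toReal)⁻¹) := by positivity
    by_cases hA : -c + N ≤ i ∧ i ≤ c - N
    · have e1 : ev x a ξ' i = ev x a ξ i := by
        apply ev_local hN
        intro j hj
        rw [abs_le] at hj
        exact ξin j (by omega) (by omega)
      rw [e1, h2 i (by omega) (by omega), sub_self, norm_zero, Real.zero_rpow hr0.ne']
      exact hrhs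
    · have hi0 : i ≠ 0 := by
        rintro rfl
        apply hA
        omega
      rw [Pi.single_eq_of_ne hi0, sub_zero]
      have e2 : ‖ev x a ξ' i‖ ^ p.toReal ≤ C * mass p.toReal ξ' (i - N) (i + 1 + N) :=
        (le_mass (r := p.toReal) (ev x a ξ') (le_refl i) (lt_add_one i)).trans (hbd x ξ' i (i + 1))
      refine e2.trans (mul_le_mul_of_nonneg_left ?_ hC.le)
      by_cases hB : c - N < i
      · refine le_trans (mass_le_mass hr0 ?_) hRt
        intro j hj1 hj2 hj3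
        have hj4 := ξout j hj3
        exact ⟨ξin j hj4.1 hj4.2, by omega, by omega⟩
      · refine le_trans (mass_le_mass hr0 ?_) hLt
        intro j hj1 hj2 hj3
        have hj4 := ξout j hj3
        exact ⟨ξin j hj4.1 hj4.2, by omega, by omega⟩

/-- the element with column `G x` -/
noncomputable def gel (G : X → ℤ → ℂ) (hG : IsLocallyConstant G) (c : ℕ) : CC p X h :=
  ∑ n ∈ Finset.Icc (-(c : ℤ)) c, sgl n ⟨fun z => G ((h ^ (-n)) z) n,
    ((hG.comp (fun F : ℤ → ℂ => F n)).continuous).comp (h ^ (-n)).continuous⟩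

lemma ev_gel {G : X → ℤ → ℂ} (hG : IsLocallyConstant G) {c : ℕ}
    (hc : ∀ x i, G x i ≠ 0 → |i| ≤ (c : ℤ)) (x : X) :
    ev x (gel G hG c : CC p X h) (Pi.single 0 1) = G x := by
  funext i
  unfold gel
  rw [map_sum, LinearMap.sum_apply, Finset.sum_apply]
  have e1 : ∀ n ∈ Finset.Icc (-(c : ℤ)) c, ev x (sgl n ⟨fun z => G ((h ^ (-n)) z) n,
      ((hG.comp (fun F : ℤ → ℂ => F n)).continuous).comp (h ^ (-n)).continuous⟩ : CC p X h)
        (Pi.single 0 1) i = if n = i then G x i else 0 := by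
    intro n _
    rw [ev_sgl]
    by_cases hn : n = i
    · subst hn
      rw [if_pos rfl, sub_self, Pi.single_eq_same, mul_one]
      show G ((h ^ (-n)) ((h ^ n) x)) n = G x n
      rw [zpow_apply_add, neg_add_cancel, zpow_apply_zero]
    · rw [if_neg hn, Pi.single_eq_of_ne (by omega), mul_zero]
  rw [Finset.sum_congr rfl e1, Finset.sum_ite_eq']
  by_cases hi : i ∈ Finset.Icc (-(c : ℤ)) c
  · rw [if_pos hi]
  · rw [if_neg hi]
    by_contra hne
    apply hi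
    rw [Finset.mem_Icc, ← abs_le]
    exact hc x i (Ne.symm hne)

lemma band_gel {G : X → ℤ → ℂ} (hG : IsLocallyConstant G) {c : ℕ} :
    Band c (gel G hG c : CC p X h) := by
  intro m hm
  unfold gel
  rw [co_sum]
  apply Finset.sum_eq_zero
  intro n hn
  apply co_sgl_ne
  rintro rfl
  rw [Finset.mem_Icc, ← abs_le] at hn
  omega

lemma norm_co_le {b : CC p X h} {τ : ℝ} (hτ : 0 ≤ τ)
    (hb : ∀ (x : X) (m : ℤ), ‖ev x b (Pi.single 0 1) m‖ ≤ τ) (m : ℤ) : ‖co b m‖ ≤ τ := by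
  rw [ContinuousMap.norm_le _ hτ]
  intro z
  have h1 := ev_single ((h ^ (-m)) z) b m m
  rw [sub_self, zpow_apply_add, add_neg_cancel, zpow_apply_zero] at h1
  rw [← h1]
  exact hb _ _

/-- the pattern of a banded locally constant element -/
lemma exists_pat {a : CC p X h} {N : ℕ} (hN : Band N a) (ha : LC a) (R : ℕ) :
    ∃ (β : Type) (P : X → β), IsLocallyConstant P ∧
      ∀ x x', P x = P x' → ∀ i : ℤ, |i| ≤ R → ∀ ξ, ev x a ξ i = ev x' a ξ i := by
  classical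
  refine ⟨(Finset.Icc (-(N : ℤ)) N × Finset.Icc (-(R : ℤ)) R) → ℂ,
    fun x mi => co a mi.1 ((h ^ (mi.2 : ℤ)) x), ?_, ?_⟩
  · exact ilc_pi fun mi => co_comp_ilc ha _ _
  · intro x x' hxx i hi ξ
    rw [ev_band hN, ev_band hN]
    apply Finset.sum_congr rfl
    intro m hm
    congr 1
    exact congrFun hxx (⟨m, hm⟩, ⟨i, by rw [Finset.mem_Icc, ← abs_le]; exact hi⟩)

/-- approximate right inverses -/
lemma exists_right {a : CC p X h} {N : ℕ} {ε : ℝ} (hε : 0 < ε) (hN : Band N a) (ha : LC a)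
    (hL : LG a N ε)
    (hR : RG a N ε) {C : ℝ} (hC : 0 < C) (hCε : ε ^ p.toReal ≤ C)
    (hbd : ∀ (x : X) (ζ : ℤ → ℂ) (s t : ℤ),
      mass p.toReal (ev x a ζ) s t ≤ C * mass p.toReal ζ (s - N) (t + N)) (k : ℕ) :
    ∃ g : CC p X h, Band (N * (2 * k + 1)) g ∧ ∀ (x : X) (i : ℤ),
      ‖ev x (a * g - 1) (Pi.single 0 1) i‖ ^ p.toReal ≤
        C * ((1 - ε ^ p.toReal / C) ^ k * (ε ^ p.toReal)⁻¹) := by
  have hr0 : 0 < p.toReal := prPos
  set c : ℕ := N * (2 * k + 1) with hc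
  have hθ : 0 ≤ 1 - ε ^ p.toReal / C := by
    rw [sub_nonneg, div_le_one hC]; exact hCε
  have hrhs : 0 ≤ C * ((1 - ε ^ p.toReal / C) ^ k * (ε ^ p.toReal)⁻¹) := by positivity
  obtain ⟨β, P, hP, hPP⟩ := exists_pat hN ha (c + N)
  obtain ⟨G, hG, hGood⟩ := select (γ := ℤ → ℂ) hP
    (Good := fun x ξ => (∀ i, ξ i ≠ 0 → |i| ≤ (c : ℤ)) ∧
      ∀ i, ‖ev x a ξ i - (Pi.single 0 1 : ℤ → ℂ) i‖ ^ p.toReal ≤
        C * ((1 - ε ^ p.toReal / C) ^ k * (ε ^ p.toReal)⁻¹))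
    (by
      intro x x' ξ hxx hξ
      refine ⟨hξ.1, fun i => ?_⟩
      by_cases hi : |i| ≤ ((c + N : ℕ) : ℤ)
      · rw [← hPP x x' hxx i hi ξ]
        exact hξ.2 i
      · have e1 : ev x' a ξ i = ev x' a 0 i := by
          apply ev_local hN
          intro j hj
          by_contra hne
          have h1 := hξ.1 j hne
          rw [abs_le] at hj h1
          apply hi
          rw [abs_le]
          push_cast
          omega
        rw [e1, map_zero, Pi.zero_apply, Pi.single_eq_of_ne, sub_zero, norm_zero,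
          Real.zero_rpow hr0.ne']
        · exact hrhs
        · rintro rfl
          apply hi
          rw [abs_zero]
          positivity)
    (fun x => local_inv hε hN hL hR hC hCε hbd x k)
  refine ⟨gel G hG c, band_gel hG, fun x i => ?_⟩
  have e1 : ev x (a * gel G hG c - 1) (Pi.single 0 1) i =
      ev x a (G x) i - (Pi.single 0 1 : ℤ → ℂ) i := by
    rw [map_sub, LinearMap.sub_apply, Pi.sub_apply, ev_mul_apply, ev_one_apply,
      ev_gel hG (fun x => (hGood x).1)]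
  rw [e1]
  exact (hGood x).2 i

end H382FP
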