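import Mathlib
import Pool.Agent.H382R3.FP.Good2

/-!
# Invertibility when all windows are good, conclusion (helper382, for MP_1d722c_an)
-/

set_option autoImplicit false
set_option linter.unusedSectionVars false

open scoped ENNReal
open MeasureTheory Topology

namespace H382FP

variable {p : ℝ≥0∞} [Fact (1 ≤ p)] [hpt : Fact (p ≠ ∞)]
variable {X : Type} [TopologicalSpace X] [CompactSpace X] {h : X ≃ₜ X}

lemma norm_co_le_crude (a : CC p X h) (m : ℤ) : ‖co a m‖ ≤ crude a := by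
  unfold crude
  by_cases hm : Multiplicative.ofAdd m ∈ a.coeff.support
  · exact Finset.single_le_sum (f := fun m : Multiplicative ℤ => ‖a.coeff m‖)
      (fun _ _ => norm_nonneg _) hm
  · have : co a m = 0 := Finsupp.notMem_support_iff.1 hm
    rw [this, norm_zero]
    exact Finset.sum_nonneg fun _ _ => norm_nonneg _

lemma norm_ev_le {B : ℕ} {e : CC p X h} (hB : Band B e) {τ K : ℝ} (hτ : 0 ≤ τ)
    (he : ∀ m, ‖co e m‖ ≤ τ) (x : X) {ζ : ℤ → ℂ} (hζ : ∀ j, ‖ζ j‖ ≤ K) (i : ℤ) :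
    ‖ev x e ζ i‖ ≤ (2 * B + 1) * (τ * K) := by
  rw [ev_band hB]
  have h1 : ‖∑ m ∈ Finset.Icc (-(B : ℤ)) B, co e m ((h ^ i) x) * ζ (i - m)‖ ≤
      ∑ m ∈ Finset.Icc (-(B : ℤ)) B, τ * K := by
    refine (norm_sum_le _ _).trans (Finset.sum_le_sum fun m _ => ?_)
    rw [norm_mul]
    exact mul_le_mul (((co e m).norm_coe_le_norm _).trans (he m)) (hζ _) (norm_nonneg _) hτ
  refine h1.trans (le_of_eq ?_)
  rw [Finset.sum_const, nsmul_eq_mul, Int.card_Icc]
  have h3 : ((B : ℤ) + 1 - -(B : ℤ)).toNat = 2 * B + 1 := by omega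
  rw [h3]
  push_cast
  ring

lemma left_close {a g : CC p X h} {N B : ℕ} {ε : ℝ} (hε : 0 < ε)
    (hL : LG a N ε) (hB1 : Band B (a * g - 1)) (hB2 : Band B (g * a - 1)) {τ K : ℝ} (hτ : 0 ≤ τ)
    (he : ∀ m, ‖co (a * g - 1) m‖ ≤ τ) (hK : ∀ m, ‖co a m‖ ≤ K) (m : ℤ) :
    ‖co (g * a - 1) m‖ ≤ (2 * B + 1 + 2 * N) * ((2 * B + 1) * (τ * K)) / ε := by
  have hr : 1 ≤ p.toReal := by
    have h1 : (1 : ℝ≥0∞) ≤ p := Fact.out
    have := ENNReal.toReal_mono hpt.out h1
    simpa using this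
  have hr0 : 0 < p.toReal := by linarith
  have hK0 : 0 ≤ K := (norm_nonneg _).trans (hK 0)
  set σ : ℝ := (2 * B + 1) * (τ * K) with hσ
  have hσ0 : 0 ≤ σ := by positivity
  set n : ℝ := (2 * B + 1 + 2 * N : ℝ) with hn
  have hn1 : 1 ≤ n := by
    have : (0 : ℝ) ≤ 2 * B + 2 * N := by positivity
    linarith
  apply norm_co_le (by positivity)
  intro x i
  set ω : ℤ → ℂ := ev x (g * a - 1) (Pi.single 0 1) with hω
  have hsupp : ∀ i, ω i ≠ 0 → -(B : ℤ) ≤ i ∧ i < B + 1 := by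
    intro i hi
    have h1 : |i| ≤ B := by
      by_contra hlt
      apply hi
      have h2 := ev_single x (g * a - 1) i i
      rw [sub_self] at h2
      rw [hω, h2, hB2 i (not_le.1 hlt)]
      rfl
    rw [abs_le] at h1
    omega
  have e1 : ev x a ω = ev x (a * g - 1) (ev x a (Pi.single 0 1)) := by
    rw [hω, ← ev_mul_apply, ← ev_mul_apply]
    congr 2
    noncomm_ring
  have hζ : ∀ j, ‖ev x a (Pi.single 0 1) j‖ ≤ K := by
    intro j
    have h2 := ev_single x a j j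
    rw [sub_self] at h2
    rw [h2]
    exact ((co a j).norm_coe_le_norm _).trans (hK j)
  have h2 := hL x (-(B : ℤ)) (B + 1) ω hsupp
  have h3 : mass p.toReal (ev x a ω) (-(B : ℤ) - N) (B + 1 + N) ≤ n * σ ^ p.toReal := by
    unfold mass
    have h4 : ∀ i ∈ Finset.Ico (-(B : ℤ) - N) (B + 1 + N), ‖ev x a ω i‖ ^ p.toReal ≤
        σ ^ p.toReal := by
      intro i _
      rw [e1]
      exact Real.rpow_le_rpow (norm_nonneg _) (norm_ev_le hB1 hτ he x hζ i) hr0.le
    refine (Finset.sum_le_sum h4).trans (le_of_eq ?_)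
    rw [Finset.sum_const, nsmul_eq_mul, Int.card_Ico]
    have h5 : ((B : ℤ) + 1 + N - (-(B : ℤ) - N)).toNat = 2 * B + 1 + 2 * N := by omega
    rw [h5, hn]
    push_cast
    ring
  by_cases hi : -(B : ℤ) ≤ i ∧ i < B + 1
  · have h6 : ε ^ p.toReal * ‖ω i‖ ^ p.toReal ≤ n * σ ^ p.toReal :=
      (mul_le_mul_of_nonneg_left (le_mass ω hi.1 hi.2) (by positivity)).trans (h2.trans h3)
    have h7 : n * σ ^ p.toReal ≤ (n * σ) ^ p.toReal := by
      rw [Real.mul_rpow (by positivity) hσ0]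
      apply mul_le_mul_of_nonneg_right _ (by positivity)
      calc n = n ^ (1 : ℝ) := (Real.rpow_one n).symm
        _ ≤ n ^ p.toReal := Real.rpow_le_rpow_of_exponent_le hn1 hr
    rw [← Real.mul_rpow hε.le (norm_nonneg _)] at h6
    have h8 := (Real.rpow_le_rpow_iff (by positivity) (by positivity) hr0).1 (h6.trans h7)
    rw [le_div_iff₀ hε]
    linarith
  · have h9 : ω i = 0 := by
      by_contra hne
      exact hi (hsupp i hne)
    rw [h9, norm_zero]
    positivity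

/-- **the good case** -/
theorem good_case {a : CC p X h} {N : ℕ} {ε : ℝ} (hε : 0 < ε) (hN : Band N a) (ha : LC a)
    (hb1 : ∀ x L, ¬ LB a N L ε x) (hb2 : ∀ x L, ¬ RB a N L ε x) :
    IsUnit (a : FpR p X h) := by
  have hL : LG a N ε := LG_of hε hb1
  have hR : RG a N ε := RG_of hb2
  have hr0 : 0 < p.toReal := prPos
  set K : ℝ := crude a with hK
  have hKa : ∀ m, ‖co a m‖ ≤ K := norm_co_le_crude a
  have hK0 : 0 ≤ K := (norm_nonneg _).trans (hKa 0)
  obtain ⟨C₀, hC₀, hbd₀⟩ := exists_bound hN hKa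
  have hεr : 0 < ε ^ p.toReal := by positivity
  set C : ℝ := C₀ + ε ^ p.toReal with hC
  have hC0 : 0 < C := by positivity
  have hCε : ε ^ p.toReal ≤ C := by linarith
  have hbd : ∀ (x : X) (ζ : ℤ → ℂ) (s t : ℤ),
      mass p.toReal (ev x a ζ) s t ≤ C * mass p.toReal ζ (s - N) (t + N) := by
    intro x ζ s t
    refine (hbd₀ x ζ s t).trans (mul_le_mul_of_nonneg_right (by linarith) (mass_nonneg _ _ _ _))
  set θ : ℝ := 1 - ε ^ p.toReal / C with hθ
  have hθ0 : 0 ≤ θ := by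
    rw [hθ, sub_nonneg, div_le_one hC0]; exact hCε
  have hθ1 : θ < 1 := by
    have : 0 < ε ^ p.toReal / C := by positivity
    linarith
  set ρ : ℝ := θ ^ (1 / p.toReal) with hρ
  have hρ0 : 0 ≤ ρ := by positivity
  have hρ1 : ρ < 1 := Real.rpow_lt_one hθ0 hθ1 (by positivity)
  set D : ℝ := (C * (ε ^ p.toReal)⁻¹) ^ (1 / p.toReal) with hD
  have hD0 : 0 ≤ D := by positivity
  -- choice of `k`
  set Q : ℝ := (10 * N + 1) ^ 3 * D * (1 + K / ε) with hQ
  have hQ0 : 0 ≤ Q := by positivity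
  have hlim : Filter.Tendsto (fun n : ℕ => Q * ((n : ℝ) ^ 3 * ρ ^ n)) Filter.atTop (𝓝 0) := by
    have := (tendsto_pow_const_mul_const_pow_of_abs_lt_one 3
      (show |ρ| < 1 by rw [abs_of_nonneg hρ0]; exact hρ1)).const_mul Q
    rwa [mul_zero] at this
  obtain ⟨k, hk1, hk2⟩ := ((hlim.eventually (gt_mem_nhds zero_lt_one)).and
    (Filter.eventually_ge_atTop 1)).exists
  obtain ⟨g, hg1, hg2⟩ := exists_right hε hN ha hL hR hC0 hCε hbd k
  set τ : ℝ := D * ρ ^ k with hτ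
  have hτ0 : 0 ≤ τ := by positivity
  have hτr : τ ^ p.toReal = C * (θ ^ k * (ε ^ p.toReal)⁻¹) := by
    rw [hτ, Real.mul_rpow hD0 (by positivity), hD, hρ, ← Real.rpow_natCast,
      ← Real.rpow_mul hθ0, ← Real.rpow_mul hθ0, ← Real.rpow_mul (by positivity),
      one_div_mul_cancel hr0.ne', Real.rpow_one]
    have : 1 / p.toReal * (k : ℝ) * p.toReal = k := by field_simp
    rw [this, Real.rpow_natCast]
    ring
  have he : ∀ m, ‖co (a * g - 1) m‖ ≤ τ := by
    apply norm_co_le hτ0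
    intro x i
    have h1 := hg2 x i
    rw [← hθ, ← hτr] at h1
    exact (Real.rpow_le_rpow_iff (norm_nonneg _) hτ0 hr0).1 h1
  set c : ℕ := N * (2 * k + 1) with hc
  set B : ℕ := N + c with hB
  have hB1 : Band B (a * g - 1) := (hN.mul hg1).sub (band_one.mono (Nat.zero_le _))
  have hB2 : Band B (g * a - 1) := by
    have := (hg1.mul hN).sub (b := (1 : CC p X h)) (band_one.mono (Nat.zero_le _))
    rwa [Nat.add_comm] at this
  have h1 := norm_le_band hB1 he
  have h2 := norm_le_band hB2 (left_close hε hL hB1 hB2 hτ0 he hKa)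
  -- numerical estimate
  set n : ℝ := (2 * B + 1 + 2 * N : ℝ) with hn
  have hk1' : (1 : ℝ) ≤ k := by exact_mod_cast hk2
  have hn2 : n ≤ (10 * N + 1) * k := by
    rw [hn, hB, hc]
    push_cast
    have hN0 : (0 : ℝ) ≤ N := by positivity
    nlinarith
  have hB0 : (0 : ℝ) ≤ 2 * B + 1 := by positivity
  have hBn : (2 * B + 1 : ℝ) ≤ n := by
    have hN0 : (0 : ℝ) ≤ N := by positivity
    rw [hn]; linarith
  have hn1 : 1 ≤ n := by
    have : (0 : ℝ) ≤ 2 * B + 2 * N := by positivity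
    rw [hn]; linarith
  have hn3 : n ^ 3 ≤ (10 * N + 1) ^ 3 * (k : ℝ) ^ 3 := by
    rw [← mul_pow]
    exact pow_le_pow_left₀ (by linarith) hn2 3
  have hKε : 0 ≤ K / ε := by positivity
  have hfin : n ^ 3 * τ * (1 + K / ε) < 1 := by
    calc n ^ 3 * τ * (1 + K / ε) ≤ ((10 * N + 1) ^ 3 * (k : ℝ) ^ 3) * τ * (1 + K / ε) := by gcongr
      _ = Q * ((k : ℝ) ^ 3 * ρ ^ k) := by rw [hτ, hQ]; ring
      _ < 1 := hk1
  have hA : ‖a * g - 1‖ < 1 := by
    refine lt_of_le_of_lt h1 (lt_of_le_of_lt ?_ hfin)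
    calc (2 * B + 1 : ℝ) * τ ≤ n * τ := by gcongr
      _ ≤ n ^ 3 * τ := by
          apply mul_le_mul_of_nonneg_right _ hτ0
          exact le_self_pow₀ hn1 (by norm_num)
      _ ≤ n ^ 3 * τ * (1 + K / ε) := by
          apply le_mul_of_one_le_right (by positivity)
          linarith
  have hG : ‖g * a - 1‖ < 1 := by
    refine lt_of_le_of_lt h2 (lt_of_le_of_lt ?_ hfin)
    calc (2 * B + 1 : ℝ) * ((2 * B + 1 + 2 * N) * ((2 * B + 1) * (τ * K)) / ε)
        ≤ n * (n * (n * (τ * K)) / ε) := by gcongr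
      _ = n ^ 3 * τ * (K / ε) := by ring
      _ ≤ n ^ 3 * τ * (1 + K / ε) := by gcongr; linarith
  have hU1 : IsUnit ((a : FpR p X h) * (g : FpR p X h)) := by
    have e1 : (a : FpR p X h) * (g : FpR p X h) = 1 - ((-(a * g - 1) : CC p X h) : FpR p X h) := by
      rw [UniformSpace.Completion.coe_neg, UniformSpace.Completion.coe_sub,
        UniformSpace.Completion.coe_mul, UniformSpace.Completion.coe_one]
      abel
    rw [e1]
    apply isUnit_one_sub_of_norm_lt_one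
    rw [UniformSpace.Completion.norm_coe, norm_neg]
    exact hA
  have hU2 : IsUnit ((g : FpR p X h) * (a : FpR p X h)) := by
    have e1 : (g : FpR p X h) * (a : FpR p X h) = 1 - ((-(g * a - 1) : CC p X h) : FpR p X h) := by
      rw [UniformSpace.Completion.coe_neg, UniformSpace.Completion.coe_sub,
        UniformSpace.Completion.coe_mul, UniformSpace.Completion.coe_one]
      abel
    rw [e1]
    apply isUnit_one_sub_of_norm_lt_one
    rw [UniformSpace.Completion.norm_coe, norm_neg]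
    exact hG
  obtain ⟨u, hu⟩ := hU1
  obtain ⟨v, hv⟩ := hU2
  have hr1 : (a : FpR p X h) * ((g : FpR p X h) * (u⁻¹ : (FpR p X h)ˣ)) = 1 := by
    rw [← mul_assoc, ← hu, Units.mul_inv]
  have hl1 : ((v⁻¹ : (FpR p X h)ˣ) * (g : FpR p X h)) * (a : FpR p X h) = 1 := by
    rw [mul_assoc, ← hv, Units.inv_mul]
  have heq : ((v⁻¹ : (FpR p X h)ˣ) * (g : FpR p X h)) = (g : FpR p X h) * (u⁻¹ : (FpR p X h)ˣ) :=
    left_inv_eq_right_inv hl1 hr1
  exact ⟨⟨a, (g : FpR p X h) * (u⁻¹ : (FpR p X h)ˣ), hr1, by rw [← heq]; exact hl1⟩, rfl⟩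

end H382FP
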