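import Mathlib
import Pool.Agent.H382R3.FP.Good3

/-!
# Minimal dynamics, the dichotomy and the final approximation (helper382, for MP_1d722c_an)
-/

set_option autoImplicit false
set_option linter.unusedSectionVars false

open scoped ENNReal
open MeasureTheory Topology

namespace H382FP

section dyn

variable {X : Type} [TopologicalSpace X] [CompactSpace X] {h : X ≃ₜ X}

/-- bounded gaps -/
lemma exists_gap (hmin : ∀ x : X, Dense (Set.range fun n : ℤ => (h ^ n) x)) {O : Set X}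
    (hO : IsOpen O) (hne : O.Nonempty) :
    ∃ K : ℕ, ∀ z : X, ∃ k : ℕ, k < K ∧ (h ^ (k : ℤ)) z ∈ O := by
  classical
  have hcov : (Set.univ : Set X) ⊆ ⋃ n : ℤ, (h ^ n : X ≃ₜ X) ⁻¹' O := by
    intro z _
    obtain ⟨y, ⟨n, rfl⟩, hyO⟩ := (hmin z).exists_mem_open hO hne
    exact Set.mem_iUnion.2 ⟨n, hyO⟩
  obtain ⟨t, ht⟩ := isCompact_univ.elim_finite_subcover _
    (fun n : ℤ => hO.preimage (h ^ n).continuous) hcov
  set M : ℕ := ∑ n ∈ t, n.natAbs with hM
  refine ⟨2 * M + 1, fun z => ?_⟩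
  obtain ⟨n, hn, hz⟩ := Set.mem_iUnion₂.1 (ht (Set.mem_univ ((h ^ (M : ℤ)) z)))
  have h1 : n.natAbs ≤ M := Finset.single_le_sum (f := fun n : ℤ => n.natAbs)
    (fun _ _ => Nat.zero_le _) hn
  refine ⟨(n + M).toNat, by omega, ?_⟩
  rw [Int.toNat_of_nonneg (by omega)]
  have h2 : (h ^ n) ((h ^ (M : ℤ)) z) ∈ O := hz
  rwa [zpow_apply_add] at h2

lemma fix_zpow {g : X ≃ₜ X} {x : X} (hx : g x = x) (q : ℤ) : (g ^ q) x = x := by
  induction q with
  | zero => rfl
  | succ k ih =>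
    rw [zpow_add_one]
    show (g ^ (k : ℤ)) (g x) = x
    rw [hx, ih]
  | pred k ih =>
    rw [zpow_sub_one]
    show (g ^ (-(k : ℤ))) (g⁻¹ x) = x
    have : g⁻¹ x = x := by
      have h2 : g⁻¹ (g x) = x := g.symm_apply_apply x
      rwa [hx] at h2
    rw [this, ih]

lemma aperiodic [T1Space X] [Infinite X]
    (hmin : ∀ x : X, Dense (Set.range fun n : ℤ => (h ^ n) x)) (x : X) {n : ℕ} (hn : 0 < n) :
    (h ^ (n : ℤ)) x ≠ x := by
  intro hfix
  have hsub : (Set.range fun k : ℤ => (h ^ k) x) ⊆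
      (fun k : ℕ => (h ^ (k : ℤ)) x) '' (Finset.range n : Set ℕ) := by
    rintro _ ⟨k, rfl⟩
    have hn' : (0 : ℤ) < n := by exact_mod_cast hn
    refine ⟨(k % n).toNat, ?_, ?_⟩
    · rw [Finset.mem_coe, Finset.mem_range]
      have := Int.emod_lt_of_pos k hn'
      have := Int.emod_nonneg k hn'.ne'
      omega
    · show (h ^ (((k % n).toNat : ℕ) : ℤ)) x = (h ^ k) x
      rw [Int.toNat_of_nonneg (Int.emod_nonneg k hn'.ne')]
      have e : k = k % n + n * (k / n) := (Int.emod_add_mul_ediv k n).symm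
      have e2 : (h ^ (n * (k / n) : ℤ)) x = x := by
        rw [zpow_mul]
        exact fix_zpow hfix _
      conv_rhs => rw [e, ← zpow_apply_add, e2]
  have hfin : (Set.range fun k : ℤ => (h ^ k) x).Finite :=
    ((Finset.range n).finite_toSet.image _).subset hsub
  have h1 := (hmin x).closure_eq
  rw [hfin.isClosed.closure_eq] at h1
  rw [h1] at hfin
  exact Set.infinite_univ hfin

lemma exists_tower [T2Space X] [TotallyDisconnectedSpace X] [Infinite X]
    (hmin : ∀ x : X, Dense (Set.range fun n : ℤ => (h ^ n) x)) (J₀ : ℕ) :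
    ∃ Y : Set X, IsClopen Y ∧ ∃ J, J₀ ≤ J ∧ Ret h Y J ∧ ∀ y ∈ Y, J₀ ≤ rt h Y y := by
  classical
  obtain ⟨x₀⟩ : Nonempty X := inferInstance
  have hW : ∀ k : ℕ, ∃ W : Set X, IsClopen W ∧ x₀ ∈ W ∧ (0 < k → (h ^ (k : ℤ)) x₀ ∉ W) := by
    intro k
    by_cases hk : 0 < k
    · have hne : x₀ ≠ (h ^ (k : ℤ)) x₀ := (aperiodic hmin x₀ hk).symm
      obtain ⟨W, hW1, hW2, hW3⟩ := compact_exists_isClopen_in_isOpen
        (isOpen_compl_singleton (x := (h ^ (k : ℤ)) x₀)) hne
      exact ⟨W, hW1, hW2, fun _ hmem => hW3 hmem rfl⟩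
    · exact ⟨Set.univ, isClopen_univ, Set.mem_univ _, fun h1 => absurd h1 hk⟩
  choose W hWc hW0 hWk using hW
  set Y : Set X := ⋂ k ∈ Finset.Ico 1 J₀, (W k ∩ (h ^ (k : ℤ) : X ≃ₜ X) ⁻¹' (W k)ᶜ) with hY
  have hYc : IsClopen Y := by
    apply isClopen_biInter_finset
    intro k _
    exact (hWc k).inter ((hWc k).compl.preimage (h ^ (k : ℤ)).continuous)
  have hYx : x₀ ∈ Y := by
    rw [hY, Set.mem_iInter₂]
    intro k hk
    rw [Finset.mem_Ico] at hk
    exact ⟨hW0 k, hWk k (by omega)⟩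
  have hYk : ∀ y ∈ Y, ∀ k : ℕ, 0 < k → k < J₀ → (h ^ (k : ℤ)) y ∉ Y := by
    intro y hy k hk1 hk2 hmem
    rw [hY, Set.mem_iInter₂] at hy hmem
    have hk : k ∈ Finset.Ico 1 J₀ := Finset.mem_Ico.2 ⟨hk1, hk2⟩
    exact (hy k hk).2 (hmem k hk).1
  obtain ⟨K, hK⟩ := exists_gap hmin hYc.isOpen ⟨x₀, hYx⟩
  have hret : Ret h Y (max K J₀) := by
    intro x
    obtain ⟨k, hk1, hk2⟩ := hK ((h ^ (1 : ℤ)) x)
    rw [zpow_apply_add] at hk2
    refine ⟨k + 1, by omega, by omega, ?_⟩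
    push_cast
    exact hk2
  refine ⟨Y, hYc, max K J₀, le_max_right _ _, hret, fun y hy => ?_⟩
  by_contra hlt
  have h1 := rt_spec hret y
  exact hYk y hy _ h1.1 (not_le.1 hlt) h1.2

end dyn

variable {p : ℝ≥0∞} [Fact (1 ≤ p)] [hpt : Fact (p ≠ ∞)]
variable {X : Type} [TopologicalSpace X] [CompactSpace X] {h : X ≃ₜ X}

lemma mass_shift (r : ℝ) (ξ : ℤ → ℂ) (s t k : ℤ) :
    mass r (fun j => ξ (j - k)) s t = mass r ξ (s - k) (t - k) := by
  unfold mass
  apply Finset.sum_bij (fun (i : ℤ) _ => i - k)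
  · intro i hi
    rw [Finset.mem_Ico] at hi ⊢
    omega
  · intro i _ j _ hij
    omega
  · intro j hj
    rw [Finset.mem_Ico] at hj
    exact ⟨j + k, by rw [Finset.mem_Ico]; omega, by ring⟩
  · intro i _; rfl

lemma range_eq_mass (r : ℝ) (ξ : ℤ → ℂ) (n : ℕ) :
    ∑ i ∈ Finset.range n, ‖ξ i‖ ^ r = mass r ξ 0 n := by
  have := sum_range_int (fun j => ‖ξ j‖ ^ r) n 0
  simp only [add_zero, zero_add] at this
  exact this

lemma LB_shift {a : CC p X h} {N : ℕ} (hN : Band N a) {ε : ℝ} (hε : 0 < ε) {L K k : ℕ}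
    (hk : k < K) {z : X} (hb : LB a N L ε ((h ^ (k : ℤ)) z)) : LB a N (L + K) ε z := by
  obtain ⟨ξ, h1, h2⟩ := hb
  have hr0 : 0 < p.toReal := prPos
  rw [range_eq_mass, range_eq_mass] at h2
  refine ⟨fun j => ξ (j - k), ?_, ?_⟩
  · intro i hi
    have := h1 _ hi
    push_cast
    omega
  · rw [range_eq_mass, range_eq_mass _ (fun j => ξ (j - k))]
    have e1 : ev z a (fun j => ξ (j - k)) = fun j => ev ((h ^ (k : ℤ)) z) a ξ (j - k) := by
      funext j
      rw [ev_shift, sub_add_cancel]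
    rw [e1, mass_shift, mass_shift]
    have e2 : mass p.toReal (ev ((h ^ (k : ℤ)) z) a ξ) (0 - k) (((L + K + 2 * N : ℕ) : ℤ) - k) ≤
        mass p.toReal (ev ((h ^ (k : ℤ)) z) a ξ) 0 ((L + 2 * N : ℕ) : ℤ) := by
      apply mass_le_mass hr0
      intro i _ _ hne
      refine ⟨rfl, ?_⟩
      by_contra hout
      apply hne
      have e3 : ev ((h ^ (k : ℤ)) z) a ξ i = ev ((h ^ (k : ℤ)) z) a 0 i := by
        apply ev_local hN
        intro j hj
        rw [abs_le] at hj
        by_contra hne2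
        have := h1 j hne2
        apply hout
        push_cast
        omega
      rw [e3, map_zero]; rfl
    have e4 : mass p.toReal ξ 0 ((L + 2 * N : ℕ) : ℤ) ≤
        mass p.toReal ξ (0 - k) (((L + K + 2 * N : ℕ) : ℤ) - k) := by
      apply mass_mono
      · omega
      · push_cast; omega
    calc _ ≤ _ := e2
      _ < _ := h2
      _ ≤ _ := mul_le_mul_of_nonneg_left e4 (by positivity)

lemma RB_shift {a : CC p X h} {N : ℕ} (hN : Band N a) {ε : ℝ} (hε : 0 < ε) {L K k : ℕ}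
    (hk : k < K) {z : X} (hb : RB a N L ε ((h ^ (k : ℤ)) z)) : RB a N (L + K) ε z := by
  obtain ⟨y, h1, h2⟩ := hb
  have hr0 : 0 < p.toReal := prPos
  refine ⟨fun j => y (j - k), ?_, ?_⟩
  · intro i hi
    have := h1 _ hi
    push_cast
    omega
  · intro ξ' h3 h4
    set ξ : ℤ → ℂ := fun j => if 0 ≤ j ∧ j < ((L + 2 * N : ℕ) : ℤ) then ξ' (j + k) else 0 with hξ
    have ξin : ∀ j, 0 ≤ j → j < ((L + 2 * N : ℕ) : ℤ) → ξ j = ξ' (j + k) := by
      intro j hj1 hj2
      simp only [hξ]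
      rw [if_pos ⟨hj1, hj2⟩]
    have ξout : ∀ j, ξ j ≠ 0 → 0 ≤ j ∧ j < ((L + 2 * N : ℕ) : ℤ) := by
      intro j hj
      by_contra hne
      apply hj
      simp only [hξ]
      rw [if_neg hne]
    have h5 := h2 ξ (by
      intro i hi
      have := ξout i hi
      push_cast at this
      omega) (by
      intro i hi1 hi2
      have e1 : ev ((h ^ (k : ℤ)) z) a ξ i = ev ((h ^ (k : ℤ)) z) a (fun j => ξ' (j + k)) i := by
        apply ev_local hN
        intro j hj
        rw [abs_le] at hj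
        exact ξin j (by omega) (by push_cast; omega)
      rw [e1, ev_shift', h4 (i + k) (by omega) (by push_cast; omega)]
      show y (i + k - k) = y i
      rw [add_sub_cancel_right])
    rw [range_eq_mass, range_eq_mass] at h5
    rw [range_eq_mass _ (fun j => y (j - k)), range_eq_mass, mass_shift]
    have e2 : mass p.toReal y (0 - k) (((L + K + 2 * N : ℕ) : ℤ) - k) ≤
        mass p.toReal y 0 ((L + 2 * N : ℕ) : ℤ) := by
      apply mass_le_mass hr0
      intro i _ _ hne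
      refine ⟨rfl, ?_⟩
      have := h1 i hne
      push_cast
      omega
    have e3 : mass p.toReal ξ 0 ((L + 2 * N : ℕ) : ℤ) ≤
        mass p.toReal ξ' 0 ((L + K + 2 * N : ℕ) : ℤ) := by
      have e4 : mass p.toReal ξ 0 ((L + 2 * N : ℕ) : ℤ) =
          mass p.toReal (fun j => ξ' (j - (-(k : ℤ)))) 0 ((L + 2 * N : ℕ) : ℤ) := by
        apply mass_congr
        intro i hi1 hi2
        rw [ξin i hi1 hi2, sub_neg_eq_add]
      rw [e4, mass_shift]
      apply mass_mono
      · omega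
      · push_cast; omega
    calc _ ≤ _ := e2
      _ < _ := h5
      _ ≤ _ := mul_le_mul_of_nonneg_left e3 (by positivity)

lemma LB_open {a : CC p X h} {N : ℕ} (hN : Band N a) (ha : LC a) (ε : ℝ) (L : ℕ) :
    IsOpen {x : X | LB a N L ε x} := by
  obtain ⟨β, P, hP, hPP⟩ := exists_pat hN ha (L + 2 * N)
  have h1 : {x : X | LB a N L ε x} = P ⁻¹' (P '' {x : X | LB a N L ε x}) := by
    apply Set.Subset.antisymm (Set.subset_preimage_image _ _)
    rintro x ⟨x', hx', hxx⟩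
    obtain ⟨ξ, h2, h3⟩ := hx'
    refine ⟨ξ, h2, ?_⟩
    refine lt_of_eq_of_lt ?_ h3
    apply Finset.sum_congr rfl
    intro i hi
    rw [Finset.mem_range] at hi
    rw [hPP x' x hxx i (by rw [abs_le]; omega)]
  rw [h1]
  exact hP _

lemma RB_open {a : CC p X h} {N : ℕ} (hN : Band N a) (ha : LC a) (ε : ℝ) (L : ℕ) :
    IsOpen {x : X | RB a N L ε x} := by
  obtain ⟨β, P, hP, hPP⟩ := exists_pat hN ha (L + 2 * N)
  have h1 : {x : X | RB a N L ε x} = P ⁻¹' (P '' {x : X | RB a N L ε x}) := by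
    apply Set.Subset.antisymm (Set.subset_preimage_image _ _)
    rintro x ⟨x', hx', hxx⟩
    obtain ⟨y, h2, h3⟩ := hx'
    refine ⟨y, h2, fun ξ h4 h5 => h3 ξ h4 fun i hi1 hi2 => ?_⟩
    rw [hPP x' x hxx i (by rw [abs_le]; push_cast; omega)]
    exact h5 i hi1 hi2
  rw [h1]
  exact hP _

/-- **approximation of locally constant elements** -/
theorem approx_LC [T2Space X] [TotallyDisconnectedSpace X] [Infinite X] (hp2 : p ≠ 2)
    (hmin : ∀ x : X, Dense (Set.range fun n : ℤ => (h ^ n) x)) {a : CC p X h} (ha : LC a)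
    {η : ℝ} (hη : 0 < η) : ∃ u : FpR p X h, IsUnit u ∧ ‖(a : FpR p X h) - u‖ ≤ η := by
  obtain ⟨N₀, hN₀⟩ := exists_band a
  set N : ℕ := N₀ + 1 with hNdef
  have hN : Band N a := hN₀.mono (Nat.le_succ _)
  set ε : ℝ := η / 2 with hε
  have hε0 : 0 < ε := by positivity
  -- the dichotomy
  have key : (∃ L, (∀ x, LB a N L ε x) ∨ (∀ x, RB a N L ε x)) ∨
      ((∀ x L, ¬ LB a N L ε x) ∧ ∀ x L, ¬ RB a N L ε x) := by
    by_cases h1 : ∃ x L, LB a N L ε x
    · left
      obtain ⟨x, L, hx⟩ := h1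
      obtain ⟨K, hK⟩ := exists_gap hmin (LB_open hN ha ε L) ⟨x, hx⟩
      refine ⟨L + K, Or.inl fun z => ?_⟩
      obtain ⟨k, hk1, hk2⟩ := hK z
      exact LB_shift hN hε0 hk1 hk2
    · by_cases h2 : ∃ x L, RB a N L ε x
      · left
        obtain ⟨x, L, hx⟩ := h2
        obtain ⟨K, hK⟩ := exists_gap hmin (RB_open hN ha ε L) ⟨x, hx⟩
        refine ⟨L + K, Or.inr fun z => ?_⟩
        obtain ⟨k, hk1, hk2⟩ := hK z
        exact RB_shift hN hε0 hk1 hk2
      · right
        push Not at h1 h2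
        exact ⟨h1, h2⟩
  rcases key with ⟨L, hb⟩ | ⟨hb1, hb2⟩
  · set J₀ : ℕ := 2 * N * (L + 2 * N) with hJ₀
    obtain ⟨Y, hY, J, hJJ, hret, hrt⟩ := exists_tower (h := h) hmin J₀
    have h2N : 2 * N ≤ J₀ := by
      rw [hJ₀]
      exact Nat.le_mul_of_pos_right _ (by omega)
    set δ : ℝ := ε / (J * J + 1) with hδ
    have hδ0 : 0 < δ := by positivity
    obtain ⟨U, hU1, hU2⟩ := bad_case hp2 hN ha h2N hε0.le
      (fun x => bad_of_windows hε0 hN hb x) hY hret hrt hJJ hδ0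
    refine ⟨(U : FpR p X h), hU1.map (UniformSpace.Completion.coeRingHom (α := CC p X h)), ?_⟩
    rw [← UniformSpace.Completion.coe_sub, UniformSpace.Completion.norm_coe]
    refine hU2.trans ?_
    have h3 : (J * J : ℝ) * δ ≤ ε := by
      rw [hδ, mul_div_assoc', div_le_iff₀ (by positivity)]
      nlinarith
    linarith
  · refine ⟨a, good_case hε0 hN ha hb1 hb2, ?_⟩
    rw [sub_self, norm_zero]
    exact hη.le

/-- locally constant functions are dense -/
lemma exists_lc_approx [T2Space X] [TotallyDisconnectedSpace X] (f : C(X, ℂ)) {δ : ℝ}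
    (hδ : 0 < δ) : ∃ g : C(X, ℂ), IsLocallyConstant g ∧ ‖f - g‖ ≤ δ := by
  classical
  have hV : ∀ x : X, ∃ V : Set X, IsClopen V ∧ x ∈ V ∧ ∀ y ∈ V, ‖f y - f x‖ ≤ δ := by
    intro x
    have hO : IsOpen {y : X | ‖f y - f x‖ < δ} :=
      isOpen_lt ((f.continuous.sub continuous_const).norm) continuous_const
    obtain ⟨V, hV1, hV2, hV3⟩ := compact_exists_isClopen_in_isOpen hO
      (show x ∈ {y : X | ‖f y - f x‖ < δ} by simpa using hδ)
    exact ⟨V, hV1, hV2, fun y hy => (hV3 hy).le⟩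
  choose V hVc hVx hVf using hV
  obtain ⟨t, ht⟩ := isCompact_univ.elim_finite_subcover V (fun x => (hVc x).isOpen)
    (fun x _ => Set.mem_iUnion.2 ⟨x, hVx x⟩)
  have claim : ∀ t : Finset X, ∃ g : X → ℂ, IsLocallyConstant g ∧
      ∀ y ∈ ⋃ x ∈ t, V x, ‖f y - g y‖ ≤ δ := by
    intro t
    induction t using Finset.induction_on with
    | empty => exact ⟨fun _ => 0, IsLocallyConstant.const 0, fun y hy => by simp at hy⟩
    | insert x t _ ih =>
      obtain ⟨g, hg1, hg2⟩ := ih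
      refine ⟨fun y => if y ∈ V x then f x else g y, ilc_ite (hVc x) (IsLocallyConstant.const _) hg1,
        fun y hy => ?_⟩
      by_cases hyx : y ∈ V x
      · simp only [if_pos hyx]
        exact hVf x y hyx
      · simp only [if_neg hyx]
        apply hg2
        rw [Finset.set_biUnion_insert] at hy
        exact hy.resolve_left hyx
  obtain ⟨g, hg1, hg2⟩ := claim t
  refine ⟨⟨g, hg1.continuous⟩, hg1, ?_⟩
  rw [ContinuousMap.norm_le _ hδ.le]
  intro y
  exact hg2 y (ht (Set.mem_univ y))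

lemma exists_LC_approx [T2Space X] [TotallyDisconnectedSpace X] (a : CC p X h) {η : ℝ}
    (hη : 0 < η) : ∃ a' : CC p X h, LC a' ∧ ‖a - a'‖ ≤ η := by
  classical
  obtain ⟨N, hN⟩ := exists_band a
  have hη' : 0 < η / (2 * N + 1) := by positivity
  choose f hf1 hf2 using fun m : ℤ => exists_lc_approx (co a m) hη'
  set a' : CC p X h := ∑ m ∈ Finset.Icc (-(N : ℤ)) N, sgl m (f m) with ha'
  have hco : ∀ m, co a' m = if m ∈ Finset.Icc (-(N : ℤ)) N then f m else 0 := by
    intro m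
    rw [ha', co_sum]
    by_cases hm : m ∈ Finset.Icc (-(N : ℤ)) N
    · rw [if_pos hm, Finset.sum_eq_single m, co_sgl_same]
      · intro n _ hn
        exact co_sgl_ne (Ne.symm hn) _
      · intro h1; exact absurd hm h1
    · rw [if_neg hm, Finset.sum_eq_zero]
      intro n hn
      apply co_sgl_ne
      rintro rfl
      exact hm hn
  have hout : ∀ m : ℤ, m ∉ Finset.Icc (-(N : ℤ)) N → (N : ℤ) < |m| := by
    intro m hm
    rw [Finset.mem_Icc, ← abs_le] at hm
    exact not_le.1 hm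
  refine ⟨a', ?_, ?_⟩
  · intro m
    rw [hco]
    by_cases hm : m ∈ Finset.Icc (-(N : ℤ)) N
    · rw [if_pos hm]; exact hf1 m
    · rw [if_neg hm]
      exact IsLocallyConstant.const (0 : ℂ)
  · have hB : Band N (a - a') := by
      apply hN.sub
      intro m hm
      rw [hco, if_neg]
      intro h1
      rw [Finset.mem_Icc, ← abs_le] at h1
      omega
    have h1 := norm_le_band hB (τ := η / (2 * N + 1)) (by
      intro m
      rw [co_sub, hco]
      by_cases hm : m ∈ Finset.Icc (-(N : ℤ)) N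
      · rw [if_pos hm]; exact hf2 m
      · rw [if_neg hm, hN m (hout m hm), sub_self, norm_zero]
        exact hη'.le)
    refine h1.trans (le_of_eq ?_)
    field_simp

/-- **stable rank one** -/
theorem dense_units [T2Space X] [TotallyDisconnectedSpace X] [Infinite X] (hp2 : p ≠ 2)
    (hmin : ∀ x : X, Dense (Set.range fun n : ℤ => (h ^ n) x)) :
    Dense {a : FpR p X h | IsUnit a} := by
  rw [Metric.dense_iff]
  intro b η hη
  have hd : Dense (Set.range ((↑) : CC p X h → FpR p X h)) :=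
    UniformSpace.Completion.denseRange_coe
  obtain ⟨_, hb1, a, rfl⟩ := Metric.dense_iff.1 hd b (η / 4) (by positivity)
  rw [Metric.mem_ball, dist_eq_norm] at hb1
  obtain ⟨a', ha', ha2⟩ := exists_LC_approx a (show 0 < η / 4 by positivity)
  obtain ⟨u, hu1, hu2⟩ := approx_LC hp2 hmin ha' (show 0 < η / 4 by positivity)
  refine ⟨u, ?_, hu1⟩
  rw [Metric.mem_ball, dist_eq_norm]
  have h1 : ‖(a : FpR p X h) - (a' : FpR p X h)‖ ≤ η / 4 := by
    rw [← UniformSpace.Completion.coe_sub, UniformSpace.Completion.norm_coe]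
    exact ha2
  have h2 : u - b = -((a' : FpR p X h) - u) - ((a : FpR p X h) - a') + ((a : FpR p X h) - b) := by
    abel
  rw [h2]
  calc ‖-((a' : FpR p X h) - u) - ((a : FpR p X h) - a') + ((a : FpR p X h) - b)‖
      ≤ ‖-((a' : FpR p X h) - u) - ((a : FpR p X h) - a')‖ + ‖(a : FpR p X h) - b‖ :=
        norm_add_le _ _
    _ ≤ ‖-((a' : FpR p X h) - u)‖ + ‖(a : FpR p X h) - a'‖ + ‖(a : FpR p X h) - b‖ := by
        gcongr; exact norm_sub_le _ _
    _ < η := by rw [norm_neg]; linarith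

end H382FP
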